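import Mathlib

/-!
# Averages of bounded functions which are orthogonal at large distances
-/

set_option autoImplicit false

open MeasureTheory Filter Topology Set Finset
open scoped ENNReal ComplexConjugate

namespace Pool.Agent.R205.PC

lemma sqrt2 (N : ℕ) : (Nat.sqrt (Nat.sqrt N)) ^ 4 ≤ N ∧ N < (Nat.sqrt (Nat.sqrt N) + 1) ^ 4 := by
  set a := Nat.sqrt N with ha
  set l := Nat.sqrt a with hl
  have h1 : a ^ 2 ≤ N := by rw [ha]; exact Nat.sqrt_le' N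
  have h2 : N < (a + 1) ^ 2 := by rw [ha]; exact Nat.lt_succ_sqrt' N
  have h3 : l ^ 2 ≤ a := by rw [hl]; exact Nat.sqrt_le' a
  have h4 : a < (l + 1) ^ 2 := by rw [hl]; exact Nat.lt_succ_sqrt' a
  constructor
  · calc l ^ 4 = (l ^ 2) ^ 2 := by ring
      _ ≤ a ^ 2 := Nat.pow_le_pow_left h3 2
      _ ≤ N := h1
  · calc N < (a + 1) ^ 2 := h2
      _ ≤ ((l + 1) ^ 2) ^ 2 := Nat.pow_le_pow_left h4 2
      _ = (l + 1) ^ 4 := by ring

/-- convergence along fourth powers is enough for bounded sequences -/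
lemma tendsto_of_fourth (z : ℕ → ℂ) (C : ℝ) (hz : ∀ n, ‖z n‖ ≤ C)
    (h : Tendsto (fun l : ℕ => ‖∑ n ∈ range (l ^ 4), z n‖ / (l : ℝ) ^ 4) atTop (𝓝 0)) :
    Tendsto (fun N : ℕ => (1 / (N : ℂ)) * ∑ n ∈ range N, z n) atTop (𝓝 0) := by
  have hC : 0 ≤ C := (norm_nonneg _).trans (hz 0)
  set r : ℕ → ℕ := fun N => Nat.sqrt (Nat.sqrt N) with hr
  have hrt : Tendsto r atTop atTop := by
    refine tendsto_atTop.2 fun b => ?_
    filter_upwards [eventually_ge_atTop (b ^ 4)] with N hN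
    by_contra hlt
    push Not at hlt
    have h1 := (sqrt2 N).2
    have h2 : (r N + 1) ^ 4 ≤ b ^ 4 := Nat.pow_le_pow_left hlt 4
    have : N < b ^ 4 := lt_of_lt_of_le h1 h2
    omega
  have hlim : Tendsto (fun l : ℕ => ‖∑ n ∈ range (l ^ 4), z n‖ / (l : ℝ) ^ 4 + 15 * C / (l : ℝ)) atTop (𝓝 0) := by
    have h2 : Tendsto (fun l : ℕ => 15 * C / (l : ℝ)) atTop (𝓝 0) := tendsto_const_div_atTop_nhds_zero_nat _
    simpa using h.add h2
  refine squeeze_zero_norm' ?_ (hlim.comp hrt)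
  filter_upwards [eventually_ge_atTop 1] with N hN
  simp only [Function.comp]
  obtain ⟨h1, h2⟩ := sqrt2 N
  change (r N) ^ 4 ≤ N at h1
  change N < (r N + 1) ^ 4 at h2
  set l := r N with hl
  have hl1 : 1 ≤ l := by
    by_contra hcon
    have : l = 0 := by omega
    rw [this] at h2
    omega
  have hl0 : (1 : ℝ) ≤ l := by exact_mod_cast hl1
  have hN0 : (0 : ℝ) < N := by exact_mod_cast hN
  have hlN : (l : ℝ) ^ 4 ≤ N := by exact_mod_cast h1
  have hl4 : (0 : ℝ) < (l : ℝ) ^ 4 := by positivity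
  have h3 : ∑ n ∈ range N, z n = ∑ n ∈ range (l ^ 4), z n + ∑ n ∈ Finset.Ico (l ^ 4) N, z n := by
    rw [Finset.sum_range_add_sum_Ico _ h1]
  have h4 : ‖∑ n ∈ Finset.Ico (l ^ 4) N, z n‖ ≤ (N - l ^ 4 : ℕ) * C := by
    refine (norm_sum_le_of_le _ fun n _ => hz n).trans ?_
    rw [Finset.sum_const, Nat.card_Ico, nsmul_eq_mul]
  have h5 : ((N - l ^ 4 : ℕ) : ℝ) ≤ 15 * (l : ℝ) ^ 3 := by
    have : N - l ^ 4 ≤ 15 * l ^ 3 := by
      have e1 : (l + 1) ^ 4 = l ^ 4 + 4 * l ^ 3 + 6 * l ^ 2 + 4 * l + 1 := by ring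
      have e2 : l ^ 2 ≤ l ^ 3 := Nat.pow_le_pow_right hl1 (by norm_num)
      have e3 : l ≤ l ^ 3 := by
        calc l = l ^ 1 := (pow_one l).symm
          _ ≤ l ^ 3 := Nat.pow_le_pow_right hl1 (by norm_num)
      have e4 : 1 ≤ l ^ 3 := Nat.one_le_pow _ _ hl1
      omega
    exact_mod_cast this
  rw [norm_mul, norm_div, norm_one, Complex.norm_natCast, h3, one_div, ← div_eq_inv_mul]
  calc ‖∑ n ∈ range (l ^ 4), z n + ∑ n ∈ Finset.Ico (l ^ 4) N, z n‖ / N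
      ≤ (‖∑ n ∈ range (l ^ 4), z n‖ + 15 * (l : ℝ) ^ 3 * C) / N := by
        gcongr
        refine (norm_add_le _ _).trans ?_
        gcongr
        exact h4.trans (by gcongr)
    _ ≤ (‖∑ n ∈ range (l ^ 4), z n‖ + 15 * (l : ℝ) ^ 3 * C) / (l : ℝ) ^ 4 := by gcongr
    _ = ‖∑ n ∈ range (l ^ 4), z n‖ / (l : ℝ) ^ 4 + 15 * C / (l : ℝ) := by
        field_simp

variable {Ω : Type*} [MeasurableSpace Ω] (P : Measure Ω) [IsProbabilityMeasure P]

/-- second moment criterion -/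
lemma ae_of_moment (Ψ : ℕ → Ω → ℂ) (hΨ : ∀ n, Measurable (Ψ n)) (C : ℝ) (hC : ∀ n ω, ‖Ψ n ω‖ ≤ C)
    (D : ℝ) (hD : ∀ᶠ N : ℕ in atTop, ∫ ω, ‖∑ n ∈ range N, Ψ n ω‖ ^ 2 ∂P ≤ D * ((N : ℝ) * Real.sqrt N)) :
    ∀ᵐ ω ∂P, Tendsto (fun N : ℕ => (1 / (N : ℂ)) * ∑ n ∈ range N, Ψ n ω) atTop (𝓝 0) := by
  have hC0 : 0 ≤ C := (norm_nonneg _).trans (hC 0 (Classical.choice (nonempty_of_isProbabilityMeasure P)))
  set G : ℕ → Ω → ℝ := fun l ω => (‖∑ n ∈ range (l ^ 4), Ψ n ω‖ / (l : ℝ) ^ 4) ^ 2 with hG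
  have hGm : ∀ l, Measurable (G l) := fun l =>
    (((Finset.measurable_fun_sum _ fun n _ => hΨ n).norm).div_const _).pow_const 2
  have hbd : ∀ N ω, ‖∑ n ∈ range N, Ψ n ω‖ ≤ N * C := by
    intro N ω
    refine (norm_sum_le_of_le _ fun n _ => hC n ω).trans ?_
    rw [Finset.sum_const, Finset.card_range, nsmul_eq_mul]
  have hev : ∀ᶠ l : ℕ in atTop, ∫⁻ ω, ENNReal.ofReal (G l ω) ∂P ≤ ENNReal.ofReal (D * (1 / (l : ℝ) ^ 2)) := by
    have h4 : Tendsto (fun l : ℕ => l ^ 4) atTop atTop := tendsto_pow_atTop (by norm_num)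
    filter_upwards [h4.eventually hD, eventually_ge_atTop 1] with l hl hl1
    have hl0 : (0 : ℝ) < l := by exact_mod_cast hl1
    rw [← ofReal_integral_eq_lintegral_ofReal]
    · apply ENNReal.ofReal_le_ofReal
      have e1 : ∀ ω, G l ω = (1 / (l : ℝ) ^ 8) * ‖∑ n ∈ range (l ^ 4), Ψ n ω‖ ^ 2 := by
        intro ω
        simp only [hG]
        rw [div_pow]
        field_simp
      simp only [e1]
      rw [integral_const_mul]
      have e2 : Real.sqrt ((l ^ 4 : ℕ) : ℝ) = (l : ℝ) ^ 2 := by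
        rw [Nat.cast_pow, show (l : ℝ) ^ 4 = ((l : ℝ) ^ 2) ^ 2 by ring, Real.sqrt_sq (by positivity)]
      rw [e2] at hl
      calc (1 / (l : ℝ) ^ 8) * ∫ ω, ‖∑ n ∈ range (l ^ 4), Ψ n ω‖ ^ 2 ∂P
          ≤ (1 / (l : ℝ) ^ 8) * (D * (((l ^ 4 : ℕ) : ℝ) * (l : ℝ) ^ 2)) := by gcongr
        _ = D * (1 / (l : ℝ) ^ 2) := by push_cast; field_simp
    · refine Integrable.of_bound (hGm l).aestronglyMeasurable ((l ^ 4 * C / (l : ℝ) ^ 4) ^ 2) ?_
      filter_upwards with ω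
      rw [Real.norm_eq_abs, abs_of_nonneg (by positivity)]
      simp only [hG]
      have := hbd (l ^ 4) ω
      push_cast at this
      gcongr
    · filter_upwards with ω
      simp only [hG, Pi.zero_apply]
      positivity
  obtain ⟨l0, hl0⟩ := eventually_atTop.1 hev
  have hsum : ∑' l, ∫⁻ ω, ENNReal.ofReal (G (l + l0) ω) ∂P ≠ ∞ := by
    have hs : Summable (fun l : ℕ => D * (1 / ((l + l0 : ℕ) : ℝ) ^ 2)) := by
      refine Summable.mul_left _ ?_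
      exact (summable_nat_add_iff l0).2 (Real.summable_one_div_nat_pow.2 (by norm_num : 1 < 2))
    refine ne_top_of_le_ne_top hs.tsum_ofReal_ne_top ?_
    exact ENNReal.tsum_le_tsum fun l => hl0 (l + l0) (by omega)
  have hae : ∀ᵐ ω ∂P, ∑' l, ENNReal.ofReal (G (l + l0) ω) < ∞ := by
    refine ae_lt_top ?_ ?_
    · exact Measurable.tsum fun l => (hGm _).ennreal_ofReal
    · rw [lintegral_tsum fun l => ((hGm _).ennreal_ofReal).aemeasurable]
      exact hsum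
  filter_upwards [hae] with ω hω
  have h1 := ENNReal.tendsto_atTop_zero_of_tsum_ne_top hω.ne
  have h2 : Tendsto (fun l => G (l + l0) ω) atTop (𝓝 0) := by
    have h3 := (ENNReal.tendsto_toReal ENNReal.zero_ne_top).comp h1
    simp only [ENNReal.toReal_zero] at h3
    refine h3.congr fun l => ?_
    simp only [Function.comp]
    rw [ENNReal.toReal_ofReal (by simp only [hG]; positivity)]
  have h3 : Tendsto (fun l => G l ω) atTop (𝓝 0) := (tendsto_add_atTop_iff_nat l0).1 h2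
  have h4 : Tendsto (fun l : ℕ => ‖∑ n ∈ range (l ^ 4), Ψ n ω‖ / (l : ℝ) ^ 4) atTop (𝓝 0) := by
    have h5 := (Real.continuous_sqrt.tendsto 0).comp h3
    rw [Real.sqrt_zero] at h5
    refine h5.congr fun l => ?_
    simp only [Function.comp, hG]
    rw [Real.sqrt_sq (by positivity)]
  exact tendsto_of_fourth (fun n => Ψ n ω) C (fun n => hC n ω) h4

end Pool.Agent.R205.PC

namespace Pool.Agent.R205.PC

variable {Ω : Type*} [MeasurableSpace Ω] (P : Measure Ω) [IsProbabilityMeasure P]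

lemma moment_of_orth (Ψ : ℕ → Ω → ℂ) (hΨ : ∀ n, Measurable (Ψ n)) (C : ℝ) (hC : ∀ n ω, ‖Ψ n ω‖ ≤ C)
    (N W : ℕ) (horth : ∀ n' n, n' + W < n → n < N → ∫ ω, Ψ n ω * conj (Ψ n' ω) ∂P = 0) :
    ∫ ω, ‖∑ n ∈ range N, Ψ n ω‖ ^ 2 ∂P ≤ C ^ 2 * N * (2 * W + 1) := by
  have hC0 : 0 ≤ C := (norm_nonneg _).trans (hC 0 (Classical.choice (nonempty_of_isProbabilityMeasure P)))
  have hint : ∀ n n', Integrable (fun ω => Ψ n ω * conj (Ψ n' ω)) P := by
    intro n n'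
    refine Integrable.of_bound ((hΨ n).mul ((Complex.continuous_conj.measurable).comp (hΨ n'))).aestronglyMeasurable (C * C) ?_
    filter_upwards with ω
    rw [norm_mul, Complex.norm_conj]
    exact mul_le_mul (hC n ω) (hC n' ω) (norm_nonneg _) hC0
  have hbd : ∀ n n', ‖∫ ω, Ψ n ω * conj (Ψ n' ω) ∂P‖ ≤ C ^ 2 := by
    intro n n'
    have h1 : ∀ᵐ ω ∂P, ‖Ψ n ω * conj (Ψ n' ω)‖ ≤ C ^ 2 := by
      filter_upwards with ω
      rw [norm_mul, Complex.norm_conj, sq]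
      exact mul_le_mul (hC n ω) (hC n' ω) (norm_nonneg _) hC0
    have := norm_integral_le_of_norm_le_const h1
    simpa using this
  have hsymm : ∀ n n', n + W < n' → n' < N → ∫ ω, Ψ n ω * conj (Ψ n' ω) ∂P = 0 := by
    intro n n' h1 h2
    have h3 := horth n n' h1 h2
    have h4 : ∀ ω, Ψ n ω * conj (Ψ n' ω) = conj (Ψ n' ω * conj (Ψ n ω)) := by
      intro ω
      rw [map_mul, Complex.conj_conj, mul_comm]
    simp only [h4]
    rw [integral_conj, h3, map_zero]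
  have key : ((∫ ω, ‖∑ n ∈ range N, Ψ n ω‖ ^ 2 ∂P : ℝ) : ℂ) =
      ∑ n ∈ range N, ∑ n' ∈ range N, ∫ ω, Ψ n ω * conj (Ψ n' ω) ∂P := by
    rw [← integral_complex_ofReal]
    have h1 : ∀ ω, (((‖∑ n ∈ range N, Ψ n ω‖ ^ 2 : ℝ)) : ℂ) = ∑ n ∈ range N, ∑ n' ∈ range N, Ψ n ω * conj (Ψ n' ω) := by
      intro ω
      rw [Complex.ofReal_pow, ← Complex.mul_conj', map_sum, Finset.sum_mul_sum]
    simp only [h1]
    rw [integral_finsetSum _ fun n _ => integrable_finsetSum _ fun n' _ => hint n n']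
    refine Finset.sum_congr rfl fun n _ => ?_
    rw [integral_finsetSum _ fun n' _ => hint n n']
  have hnn : 0 ≤ ∫ ω, ‖∑ n ∈ range N, Ψ n ω‖ ^ 2 ∂P := integral_nonneg fun ω => by positivity
  calc ∫ ω, ‖∑ n ∈ range N, Ψ n ω‖ ^ 2 ∂P = ‖((∫ ω, ‖∑ n ∈ range N, Ψ n ω‖ ^ 2 ∂P : ℝ) : ℂ)‖ := by
        rw [Complex.norm_real, Real.norm_eq_abs, abs_of_nonneg hnn]
    _ = ‖∑ n ∈ range N, ∑ n' ∈ range N, ∫ ω, Ψ n ω * conj (Ψ n' ω) ∂P‖ := by rw [key]
    _ ≤ ∑ n ∈ range N, ∑ n' ∈ range N, ‖∫ ω, Ψ n ω * conj (Ψ n' ω) ∂P‖ := by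
        refine (norm_sum_le _ _).trans (Finset.sum_le_sum fun n _ => norm_sum_le _ _)
    _ ≤ ∑ n ∈ range N, ∑ n' ∈ range N, (if n' ∈ Finset.Icc (n - W) (n + W) then C ^ 2 else 0) := by
        refine Finset.sum_le_sum fun n hn => Finset.sum_le_sum fun n' hn' => ?_
        rw [Finset.mem_range] at hn hn'
        split_ifs with h
        · exact hbd n n'
        · rw [Finset.mem_Icc] at h
          rcases lt_or_ge (n + W) n' with h1 | h1
          · rw [hsymm n n' h1 hn', norm_zero]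
          · rw [horth n' n (by omega) hn, norm_zero]
    _ ≤ ∑ n ∈ range N, (2 * W + 1 : ℝ) * C ^ 2 := by
        refine Finset.sum_le_sum fun n _ => ?_
        rw [← Finset.sum_filter, Finset.sum_const, nsmul_eq_mul]
        gcongr
        have h1 : (#{a ∈ range N | a ∈ Finset.Icc (n - W) (n + W)}) ≤ #(Finset.Icc (n - W) (n + W)) :=
          Finset.card_le_card fun a ha => (Finset.mem_filter.1 ha).2
        rw [Nat.card_Icc] at h1
        have h2 : (#{a ∈ range N | a ∈ Finset.Icc (n - W) (n + W)}) ≤ 2 * W + 1 := by omega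
        exact_mod_cast h2
    _ = C ^ 2 * N * (2 * W + 1) := by
        rw [Finset.sum_const, Finset.card_range, nsmul_eq_mul]; ring

lemma ae_of_orth (Ψ : ℕ → Ω → ℂ) (hΨ : ∀ n, Measurable (Ψ n)) (C : ℝ) (hC : ∀ n ω, ‖Ψ n ω‖ ≤ C)
    (W : ℕ → ℕ) (D : ℝ) (hW : ∀ᶠ N in atTop, (2 * (W N : ℝ) + 1) ≤ D * Real.sqrt N)
    (horth : ∀ᶠ N in atTop, ∀ n' n, n' + W N < n → n < N → ∫ ω, Ψ n ω * conj (Ψ n' ω) ∂P = 0) :
    ∀ᵐ ω ∂P, Tendsto (fun N : ℕ => (1 / (N : ℂ)) * ∑ n ∈ range N, Ψ n ω) atTop (𝓝 0) := by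
  refine ae_of_moment P Ψ hΨ C hC (C ^ 2 * D) ?_
  filter_upwards [hW, horth] with N h1 h2
  refine (moment_of_orth P Ψ hΨ C hC N (W N) h2).trans ?_
  calc C ^ 2 * N * (2 * W N + 1) ≤ C ^ 2 * N * (D * Real.sqrt N) := by gcongr
    _ = C ^ 2 * D * (N * Real.sqrt N) := by ring

end Pool.Agent.R205.PC
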