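import Pool.Agent.R205.PC.Fub
import Pool.Agent.H165R3.BPE

/-!
# Closure under approximation in `L¹` and a countable dense family
-/

set_option autoImplicit false

open MeasureTheory Filter Topology Set Finset
open scoped ENNReal ComplexConjugate

namespace Pool.Agent.R205.PC

lemma avg_small {X : Type*} [MeasurableSpace X] (ν : Measure X) [IsProbabilityMeasure ν] {T : X → X}
    (hT : MeasurePreserving T ν ν) (a : ℕ) (u : X → ℝ) (hu : Measurable u) (B : ℝ) (h0 : ∀ z, 0 ≤ u z)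
    (hB : ∀ z, u z ≤ B) (δ : ℝ) (hδ : 0 < δ) :
    ν {z | ¬ ∀ᶠ N : ℕ in atTop, (N : ℝ)⁻¹ * ∑ n ∈ range N, u (T^[a * (n + 1)] z) ≤ δ} ≤
      ENNReal.ofReal ((∫ z, u z ∂ν) / δ) := by
  have hTa : MeasurePreserving (T^[a]) ν ν := hT.iterate a
  set κ : X → ℝ := fun z => u (T^[a] z) with hκ
  have hκm : Measurable κ := hu.comp hTa.measurable
  have hκb : ∀ z, |κ z| ≤ B := fun z => by
    rw [abs_of_nonneg (h0 _)]; exact hB _
  have hbirk := Pool.Agent.H165R3.BPE.birkhoff hTa κ hκm B hκb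
  set E : X → ℝ := ν[κ | MeasurableSpace.invariants (T^[a])] with hE
  have hE0 : 0 ≤ᵐ[ν] E := condExp_nonneg (Eventually.of_forall fun z => h0 _)
  have hEi : Integrable E ν := integrable_condExp
  have hEint : ∫ z, E z ∂ν = ∫ z, u z ∂ν := by
    rw [hE, integral_condExp (MeasurableSpace.invariants_le _)]
    have h4 := integral_map (μ := ν) (φ := T^[a]) (f := u) hTa.measurable.aemeasurable hu.aestronglyMeasurable
    rw [hTa.map_eq] at h4
    exact h4.symm
  have hmark := mul_meas_ge_le_integral_of_nonneg hE0 hEi δ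
  rw [hEint] at hmark
  have hsub : {z | ¬ ∀ᶠ N : ℕ in atTop, (N : ℝ)⁻¹ * ∑ n ∈ range N, u (T^[a * (n + 1)] z) ≤ δ} ≤ᵐ[ν] {z | δ ≤ E z} := by
    filter_upwards [hbirk] with z hz hbad
    change δ ≤ E z
    by_contra hcon
    rw [not_le] at hcon
    apply hbad
    have h2 := (tendsto_order.1 hz).2 _ hcon
    filter_upwards [h2] with N hN
    refine le_trans (le_of_eq ?_) hN.le
    congr 1
    refine Finset.sum_congr rfl fun n _ => ?_
    simp only [hκ]
    rw [← Function.iterate_mul, ← Function.iterate_add_apply]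
    congr 2
    ring
  calc ν {z | ¬ ∀ᶠ N : ℕ in atTop, (N : ℝ)⁻¹ * ∑ n ∈ range N, u (T^[a * (n + 1)] z) ≤ δ}
      ≤ ν {z | δ ≤ E z} := measure_mono_ae hsub
    _ = ENNReal.ofReal (ν.real {z | δ ≤ E z}) := by rw [ofReal_measureReal]
    _ ≤ ENNReal.ofReal ((∫ z, u z ∂ν) / δ) := by
        apply ENNReal.ofReal_le_ofReal
        rw [le_div_iff₀ hδ, mul_comm]
        exact hmark

lemma prod_sub_le (C : ℝ) (hC : 1 ≤ C) (m : ℕ) (a b : ℕ → ℂ) (ha : ∀ j, ‖a j‖ ≤ C) (hb : ∀ j, ‖b j‖ ≤ C) :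
    ‖∏ j ∈ range m, a j - ∏ j ∈ range m, b j‖ ≤ C ^ m * ∑ j ∈ range m, ‖a j - b j‖ := by
  have hC0 : 0 ≤ C := by linarith
  have hbm : ∀ m : ℕ, ‖∏ j ∈ range m, b j‖ ≤ C ^ m := by
    intro m
    rw [norm_prod]
    calc ∏ j ∈ range m, ‖b j‖ ≤ ∏ _j ∈ range m, C := Finset.prod_le_prod (fun _ _ => norm_nonneg _) fun j _ => hb j
      _ = C ^ m := by rw [Finset.prod_const, Finset.card_range]
  induction m with
  | zero => simp
  | succ m ih =>
    rw [Finset.prod_range_succ, Finset.prod_range_succ, Finset.sum_range_succ]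
    have h1 : (∏ j ∈ range m, a j) * a m - (∏ j ∈ range m, b j) * b m =
        (∏ j ∈ range m, a j - ∏ j ∈ range m, b j) * a m + (∏ j ∈ range m, b j) * (a m - b m) := by ring
    rw [h1]
    calc ‖(∏ j ∈ range m, a j - ∏ j ∈ range m, b j) * a m + (∏ j ∈ range m, b j) * (a m - b m)‖
        ≤ ‖∏ j ∈ range m, a j - ∏ j ∈ range m, b j‖ * ‖a m‖ + ‖∏ j ∈ range m, b j‖ * ‖a m - b m‖ := by
          refine (norm_add_le _ _).trans ?_
          rw [norm_mul, norm_mul]
      _ ≤ (C ^ m * ∑ j ∈ range m, ‖a j - b j‖) * C + C ^ m * ‖a m - b m‖ :=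
          add_le_add (mul_le_mul ih (ha m) (norm_nonneg _) (by positivity)) (mul_le_mul_of_nonneg_right (hbm m) (norm_nonneg _))
      _ ≤ (C ^ m * ∑ j ∈ range m, ‖a j - b j‖) * C + C ^ m * C * ‖a m - b m‖ := by
          gcongr
          calc C ^ m = C ^ m * 1 := (mul_one _).symm
            _ ≤ C ^ m * C := by gcongr
      _ = C ^ (m + 1) * (∑ j ∈ range m, ‖a j - b j‖ + ‖a m - b m‖) := by ring

variable {Y K : Type*} [MeasurableSpace Y] [Group K] [MeasurableSpace K] [MeasurableMul₂ K]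

theorem clos (ρ : Measure K) [IsProbabilityMeasure ρ] [ρ.IsMulLeftInvariant]
    (μ : Measure Y) [IsProbabilityMeasure μ] (S : Y → Y) (hS : MeasurePreserving S μ μ) (c : Y → K)
    (hc : Measurable c) (m : ℕ) (a : ℕ → ℕ) (f : ℕ → Y × K → ℂ) (C : ℝ) (hC : 1 ≤ C)
    (hf : ∀ j, Measurable (f j)) (hfC : ∀ j z, ‖f j z‖ ≤ C)
    (h : ∀ ε : ℝ, 0 < ε → ∃ g : ℕ → Y × K → ℂ, (∀ j, Measurable (g j)) ∧ (∀ j z, ‖g j z‖ ≤ C) ∧
      (∀ j < m, ∫ z, ‖f j z - g j z‖ ∂(μ.prod ρ) ≤ ε) ∧
      ∀ᵐ z ∂(μ.prod ρ), Tendsto (fun N : ℕ => dif ρ S c m (fun j n => a j * (n + 1)) g N z) atTop (𝓝 0)) :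
    ∀ᵐ z ∂(μ.prod ρ), Tendsto (fun N : ℕ => dif ρ S c m (fun j n => a j * (n + 1)) f N z) atTop (𝓝 0) := by
  have hC0 : 0 ≤ C := by linarith
  have hT := mp_sk ρ μ S hS c hc
  have hbad : ∀ k : ℕ, ∀ᵐ z ∂(μ.prod ρ), ∀ᶠ N : ℕ in atTop,
      ‖dif ρ S c m (fun j n => a j * (n + 1)) f N z‖ ≤ 1 / ((k : ℝ) + 1) := by
    intro k
    set δ : ℝ := 1 / ((k : ℝ) + 1) with hδ
    have hδ0 : 0 < δ := by positivity
    set δ' : ℝ := δ / (4 * C ^ m * (m + 1)) with hδ'
    have hδ'0 : 0 < δ' := by positivity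
    rw [ae_iff]
    rw [← nonpos_iff_eq_zero]
    apply ENNReal.le_of_forall_pos_le_add
    intro η hη _
    rw [zero_add]
    have hη' : (0 : ℝ) < η := by exact_mod_cast hη
    set ε : ℝ := η * δ' / (2 * (m + 1)) with hε
    have hε0 : 0 < ε := by positivity
    obtain ⟨g, hgm, hgC, hfg, hg⟩ := h ε hε0
    set u : ℕ → Y × K → ℝ := fun j z => ‖f j z - g j z‖ with hu
    set v : ℕ → Y × K → ℝ := fun j z => ‖fm ρ (f j) z.1 - fm ρ (g j) z.1‖ with hv
    have hum : ∀ j, Measurable (u j) := fun j => ((hf j).sub (hgm j)).norm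
    have hvm : ∀ j, Measurable (v j) := fun j =>
      (((fm_meas ρ _ (hf j)).comp measurable_fst).sub ((fm_meas ρ _ (hgm j)).comp measurable_fst)).norm
    have hub : ∀ j z, u j z ≤ C + C := fun j z => (norm_sub_le _ _).trans (add_le_add (hfC j z) (hgC j z))
    have hvb : ∀ j z, v j z ≤ C + C := fun j z =>
      (norm_sub_le _ _).trans (add_le_add (fm_bound ρ _ C (hfC j) _) (fm_bound ρ _ C (hgC j) _))
    have hui : ∀ j, Integrable (u j) (μ.prod ρ) := fun j =>
      Integrable.of_bound (hum j).aestronglyMeasurable (C + C)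
        (Eventually.of_forall fun z => by rw [Real.norm_eq_abs, abs_of_nonneg (norm_nonneg _)]; exact hub j z)
    have hvint : ∀ j < m, ∫ z, v j z ∂(μ.prod ρ) ≤ ε := by
      intro j hj
      refine le_trans ?_ (hfg j hj)
      have hvi : Integrable (v j) (μ.prod ρ) := Integrable.of_bound (hvm j).aestronglyMeasurable (C + C)
        (Eventually.of_forall fun z => by rw [Real.norm_eq_abs, abs_of_nonneg (norm_nonneg _)]; exact hvb j z)
      rw [integral_prod _ hvi, integral_prod _ (hui j)]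
      have h1 : ∀ y, ∫ κ, v j (y, κ) ∂ρ = ‖fm ρ (f j) y - fm ρ (g j) y‖ := by
        intro y
        simp [hv]
      simp only [h1]
      refine integral_mono_of_nonneg (Eventually.of_forall fun y => norm_nonneg _) (hui j).integral_prod_left
        (Eventually.of_forall fun y => ?_)
      have hi1 : Integrable (fun κ => f j (y, κ)) ρ := Integrable.of_bound
        ((hf j).comp (measurable_const.prodMk measurable_id)).aestronglyMeasurable C (Eventually.of_forall fun κ => hfC j _)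
      have hi2 : Integrable (fun κ => g j (y, κ)) ρ := Integrable.of_bound
        ((hgm j).comp (measurable_const.prodMk measurable_id)).aestronglyMeasurable C (Eventually.of_forall fun κ => hgC j _)
      change ‖fm ρ (f j) y - fm ρ (g j) y‖ ≤ ∫ κ, u j (y, κ) ∂ρ
      unfold fm
      rw [← integral_sub hi1 hi2]
      exact norm_integral_le_integral_norm _
    set U : ℕ → Set (Y × K) := fun j =>
      {z | ¬ ∀ᶠ N : ℕ in atTop, (N : ℝ)⁻¹ * ∑ n ∈ range N, u j ((sk S c)^[a j * (n + 1)] z) ≤ δ'} with hU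
    set V : ℕ → Set (Y × K) := fun j =>
      {z | ¬ ∀ᶠ N : ℕ in atTop, (N : ℝ)⁻¹ * ∑ n ∈ range N, v j ((sk S c)^[a j * (n + 1)] z) ≤ δ'} with hV
    have hsub : {z | ¬ ∀ᶠ N : ℕ in atTop, ‖dif ρ S c m (fun j n => a j * (n + 1)) f N z‖ ≤ δ} ≤ᵐ[μ.prod ρ]
        (⋃ j ∈ range m, (U j ∪ V j) : Set (Y × K)) := by
      filter_upwards [hg] with z hz hbadz
      by_contra hcon
      apply hbadz
      have hcon' : ∀ j < m, z ∉ U j ∧ z ∉ V j := by
        intro j hj
        constructor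
        · intro hmem
          exact hcon (Set.mem_biUnion (Finset.mem_coe.2 (Finset.mem_range.2 hj)) (Or.inl hmem))
        · intro hmem
          exact hcon (Set.mem_biUnion (Finset.mem_coe.2 (Finset.mem_range.2 hj)) (Or.inr hmem))
      have hev1 : ∀ᶠ N : ℕ in atTop, ∀ j ∈ range m,
          (N : ℝ)⁻¹ * ∑ n ∈ range N, u j ((sk S c)^[a j * (n + 1)] z) ≤ δ' := by
        rw [Filter.eventually_all_finset]
        intro j hj
        by_contra hne
        exact (hcon' j (Finset.mem_range.1 hj)).1 hne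
      have hev2 : ∀ᶠ N : ℕ in atTop, ∀ j ∈ range m,
          (N : ℝ)⁻¹ * ∑ n ∈ range N, v j ((sk S c)^[a j * (n + 1)] z) ≤ δ' := by
        rw [Filter.eventually_all_finset]
        intro j hj
        by_contra hne
        exact (hcon' j (Finset.mem_range.1 hj)).2 hne
      have hev3 : ∀ᶠ N : ℕ in atTop, ‖dif ρ S c m (fun j n => a j * (n + 1)) g N z‖ ≤ δ / 2 := by
        have h5 := (tendsto_zero_iff_norm_tendsto_zero.1 hz)
        exact (h5.eventually (eventually_le_nhds (show (0:ℝ) < δ / 2 by positivity)))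
      filter_upwards [hev1, hev2, hev3] with N h1 h2 h3
      have hdd : ‖dif ρ S c m (fun j n => a j * (n + 1)) f N z - dif ρ S c m (fun j n => a j * (n + 1)) g N z‖ ≤
          C ^ m * (∑ j ∈ range m, (N : ℝ)⁻¹ * ∑ n ∈ range N, u j ((sk S c)^[a j * (n + 1)] z)) +
          C ^ m * (∑ j ∈ range m, (N : ℝ)⁻¹ * ∑ n ∈ range N, v j ((sk S c)^[a j * (n + 1)] z)) := by
        unfold dif
        rw [← mul_sub, ← Finset.sum_sub_distrib, norm_mul, norm_div, norm_one, Complex.norm_natCast, one_div]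
        have h6 : ∀ n, ‖(∏ j ∈ range m, f j ((sk S c)^[a j * (n + 1)] z) - ∏ j ∈ range m, fm ρ (f j) (S^[a j * (n + 1)] z.1)) -
            (∏ j ∈ range m, g j ((sk S c)^[a j * (n + 1)] z) - ∏ j ∈ range m, fm ρ (g j) (S^[a j * (n + 1)] z.1))‖ ≤
            C ^ m * ∑ j ∈ range m, u j ((sk S c)^[a j * (n + 1)] z) +
            C ^ m * ∑ j ∈ range m, v j ((sk S c)^[a j * (n + 1)] z) := by
          intro n
          have e1 : (∏ j ∈ range m, f j ((sk S c)^[a j * (n + 1)] z) - ∏ j ∈ range m, fm ρ (f j) (S^[a j * (n + 1)] z.1)) -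
            (∏ j ∈ range m, g j ((sk S c)^[a j * (n + 1)] z) - ∏ j ∈ range m, fm ρ (g j) (S^[a j * (n + 1)] z.1)) =
            (∏ j ∈ range m, f j ((sk S c)^[a j * (n + 1)] z) - ∏ j ∈ range m, g j ((sk S c)^[a j * (n + 1)] z)) -
            (∏ j ∈ range m, fm ρ (f j) (S^[a j * (n + 1)] z.1) - ∏ j ∈ range m, fm ρ (g j) (S^[a j * (n + 1)] z.1)) := by ring
          rw [e1]
          refine (norm_sub_le _ _).trans (add_le_add ?_ ?_)
          · exact prod_sub_le C hC m _ _ (fun j => hfC j _) (fun j => hgC j _)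
          · refine (prod_sub_le C hC m _ _ (fun j => fm_bound ρ _ C (hfC j) _) (fun j => fm_bound ρ _ C (hgC j) _)).trans (le_of_eq ?_)
            congr 1
            refine Finset.sum_congr rfl fun j _ => ?_
            simp only [hv]
            rw [show z = (z.1, z.2) from rfl, sk_iter]
        calc (N : ℝ)⁻¹ * ‖∑ n ∈ range N, ((∏ j ∈ range m, f j ((sk S c)^[a j * (n + 1)] z) - ∏ j ∈ range m, fm ρ (f j) (S^[a j * (n + 1)] z.1)) -
            (∏ j ∈ range m, g j ((sk S c)^[a j * (n + 1)] z) - ∏ j ∈ range m, fm ρ (g j) (S^[a j * (n + 1)] z.1)))‖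
            ≤ (N : ℝ)⁻¹ * ∑ n ∈ range N, (C ^ m * ∑ j ∈ range m, u j ((sk S c)^[a j * (n + 1)] z) +
            C ^ m * ∑ j ∈ range m, v j ((sk S c)^[a j * (n + 1)] z)) := by
              gcongr
              exact norm_sum_le_of_le _ fun n _ => h6 n
          _ = _ := by
              rw [Finset.sum_add_distrib, ← Finset.mul_sum, ← Finset.mul_sum, Finset.sum_comm, mul_add]
              congr 1
              · rw [mul_left_comm, Finset.mul_sum]
              · rw [Finset.sum_comm, mul_left_comm, Finset.mul_sum]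
      have hs1 : ∑ j ∈ range m, (N : ℝ)⁻¹ * ∑ n ∈ range N, u j ((sk S c)^[a j * (n + 1)] z) ≤ m * δ' := by
        refine (Finset.sum_le_sum h1).trans (le_of_eq ?_)
        rw [Finset.sum_const, Finset.card_range, nsmul_eq_mul]
      have hs2 : ∑ j ∈ range m, (N : ℝ)⁻¹ * ∑ n ∈ range N, v j ((sk S c)^[a j * (n + 1)] z) ≤ m * δ' := by
        refine (Finset.sum_le_sum h2).trans (le_of_eq ?_)
        rw [Finset.sum_const, Finset.card_range, nsmul_eq_mul]
      have hCm : 0 < C ^ m := by positivity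
      have hfin : C ^ m * (m * δ') + C ^ m * (m * δ') ≤ δ / 2 := by
        have e2 : C ^ m * (m * δ') + C ^ m * (m * δ') = δ / 2 * (m / (m + 1)) := by
          rw [hδ']; field_simp; ring
        rw [e2]
        have e3 : (m : ℝ) / (m + 1) ≤ 1 := by rw [div_le_one (by positivity)]; linarith
        have e4 : 0 ≤ δ / 2 := by positivity
        nlinarith
      calc ‖dif ρ S c m (fun j n => a j * (n + 1)) f N z‖
          ≤ ‖dif ρ S c m (fun j n => a j * (n + 1)) f N z - dif ρ S c m (fun j n => a j * (n + 1)) g N z‖ +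
            ‖dif ρ S c m (fun j n => a j * (n + 1)) g N z‖ := by
              have := norm_add_le (dif ρ S c m (fun j n => a j * (n + 1)) f N z - dif ρ S c m (fun j n => a j * (n + 1)) g N z)
                (dif ρ S c m (fun j n => a j * (n + 1)) g N z)
              rwa [sub_add_cancel] at this
        _ ≤ (C ^ m * (m * δ') + C ^ m * (m * δ')) + δ / 2 := by
            refine add_le_add (hdd.trans ?_) h3
            exact add_le_add (mul_le_mul_of_nonneg_left hs1 hCm.le) (mul_le_mul_of_nonneg_left hs2 hCm.le)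
        _ ≤ δ := by linarith
    refine (measure_mono_ae hsub).trans ?_
    refine (measure_biUnion_finset_le (range m) _).trans ?_
    have hUV : ∀ j ∈ range m, (μ.prod ρ) (U j ∪ V j) ≤ ENNReal.ofReal (2 * ε / δ') := by
      intro j hj
      rw [Finset.mem_range] at hj
      refine (measure_union_le _ _).trans ?_
      have h1 := avg_small (μ.prod ρ) hT (a j) (u j) (hum j) (C + C) (fun z => norm_nonneg _) (hub j) δ' hδ'0
      have h2 := avg_small (μ.prod ρ) hT (a j) (v j) (hvm j) (C + C) (fun z => norm_nonneg _) (hvb j) δ' hδ'0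
      refine (add_le_add h1 h2).trans ?_
      rw [← ENNReal.ofReal_add (by positivity) (by positivity)]
      apply ENNReal.ofReal_le_ofReal
      rw [← add_div]
      gcongr
      have := hfg j hj
      have := hvint j hj
      linarith
    refine (Finset.sum_le_sum hUV).trans ?_
    rw [Finset.sum_const, Finset.card_range, nsmul_eq_mul, ← ENNReal.ofReal_natCast, ← ENNReal.ofReal_mul (by positivity)]
    rw [show (η : ℝ≥0∞) = ENNReal.ofReal (η : ℝ) by rw [ENNReal.ofReal_coe_nnreal]]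
    apply ENNReal.ofReal_le_ofReal
    have e5 : (m : ℝ) * (2 * ε / δ') = η * (m / (m + 1)) := by
      rw [hε]; field_simp
    rw [e5]
    have e3 : (m : ℝ) / (m + 1) ≤ 1 := by rw [div_le_one (by positivity)]; linarith
    nlinarith
  have hall : ∀ᵐ z ∂(μ.prod ρ), ∀ k : ℕ, ∀ᶠ N : ℕ in atTop,
      ‖dif ρ S c m (fun j n => a j * (n + 1)) f N z‖ ≤ 1 / ((k : ℝ) + 1) := ae_all_iff.2 hbad
  filter_upwards [hall] with z hz
  rw [tendsto_zero_iff_norm_tendsto_zero, Metric.tendsto_atTop]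
  intro ε hε
  obtain ⟨k, hk⟩ := exists_nat_one_div_lt hε
  obtain ⟨N0, hN0⟩ := eventually_atTop.1 (hz k)
  refine ⟨N0, fun N hN => ?_⟩
  rw [Real.dist_eq, sub_zero, abs_of_nonneg (norm_nonneg _)]
  exact (hN0 N hN).trans_lt hk

end Pool.Agent.R205.PC
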