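import Pool.Agent.R205.PC.Rand

/-!
# Orthogonality of the terms of the multiple averages over a random cocycle
-/

set_option autoImplicit false

open MeasureTheory Filter Topology Set Finset
open scoped ENNReal ComplexConjugate

namespace Pool.Agent.R205.PC

/-- conditions on the times `p j n` -/
structure Times (m n0 d : ℕ) (p : ℕ → ℕ → ℕ) : Prop where
  inc : ∀ j < m, ∀ n' n, n0 ≤ n' → n' ≤ n → p j n' + n ≤ p j n + n'
  gap : ∀ i j, i < j → j < m → ∀ n, n0 ≤ n → p i n + n ≤ p j n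
  grow : ∀ j < m, ∀ n, p j n ≤ (n + 2) ^ d

/-- the range of the scale `k` -/
def Lk (k : ℕ) : ℕ := 4 ^ ((k + 1) ^ 2)

lemma Lk_mono : Monotone Lk := fun a b h => Nat.pow_le_pow_right (by norm_num) (Nat.pow_le_pow_left (by omega) 2)

/-- every window of length `2 ^ (k + 1)` contains a time whose label is unique in the range `Lk k` -/
def Fresh {Y : Type*} (S : Y → Y) (ξ : Y → ℕ) (y : Y) : Prop :=
  ∀ k a : ℕ, ∃ t, a ≤ t ∧ t ≤ a + 2 * 2 ^ k ∧
      ∀ s, s ≠ t → s ≤ t + Lk k → t ≤ s + Lk k → ξ (S^[s] y) ≠ ξ (S^[t] y)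

lemma avg_tail (z : ℕ → ℂ) (n0 : ℕ)
    (h : Tendsto (fun N : ℕ => (1 / (N : ℂ)) * ∑ n ∈ range N, (if n < n0 then 0 else z n)) atTop (𝓝 0)) :
    Tendsto (fun N : ℕ => (1 / (N : ℂ)) * ∑ n ∈ range N, z n) atTop (𝓝 0) := by
  have h2 : Tendsto (fun N : ℕ => (1 / (N : ℂ)) * ∑ n ∈ range n0, z n) atTop (𝓝 0) := by
    have := (tendsto_one_div_atTop_nhds_zero_nat (𝕜 := ℂ)).mul_const (∑ n ∈ range n0, z n)
    simpa using this
  have h3 := h.add h2
  rw [add_zero] at h3
  refine h3.congr' ?_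
  filter_upwards [eventually_ge_atTop n0] with N hN
  rw [← mul_add]
  congr 1
  rw [← Finset.sum_range_add_sum_Ico _ hN, ← Finset.sum_range_add_sum_Ico _ hN]
  have e1 : ∑ n ∈ range n0, (if n < n0 then 0 else z n) = 0 :=
    Finset.sum_eq_zero fun n hn => if_pos (Finset.mem_range.1 hn)
  have e2 : ∑ n ∈ Finset.Ico n0 N, (if n < n0 then 0 else z n) = ∑ n ∈ Finset.Ico n0 N, z n :=
    Finset.sum_congr rfl fun n hn => if_neg (by rw [Finset.mem_Ico] at hn; omega)
  rw [e1, e2]
  ring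

variable {Y K : Type*} [MeasurableSpace Y] [Group K] [MeasurableSpace K] [MeasurableMul₂ K]

theorem core (ρ : Measure K) [IsProbabilityMeasure ρ] [ρ.IsMulLeftInvariant] [ρ.IsMulRightInvariant]
    (S : Y → Y) (hS : Measurable S) (φ : Y → K) (hφ : Measurable φ) (ξ : Y → ℕ) (hξ : Measurable ξ)
    (m n0 d : ℕ) (p : ℕ → ℕ → ℕ) (hp : Times m n0 d p) (r : ℕ) (hr : r < m)
    (b : ℕ → ℂ) (f : ℕ → Y × K → ℂ) (g : Y × K → ℂ) (C : ℝ) (hb : ∀ n, ‖b n‖ ≤ C)
    (hf : ∀ j, Measurable (f j)) (hfb : ∀ j z, ‖f j z‖ ≤ C) (hg : Measurable g) (hgb : ∀ z, ‖g z‖ ≤ C)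
    (hg0 : ∀ y, ∫ κ, g (y, κ) ∂ρ = 0) (y : Y) (x : K) (hy : Fresh S ξ y) :
    ∀ᵐ θ ∂(Measure.infinitePi (fun _ : ℕ => ρ)), Tendsto (fun N : ℕ => (1 / (N : ℂ)) * ∑ n ∈ range N,
      b n * (∏ j ∈ range r, f j (S^[p j n] y, fb S (cc φ ξ θ) y x (p j n))) *
        g (S^[p r n] y, fb S (cc φ ξ θ) y x (p r n))) atTop (𝓝 0) := by
  have hC : 0 ≤ C := (norm_nonneg _).trans (hb 0)
  set Ψ0 : ℕ → (ℕ → K) → ℂ := fun n θ => b n *
    (∏ j ∈ range r, f j (S^[p j n] y, fb S (cc φ ξ θ) y x (p j n))) *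
        g (S^[p r n] y, fb S (cc φ ξ θ) y x (p r n)) with hΨ0
  have hfm : ∀ q, Measurable (fun θ : ℕ → K => fb S (cc φ ξ θ) y x q) := fun q => by
    have h1 : Measurable (fun θ : ℕ → K => (θ, (y, x))) := measurable_id.prodMk measurable_const
    exact (meas_fb S hS φ hφ ξ hξ q).comp h1
  have hΨ0m : ∀ n, Measurable (Ψ0 n) := by
    intro n
    refine (measurable_const.mul (Finset.measurable_fun_prod _ fun j _ => ?_)).mul ?_
    · exact (hf j).comp (measurable_const.prodMk (hfm _))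
    · exact hg.comp (measurable_const.prodMk (hfm _))
  set B : ℝ := C * C ^ r * C with hB
  have hΨ0b : ∀ n θ, ‖Ψ0 n θ‖ ≤ B := by
    intro n θ
    simp only [hΨ0]
    rw [norm_mul, norm_mul]
    refine mul_le_mul (mul_le_mul (hb n) ?_ (norm_nonneg _) hC) (hgb _) (norm_nonneg _) (by positivity)
    rw [norm_prod]
    calc ∏ j ∈ range r, ‖f j (S^[p j n] y, fb S (cc φ ξ θ) y x (p j n))‖ ≤ ∏ _j ∈ range r, C :=
          Finset.prod_le_prod (fun _ _ => norm_nonneg _) fun j _ => hfb j _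
      _ = C ^ r := by rw [Finset.prod_const, Finset.card_range]
  set Ψ : ℕ → (ℕ → K) → ℂ := fun n θ => if n < n0 then 0 else Ψ0 n θ with hΨ
  have hΨm : ∀ n, Measurable (Ψ n) := by
    intro n
    by_cases h : n < n0
    · simp only [hΨ, h, if_true]; exact measurable_const
    · simp only [hΨ, h, if_false]; exact hΨ0m n
  have hB0 : 0 ≤ B := by positivity
  have hΨb : ∀ n θ, ‖Ψ n θ‖ ≤ B := by
    intro n θ
    simp only [hΨ]
    split_ifs with h
    · rw [norm_zero]; exact hB0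
    · exact hΨ0b n θ
  set W : ℕ → ℕ := fun N => 2 * 2 ^ (Nat.log 4 N) with hW
  have key := ae_of_orth (Measure.infinitePi (fun _ : ℕ => ρ)) Ψ hΨm B hΨb W 5 ?_ ?_
  · filter_upwards [key] with θ hθ
    exact avg_tail _ n0 hθ
  · -- the size of `W`
    filter_upwards [eventually_ge_atTop 1] with N hN
    have h1 : 4 ^ Nat.log 4 N ≤ N := Nat.pow_log_le_self 4 (by omega)
    have h2 : ((2 : ℝ) ^ Nat.log 4 N) ≤ Real.sqrt N := by
      apply Real.le_sqrt_of_sq_le
      rw [← pow_mul, mul_comm, pow_mul]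
      norm_num
      exact_mod_cast h1
    have h3 : (1 : ℝ) ≤ Real.sqrt N := by
      rw [Real.one_le_sqrt]; exact_mod_cast hN
    simp only [hW]
    push_cast
    linarith
  · -- orthogonality
    filter_upwards [eventually_ge_atTop (4 ^ d)] with N hN
    intro n' n hn'n hnN
    by_cases hn0 : n' < n0
    · have : ∀ θ, Ψ n θ * conj (Ψ n' θ) = 0 := by
        intro θ
        simp only [hΨ, hn0, if_true, map_zero, mul_zero]
      simp only [this, integral_zero]
    push Not at hn0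
    set k := Nat.log 4 N with hk
    have hWN : W N = 2 * 2 ^ k := rfl
    rw [hWN] at hn'n
    have hdk : d ≤ k := by
      rw [hk]
      exact Nat.le_log_of_pow_le (by norm_num) hN
    have hNk : N < 4 ^ (k + 1) := Nat.lt_pow_succ_log_self (by norm_num) N
    have hgr : ∀ j < m, p j n ≤ Lk k := by
      intro j hj
      refine (hp.grow j hj n).trans ?_
      calc (n + 2) ^ d ≤ (4 ^ (k + 1)) ^ d := Nat.pow_le_pow_left (by omega) d
        _ = 4 ^ ((k + 1) * d) := by rw [pow_mul]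
        _ ≤ 4 ^ ((k + 1) ^ 2) := by
            apply Nat.pow_le_pow_right (by norm_num)
            rw [sq]
            exact Nat.mul_le_mul_left _ (by omega)
    have hnn' : n' ≤ n := by omega
    have hincr := hp.inc r hr n' n hn0 hnn'
    set a := max ((range r).sup fun j => p j n) (p r n') with ha
    have ha1 : a + 2 * 2 ^ k < p r n := by
      have h1 : (range r).sup (fun j => p j n) ≤ p r n - (2 * 2 ^ k + 1) := by
        refine Finset.sup_le fun j hj => ?_
        have := hp.gap j r (Finset.mem_range.1 hj) hr n (by omega)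
        omega
      have h2 : p r n' ≤ p r n - (2 * 2 ^ k + 1) := by omega
      have h3 : a ≤ p r n - (2 * 2 ^ k + 1) := max_le h1 h2
      omega
    have ha2 : ∀ j < r, p j n ≤ a := fun j hj =>
      le_max_of_le_left (Finset.le_sup (f := fun j => p j n) (Finset.mem_range.2 hj))
    have ha3 : ∀ j ≤ r, p j n' ≤ a := by
      intro j hj
      rcases hj.lt_or_eq with h | h
      · have := hp.inc j (by omega) n' n hn0 hnn'
        have := ha2 j h
        omega
      · rw [h]; exact le_max_right _ _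
    obtain ⟨t, ht1, ht2, ht3⟩ := hy k a
    have htp : t < p r n := by omega
    have hfresh : ∀ s < p r n, s ≠ t → ξ (S^[s] y) ≠ ξ (S^[t] y) := by
      intro s hs hst
      have := hgr r hr
      exact ht3 s hst (by omega) (by omega)
    have hnot : ∀ q ≤ a, ∀ (θ : ℕ → K) κ, fb S (cc φ ξ (Function.update θ (ξ (S^[t] y)) κ)) y x q =
        fb S (cc φ ξ θ) y x q := by
      intro q hq θ κ
      exact fb_not S φ ξ θ _ κ y x q fun s hs => hfresh s (by omega) (by omega)
    have hn0' : ¬ n < n0 := by omega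
    have hn0'' : ¬ n' < n0 := by omega
    refine integral_resample ρ (ξ (S^[t] y)) (Ψ n) (fun θ => conj (Ψ n' θ)) (hΨm n)
      (Complex.continuous_conj.measurable.comp (hΨm n')) B (hΨb n)
      (fun θ => by rw [Complex.norm_conj]; exact hΨb n' θ) ?_ ?_
    · intro θ κ
      congr 1
      simp only [hΨ, hn0'', if_false, hΨ0]
      rw [hnot _ (ha3 r le_rfl)]
      congr 2
      refine Finset.prod_congr rfl fun j hj => ?_
      rw [hnot _ (ha3 j (Finset.mem_range.1 hj).le)]
    · intro θ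
      simp only [hΨ, hn0', if_false, hΨ0]
      obtain ⟨A, hA⟩ := fb_once S φ ξ θ _ y x t rfl (p r n) htp hfresh
      have h1 : ∀ κ, (∏ j ∈ range r, f j (S^[p j n] y, fb S (cc φ ξ (Function.update θ (ξ (S^[t] y)) κ)) y x (p j n))) =
          ∏ j ∈ range r, f j (S^[p j n] y, fb S (cc φ ξ θ) y x (p j n)) := by
        intro κ
        refine Finset.prod_congr rfl fun j hj => ?_
        rw [hnot _ (ha2 j (Finset.mem_range.1 hj))]
      simp only [h1, hA]
      rw [integral_const_mul]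
      have h2 : ∫ κ, g (S^[p r n] y, A * (κ * fb S (cc φ ξ θ) y x t)) ∂ρ = 0 := by
        have e1 := integral_mul_right_eq_self (μ := ρ) (fun κ => g (S^[p r n] y, A * κ)) (fb S (cc φ ξ θ) y x t)
        have e2 := integral_mul_left_eq_self (μ := ρ) (fun κ => g (S^[p r n] y, κ)) A
        rw [e1, e2]
        exact hg0 _
      rw [h2, mul_zero]

end Pool.Agent.R205.PC
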