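import Pool.Agent.R205.PC.Clos

/-!
# All bounded functions at once
-/

set_option autoImplicit false

open MeasureTheory Filter Topology Set Finset
open scoped ENNReal ComplexConjugate

namespace Pool.Agent.R205.PC

open MeasurableSpace

section Family

variable {X : Type*} [MeasurableSpace X] [CountablyGenerated X] (ν : Measure X) [IsProbabilityMeasure ν]

instance sepL1 : TopologicalSpace.SeparableSpace (Lp ℂ 1 ν) := by
  have : Fact ((1 : ℝ≥0∞) ≠ ∞) := ⟨ENNReal.one_ne_top⟩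
  have : SecondCountableTopology (Lp ℂ 1 ν) := Lp.SecondCountableTopology
  infer_instance

/-- a dense sequence of `L¹`, truncated at the height `M` -/
noncomputable def dd (i M : ℕ) (z : X) : ℂ :=
  if ‖(TopologicalSpace.denseSeq (Lp ℂ 1 ν) i : X → ℂ) z‖ ≤ M then (TopologicalSpace.denseSeq (Lp ℂ 1 ν) i : X → ℂ) z else 0

lemma dd_meas (i M : ℕ) : Measurable (dd ν i M) := by
  unfold dd
  have h : Measurable (TopologicalSpace.denseSeq (Lp ℂ 1 ν) i : X → ℂ) := (Lp.stronglyMeasurable _).measurable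
  exact Measurable.ite (measurableSet_le h.norm measurable_const) h measurable_const

lemma dd_bound (i M : ℕ) (z : X) : ‖dd ν i M z‖ ≤ M := by
  unfold dd
  split_ifs with h
  · exact h
  · simp

lemma dd_approx (f : X → ℂ) (hf : Measurable f) (C : ℝ) (hC : 0 ≤ C) (hfC : ∀ z, ‖f z‖ ≤ C) (M : ℕ) (hM : C + 1 ≤ M)
    (ε : ℝ) (hε : 0 < ε) : ∃ i, ∫ z, ‖f z - dd ν i M z‖ ∂ν ≤ ε := by
  have hmem : MemLp f 1 ν := MemLp.of_bound hf.aestronglyMeasurable C (Eventually.of_forall hfC)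
  set F : Lp ℂ 1 ν := hmem.toLp f with hF
  obtain ⟨i, hi⟩ := (TopologicalSpace.denseRange_denseSeq (Lp ℂ 1 ν)).exists_dist_lt F (show 0 < ε / (C + 1) by positivity)
  refine ⟨i, ?_⟩
  set G : Lp ℂ 1 ν := TopologicalSpace.denseSeq (Lp ℂ 1 ν) i with hG
  rw [L1.dist_eq_integral_dist] at hi
  have hFf : (F : X → ℂ) =ᵐ[ν] f := hmem.coeFn_toLp
  have hi2 : ∫ z, dist (F z) (G z) ∂ν = ∫ z, ‖f z - G z‖ ∂ν := by
    refine integral_congr_ae ?_
    filter_upwards [hFf] with z hz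
    rw [hz, dist_eq_norm]
  rw [hi2] at hi
  have hGi : Integrable (G : X → ℂ) ν := L1.integrable_coeFn G
  have hfi : Integrable f ν := hmem.integrable le_rfl
  have hpt : ∀ z, ‖f z - dd ν i M z‖ ≤ (C + 1) * ‖f z - G z‖ := by
    intro z
    unfold dd
    split_ifs with h
    · have := norm_nonneg (f z - G z)
      nlinarith
    · push Not at h
      rw [sub_zero]
      have h1 : 1 ≤ ‖f z - G z‖ := by
        have h2 := norm_sub_norm_le (G z) (f z)
        rw [norm_sub_rev] at h2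
        have h3 := hfC z
        change (M : ℝ) < ‖(G : X → ℂ) z‖ at h
        linarith
      have := hfC z
      nlinarith
  calc ∫ z, ‖f z - dd ν i M z‖ ∂ν ≤ ∫ z, (C + 1) * ‖f z - G z‖ ∂ν := by
        refine integral_mono_of_nonneg (Eventually.of_forall fun z => norm_nonneg _) ?_ (Eventually.of_forall hpt)
        exact ((hfi.sub hGi).norm).const_mul _
    _ = (C + 1) * ∫ z, ‖f z - G z‖ ∂ν := integral_const_mul _ _
    _ ≤ (C + 1) * (ε / (C + 1)) := by gcongr
    _ = ε := by field_simp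

end Family

/-- extension of the exponents to all indices -/
def ex {m : ℕ} (a : Fin m → ℕ) (j : ℕ) : ℕ := if h : j < m then a ⟨j, h⟩ else 1

/-- extension of the functions to all indices -/
def fx {X : Type*} {m : ℕ} (f : Fin m → X → ℂ) (j : ℕ) : X → ℂ := if h : j < m then f ⟨j, h⟩ else fun _ => 0

lemma times_lin {m : ℕ} (a : Fin m → ℕ) (ha : StrictMono a) (ha0 : ∀ j, 0 < a j) :
    ∃ d, Times m 0 d (fun j n => ex a j * (n + 1)) := by
  have hex : ∀ j (h : j < m), ex a j = a ⟨j, h⟩ := fun j h => by rw [ex, dif_pos h]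
  obtain ⟨D, hD⟩ : ∃ D : ℕ, ∀ j, ex a j ≤ D := by
    refine ⟨(Finset.univ.sup a) + 1, fun j => ?_⟩
    by_cases h : j < m
    · rw [hex j h]
      have := Finset.le_sup (f := a) (Finset.mem_univ (⟨j, h⟩ : Fin m))
      omega
    · rw [ex, dif_neg h]; omega
  refine ⟨D + 1, ⟨?_, ?_, ?_⟩⟩
  · intro j hj n' n _ h
    have h1 : 1 ≤ ex a j := by rw [hex j hj]; exact ha0 _
    obtain ⟨e, rfl⟩ := Nat.exists_eq_add_of_le h
    nlinarith
  · intro i j hij hj n _
    have h1 : ex a i + 1 ≤ ex a j := by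
      rw [hex i (by omega), hex j hj]
      exact ha (by exact hij)
    nlinarith
  · intro j _ n
    have h1 : ex a j ≤ 2 ^ D := (hD j).trans Nat.lt_two_pow_self.le
    calc ex a j * (n + 1) ≤ 2 ^ D * (n + 2) := Nat.mul_le_mul h1 (by omega)
      _ ≤ (n + 2) ^ D * (n + 2) := Nat.mul_le_mul_right _ (Nat.pow_le_pow_left (by omega) D)
      _ = (n + 2) ^ (D + 1) := by rw [pow_succ]

variable {Y K : Type*} [MeasurableSpace Y] [CountablyGenerated Y] [Group K] [MeasurableSpace K] [MeasurableMul₂ K]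
  [CountablyGenerated K]

/-- For almost every `θ` the fibre means are characteristic, for all bounded functions simultaneously. -/
theorem all_functions (ρ : Measure K) [IsProbabilityMeasure ρ] [ρ.IsMulLeftInvariant] [ρ.IsMulRightInvariant]
    (μ : Measure Y) [IsProbabilityMeasure μ]
    (S : Y → Y) (hS : MeasurePreserving S μ μ) (φ : Y → K) (hφ : Measurable φ) (ξ : Y → ℕ) (hξ : Measurable ξ)
    (hfr : ∀ᵐ y ∂μ, Fresh S ξ y) :
    ∀ᵐ θ ∂(Measure.infinitePi (fun _ : ℕ => ρ)), ∀ (m : ℕ) (a : Fin m → ℕ), StrictMono a → (∀ j, 0 < a j) →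
      ∀ f : Fin m → Y × K → ℂ, (∀ j, Measurable (f j)) → (∃ C, ∀ j z, ‖f j z‖ ≤ C) →
      ∀ᵐ z ∂(μ.prod ρ), Tendsto (fun N : ℕ => dif ρ S (cc φ ξ θ) m (fun j n => ex a j * (n + 1)) (fx f) N z)
        atTop (𝓝 0) := by
  have key : ∀ᵐ θ ∂(Measure.infinitePi (fun _ : ℕ => ρ)), ∀ (m : ℕ) (a : Fin m → ℕ) (i : Fin m → ℕ) (M : ℕ),
      StrictMono a → (∀ j, 0 < a j) →
      ∀ᵐ z ∂(μ.prod ρ), Tendsto (fun N : ℕ => dif ρ S (cc φ ξ θ) m (fun j n => ex a j * (n + 1))
        (fun j => dd (μ.prod ρ) (ex i j) M) N z) atTop (𝓝 0) := by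
    rw [ae_all_iff]; intro m
    rw [ae_all_iff]; intro a
    rw [ae_all_iff]; intro i
    rw [ae_all_iff]; intro M
    by_cases h : StrictMono a ∧ ∀ j, 0 < a j
    · obtain ⟨d, hd⟩ := times_lin a h.1 h.2
      filter_upwards [ae_theta ρ μ S hS.measurable φ hφ ξ hξ hfr m 0 d _ hd (fun j => dd (μ.prod ρ) (ex i j) M)
        (fun j => dd_meas _ _ _) ⟨M, fun j z => dd_bound _ _ _ _⟩] with θ hθ _ _
      exact hθ
    · filter_upwards with θ h1 h2
      exact absurd ⟨h1, h2⟩ h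
  filter_upwards [key] with θ hθ m a ha ha0 f hf hfb
  obtain ⟨C0, hC0⟩ := hfb
  have hc : Measurable (cc φ ξ θ) := by
    unfold cc
    exact hφ.mul ((measurable_of_countable θ).comp hξ)
  set M : ℕ := ⌈max C0 0⌉₊ + 1 with hM
  have hCM : max C0 0 + 1 ≤ (M : ℝ) := by
    rw [hM]; push_cast
    have := Nat.le_ceil (max C0 0)
    linarith
  have hM1 : (1 : ℝ) ≤ M := by
    have : (0 : ℝ) ≤ max C0 0 := le_max_right _ _
    linarith
  have hfxm : ∀ j, Measurable (fx f j) := by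
    intro j
    unfold fx
    split_ifs with h
    · exact hf _
    · exact measurable_const
  have hfxb : ∀ j z, ‖fx f j z‖ ≤ max C0 0 := by
    intro j z
    unfold fx
    split_ifs with h
    · exact (hC0 _ z).trans (le_max_left _ _)
    · rw [norm_zero]; exact le_max_right _ _
  refine clos ρ μ S hS (cc φ ξ θ) hc m (ex a) (fx f) M hM1 hfxm
    (fun j z => (hfxb j z).trans (by linarith)) ?_
  intro ε hε
  have happ : ∀ j : Fin m, ∃ i, ∫ z, ‖fx f j z - dd (μ.prod ρ) i M z‖ ∂(μ.prod ρ) ≤ ε := fun j =>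
    dd_approx (μ.prod ρ) (fx f j) (hfxm j) (max C0 0) (le_max_right _ _) (hfxb j) M hCM ε hε
  choose i hi using happ
  refine ⟨fun j => dd (μ.prod ρ) (ex i j) M, fun j => dd_meas _ _ _, fun j z => dd_bound _ _ _ _, ?_, hθ m a i M ha ha0⟩
  intro j hj
  have e1 : ex i j = i ⟨j, hj⟩ := by rw [ex, dif_pos hj]
  change ∫ z, ‖fx f j z - dd (μ.prod ρ) (ex i j) M z‖ ∂(μ.prod ρ) ≤ ε
  rw [e1]
  exact hi ⟨j, hj⟩

end Pool.Agent.R205.PC
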