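import Pool.Agent.R205.PC.Core

/-!
# The base is characteristic for almost every random cocycle (fixed functions)
-/

set_option autoImplicit false

open MeasureTheory Filter Topology Set Finset
open scoped ENNReal ComplexConjugate

namespace Pool.Agent.R205.PC

lemma prod_tele (m : ℕ) (F E : ℕ → ℂ) :
    ∏ j ∈ range m, F j - ∏ j ∈ range m, E j =
      ∑ r ∈ range m, (∏ j ∈ range r, F j) * (F r - E r) * ∏ j ∈ Finset.Ico (r + 1) m, E j := by
  induction m with
  | zero => simp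
  | succ m ih =>
    rw [Finset.sum_range_succ, Finset.Ico_self, Finset.prod_empty, mul_one]
    have h1 : ∀ r ∈ range m, (∏ j ∈ range r, F j) * (F r - E r) * ∏ j ∈ Finset.Ico (r + 1) (m + 1), E j =
        ((∏ j ∈ range r, F j) * (F r - E r) * ∏ j ∈ Finset.Ico (r + 1) m, E j) * E m := by
      intro r hr
      rw [Finset.mem_range] at hr
      rw [Finset.prod_Ico_succ_top (by omega)]
      ring
    rw [Finset.sum_congr rfl h1, ← Finset.sum_mul, ← ih, Finset.prod_range_succ, Finset.prod_range_succ]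
    ring

variable {Y K : Type*} [MeasurableSpace Y] [Group K] [MeasurableSpace K] [MeasurableMul₂ K]

/-- the fibre mean -/
noncomputable def fm (ρ : Measure K) (f : Y × K → ℂ) (y : Y) : ℂ := ∫ κ, f (y, κ) ∂ρ

omit [Group K] [MeasurableMul₂ K] in
lemma fm_meas (ρ : Measure K) [SFinite ρ] (f : Y × K → ℂ) (hf : Measurable f) : Measurable (fm ρ f) := by
  unfold fm
  exact (hf.stronglyMeasurable.integral_prod_right').measurable

omit [MeasurableSpace Y] [Group K] [MeasurableMul₂ K] in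
lemma fm_bound (ρ : Measure K) [IsProbabilityMeasure ρ] (f : Y × K → ℂ) (C : ℝ) (hf : ∀ z, ‖f z‖ ≤ C) (y : Y) :
    ‖fm ρ f y‖ ≤ C := by
  unfold fm
  have := norm_integral_le_of_norm_le_const (μ := ρ) (f := fun κ => f (y, κ)) (C := C)
    (Filter.Eventually.of_forall fun κ => hf (y, κ))
  simpa using this

/-- difference of the averages on the skew product and on the base -/
noncomputable def dif (ρ : Measure K) (S : Y → Y) (c : Y → K) (m : ℕ) (p : ℕ → ℕ → ℕ) (f : ℕ → Y × K → ℂ)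
    (N : ℕ) (z : Y × K) : ℂ :=
  (1 / (N : ℂ)) * ∑ n ∈ range N, (∏ j ∈ range m, f j ((sk S c)^[p j n] z) -
    ∏ j ∈ range m, fm ρ (f j) (S^[p j n] z.1))

theorem pointwise (ρ : Measure K) [IsProbabilityMeasure ρ] [ρ.IsMulLeftInvariant] [ρ.IsMulRightInvariant]
    (S : Y → Y) (hS : Measurable S) (φ : Y → K) (hφ : Measurable φ) (ξ : Y → ℕ) (hξ : Measurable ξ)
    (m n0 d : ℕ) (p : ℕ → ℕ → ℕ) (hp : Times m n0 d p) (f : ℕ → Y × K → ℂ)
    (hf : ∀ j, Measurable (f j)) (hfb : ∃ C, ∀ j z, ‖f j z‖ ≤ C) (y : Y) (x : K) (hy : Fresh S ξ y) :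
    ∀ᵐ θ ∂(Measure.infinitePi (fun _ : ℕ => ρ)),
      Tendsto (fun N : ℕ => dif ρ S (cc φ ξ θ) m p f N (y, x)) atTop (𝓝 0) := by
  obtain ⟨C0, hC0⟩ := hfb
  set C := max C0 1 with hC
  have hC1 : 1 ≤ C := le_max_right _ _
  have hCf : ∀ j z, ‖f j z‖ ≤ C := fun j z => (hC0 j z).trans (le_max_left _ _)
  have hint : ∀ j y, Integrable (fun κ => f j (y, κ)) ρ := fun j y =>
    Integrable.of_bound ((hf j).comp (measurable_const.prodMk measurable_id)).aestronglyMeasurable C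
      (Filter.Eventually.of_forall fun κ => hCf j _)
  set C' := 2 * C ^ (m + 1) with hC'
  have hCm : ∀ q ≤ m + 1, C ^ q ≤ C' := by
    intro q hq
    have : C ^ q ≤ C ^ (m + 1) := pow_le_pow_right₀ hC1 hq
    have : 0 ≤ C ^ (m + 1) := by positivity
    linarith
  have key : ∀ r < m, ∀ᵐ θ ∂(Measure.infinitePi (fun _ : ℕ => ρ)), Tendsto (fun N : ℕ => (1 / (N : ℂ)) *
      ∑ n ∈ range N, (∏ j ∈ Finset.Ico (r + 1) m, fm ρ (f j) (S^[p j n] y)) *
        (∏ j ∈ range r, f j (S^[p j n] y, fb S (cc φ ξ θ) y x (p j n))) *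
        (f r (S^[p r n] y, fb S (cc φ ξ θ) y x (p r n)) - fm ρ (f r) (S^[p r n] y))) atTop (𝓝 0) := by
    intro r hr
    refine core ρ S hS φ hφ ξ hξ m n0 d p hp r hr
      (fun n => ∏ j ∈ Finset.Ico (r + 1) m, fm ρ (f j) (S^[p j n] y)) f
      (fun z => f r z - fm ρ (f r) z.1) C' ?_ hf ?_ ?_ ?_ ?_ y x hy
    · intro n
      rw [norm_prod]
      calc ∏ j ∈ Finset.Ico (r + 1) m, ‖fm ρ (f j) (S^[p j n] y)‖ ≤ ∏ _j ∈ Finset.Ico (r + 1) m, C :=
            Finset.prod_le_prod (fun _ _ => norm_nonneg _) fun j _ => fm_bound ρ (f j) C (hCf j) _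
        _ = C ^ (m - (r + 1)) := by rw [Finset.prod_const, Nat.card_Ico]
        _ ≤ C' := hCm _ (by omega)
    · intro j z
      refine (hCf j z).trans ?_
      have := hCm 1 (by omega)
      rwa [pow_one] at this
    · exact (hf r).sub ((fm_meas ρ (f r) (hf r)).comp measurable_fst)
    · intro z
      have h1 : C ≤ C ^ (m + 1) := by
        calc C = C ^ 1 := (pow_one C).symm
          _ ≤ C ^ (m + 1) := pow_le_pow_right₀ hC1 (by omega)
      calc ‖f r z - fm ρ (f r) z.1‖ ≤ ‖f r z‖ + ‖fm ρ (f r) z.1‖ := norm_sub_le _ _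
        _ ≤ C + C := add_le_add (hCf r z) (fm_bound ρ (f r) C (hCf r) _)
        _ ≤ C' := by rw [hC']; linarith
    · intro y'
      change ∫ κ, f r (y', κ) - fm ρ (f r) y' ∂ρ = 0
      rw [integral_sub (hint r y') (integrable_const _), integral_const]
      simp [fm]
  have hall : ∀ᵐ θ ∂(Measure.infinitePi (fun _ : ℕ => ρ)), ∀ r < m, Tendsto (fun N : ℕ => (1 / (N : ℂ)) *
      ∑ n ∈ range N, (∏ j ∈ Finset.Ico (r + 1) m, fm ρ (f j) (S^[p j n] y)) *
        (∏ j ∈ range r, f j (S^[p j n] y, fb S (cc φ ξ θ) y x (p j n))) *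
        (f r (S^[p r n] y, fb S (cc φ ξ θ) y x (p r n)) - fm ρ (f r) (S^[p r n] y))) atTop (𝓝 0) := by
    rw [ae_all_iff]
    intro r
    by_cases hr : r < m
    · filter_upwards [key r hr] with θ hθ _
      exact hθ
    · filter_upwards with θ h
      exact absurd h hr
  filter_upwards [hall] with θ hθ
  have hsum : Tendsto (fun N : ℕ => ∑ r ∈ range m, (1 / (N : ℂ)) *
      ∑ n ∈ range N, (∏ j ∈ Finset.Ico (r + 1) m, fm ρ (f j) (S^[p j n] y)) *
        (∏ j ∈ range r, f j (S^[p j n] y, fb S (cc φ ξ θ) y x (p j n))) *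
        (f r (S^[p r n] y, fb S (cc φ ξ θ) y x (p r n)) - fm ρ (f r) (S^[p r n] y))) atTop (𝓝 0) := by
    have := tendsto_finsetSum (range m) fun r hr => hθ r (Finset.mem_range.1 hr)
    simpa using this
  refine hsum.congr fun N => ?_
  unfold dif
  rw [← Finset.mul_sum, Finset.sum_comm]
  congr 1
  refine Finset.sum_congr rfl fun n _ => ?_
  simp only [sk_iter]
  rw [prod_tele]
  refine Finset.sum_congr rfl fun r _ => ?_
  ring

lemma meas_dif (ρ : Measure K) [IsProbabilityMeasure ρ] (S : Y → Y) (hS : Measurable S) (φ : Y → K)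
    (hφ : Measurable φ) (ξ : Y → ℕ) (hξ : Measurable ξ)
    (m : ℕ) (p : ℕ → ℕ → ℕ) (f : ℕ → Y × K → ℂ) (hf : ∀ j, Measurable (f j)) (N : ℕ) :
    Measurable (fun w : (ℕ → K) × (Y × K) => dif ρ S (cc φ ξ w.1) m p f N w.2) := by
  unfold dif
  refine measurable_const.mul (Finset.measurable_fun_sum _ fun n _ => ?_)
  refine Measurable.sub (Finset.measurable_fun_prod _ fun j _ => ?_) (Finset.measurable_fun_prod _ fun j _ => ?_)
  · exact (hf j).comp (meas_it S hS φ hφ ξ hξ (p j n))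
  · exact (fm_meas ρ (f j) (hf j)).comp ((hS.iterate (p j n)).comp (measurable_fst.comp measurable_snd))

/-- Fixed functions: for almost every `θ` the fibre means are characteristic. -/
theorem ae_theta (ρ : Measure K) [IsProbabilityMeasure ρ] [ρ.IsMulLeftInvariant] [ρ.IsMulRightInvariant]
    (μ : Measure Y) [IsProbabilityMeasure μ]
    (S : Y → Y) (hS : Measurable S) (φ : Y → K) (hφ : Measurable φ) (ξ : Y → ℕ) (hξ : Measurable ξ)
    (hfr : ∀ᵐ y ∂μ, Fresh S ξ y)
    (m n0 d : ℕ) (p : ℕ → ℕ → ℕ) (hp : Times m n0 d p) (f : ℕ → Y × K → ℂ)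
    (hf : ∀ j, Measurable (f j)) (hfb : ∃ C, ∀ j z, ‖f j z‖ ≤ C) :
    ∀ᵐ θ ∂(Measure.infinitePi (fun _ : ℕ => ρ)), ∀ᵐ z ∂(μ.prod ρ),
      Tendsto (fun N : ℕ => dif ρ S (cc φ ξ θ) m p f N z) atTop (𝓝 0) := by
  have hset : MeasurableSet {w : (ℕ → K) × (Y × K) |
      Tendsto (fun N : ℕ => dif ρ S (cc φ ξ w.1) m p f N w.2) atTop (𝓝 0)} :=
    measurableSet_tendsto (𝓝 0) fun N => meas_dif ρ S hS φ hφ ξ hξ m p f hf N
  rw [Measure.ae_ae_comm hset]
  have h1 : ∀ᵐ z ∂(μ.prod ρ), Fresh S ξ z.1 := Measure.quasiMeasurePreserving_fst.ae hfr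
  filter_upwards [h1] with z hz
  exact pointwise ρ S hS φ hφ ξ hξ m n0 d p hp f hf hfb z.1 z.2 hz

/-- the skew product preserves the product measure -/
lemma mp_sk (ρ : Measure K) [IsProbabilityMeasure ρ] [ρ.IsMulLeftInvariant]
    (μ : Measure Y) [IsProbabilityMeasure μ] (S : Y → Y) (hS : MeasurePreserving S μ μ) (c : Y → K)
    (hc : Measurable c) : MeasurePreserving (sk S c) (μ.prod ρ) (μ.prod ρ) := by
  have := MeasurePreserving.skew_product (μc := ρ) (μd := ρ) hS (g := fun y x => c y * x)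
    (by exact (hc.comp measurable_fst).mul measurable_snd) (by
      filter_upwards with y
      exact (measurePreserving_mul_left ρ (c y)).map_eq)
  exact this

end Pool.Agent.R205.PC
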