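import Pool.Agent.R205.PC.Mark

set_option autoImplicit false

open MeasureTheory Filter Topology Set
open scoped ENNReal

namespace Pool.Agent.R205.PC

variable {Y : Type*} [MeasurableSpace Y]

omit [MeasurableSpace Y] in
lemma ex_rat_sep {v : Y → ℝ} {e : ℕ → ℚ × ℚ} (he : Function.Surjective e)
    (F : Finset ℝ) (y : Y) (hy : v y ∉ F) :
    ∃ i, ((e i).1 : ℝ) < v y ∧ v y < (e i).2 ∧ ∀ x ∈ F, ¬ (((e i).1 : ℝ) < x ∧ x < (e i).2) := by
  have hopen : IsOpen ((F : Set ℝ)ᶜ) := F.finite_toSet.isClosed.isOpen_compl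
  obtain ⟨δ, hδ, hb⟩ := Metric.isOpen_iff.1 hopen (v y) (by simpa using hy)
  obtain ⟨p, hp1, hp2⟩ := exists_rat_btwn (show v y - δ < v y by linarith)
  obtain ⟨r, hr1, hr2⟩ := exists_rat_btwn (show v y < v y + δ by linarith)
  obtain ⟨i, hi⟩ := he (p, r)
  refine ⟨i, by rw [hi]; exact hp2, by rw [hi]; exact hr1, fun x hx h => ?_⟩
  rw [hi] at h
  simp only at h
  have : x ∈ Metric.ball (v y) δ := by
    rw [Metric.mem_ball, Real.dist_eq, abs_lt]
    constructor <;> linarith [h.1, h.2]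
  exact hb this (by simpa using hx)

/-- Labels with fresh values at every scale. -/
theorem exists_labels [StandardBorelSpace Y] (μ : Measure Y) [IsProbabilityMeasure μ] (S : Y ≃ᵐ Y)
    (hS : MeasurePreserving S μ μ) (hap : ∀ᵐ y ∂μ, ∀ n : ℕ, 0 < n → S^[n] y ≠ y)
    (L : ℕ → ℕ) (hL : Monotone L) :
    ∃ ξ : Y → ℕ, Measurable ξ ∧ ∀ᵐ y ∂μ, ∀ k a : ℕ, ∃ t, a ≤ t ∧ t ≤ a + 2 * 2 ^ k ∧
      ∀ s, s ≠ t → s ≤ t + L k → t ≤ s + L k → ξ (S^[s] y) ≠ ξ (S^[t] y) := by
  classical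
  set v : Y → ℝ := embeddingReal Y with hv
  have hvm : Measurable v := (measurableEmbedding_embeddingReal Y).measurable
  have hvi : Function.Injective v := (measurableEmbedding_embeddingReal Y).injective
  obtain ⟨e, he⟩ := exists_surjective_nat (ℚ × ℚ)
  set D : ℕ → Set Y := fun i => {z | ((e i).1 : ℝ) < v z ∧ v z < (e i).2} with hD
  have hDm : ∀ i, MeasurableSet (D i) := fun i =>
    (measurableSet_lt measurable_const hvm).inter (measurableSet_lt hvm measurable_const)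
  have hexG : ∀ y : Y, (∀ n : ℕ, 0 < n → S^[n] y ≠ y) → ∀ L, ∃ i, Gd S D L y i := by
    intro y hy L
    have hnot : v y ∉ (Finset.Icc 1 L).image (fun j => v (S^[j] y)) := by
      intro h
      obtain ⟨j, hj, hj'⟩ := Finset.mem_image.1 h
      exact hy j (by rw [Finset.mem_Icc] at hj; omega) (hvi hj')
    obtain ⟨i, h1, h2, h3⟩ := ex_rat_sep he _ y hnot
    refine ⟨i, ⟨h1, h2⟩, fun j hj hmem => ?_⟩
    exact h3 _ (Finset.mem_image_of_mem _ hj) hmem
  -- aperiodicity along the whole orbit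
  have hap' : ∀ᵐ y ∂μ, ∀ t n : ℕ, 0 < n → S^[n] (S^[t] y) ≠ S^[t] y := by
    rw [ae_all_iff]
    intro t
    exact (hS.iterate t).quasiMeasurePreserving.ae hap
  set q : ℕ → Y → ℕ := fun l => Qc S D l with hq
  have hqm : ∀ l, Measurable (q l) := fun l => meas_Qc S D hDm l
  have hsep : ∀ᵐ y ∂μ, ∀ l t j : ℕ, 1 ≤ j → j ≤ l → q l (S^[t] y) ≠ q l (S^[j] (S^[t] y)) := by
    filter_upwards [hap'] with y hy l t j h1 h2
    refine Qc_sep S D (hexG _ (hy t) l) (hexG _ ?_ l) h1 h2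
    intro n hn
    have := hy (j + t) n hn
    rw [Function.iterate_add_apply S j t] at this
    exact this
  set M : ℕ → Set Y := fun k => Mk S (q (2 ^ k)) (2 ^ k) with hM
  have hMm : ∀ k, MeasurableSet (M k) := fun k => meas_Mk S _ _ (hqm _)
  have hMle : ∀ k, μ (M k) ≤ (1 / 2 : ℝ≥0∞) ^ k := by
    intro k
    have h1 := Mk_meas S (q (2 ^ k)) (2 ^ k) μ hS (hqm _) (by
      filter_upwards [hsep] with y hy t j h1 h2
      exact hy _ t j h1 h2)
    have h2 : μ (M k) * 2 ^ k ≤ 1 := by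
      refine le_trans ?_ h1
      gcongr
      push_cast
      exact le_self_add
    have h3 : μ (M k) ≤ 1 / 2 ^ k := ENNReal.le_div_iff_mul_le (Or.inl (by simp)) (Or.inl (by finiteness)) |>.2 h2
    rw [one_div, ← ENNReal.inv_pow]
    rw [one_div] at h3
    exact h3
  have hsum : ∑' k, μ (M k) ≠ ∞ := by
    refine ne_top_of_le_ne_top ?_ (ENNReal.tsum_le_tsum hMle)
    rw [ENNReal.tsum_geometric, one_div, ENNReal.one_sub_inv_two, inv_inv]
    exact ENNReal.ofNat_ne_top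
  have hfin : ∀ᵐ y ∂μ, ∃ K, ∀ k, K ≤ k → y ∉ M k := by
    filter_upwards [ae_eventually_notMem hsum] with y hy
    exact eventually_atTop.1 hy
  -- the level
  have hex : ∀ y : Y, ∃ K, (∀ k, K ≤ k → y ∉ M k) ∨ ¬ ∃ K', ∀ k, K' ≤ k → y ∉ M k := by
    intro y
    by_cases h : ∃ K, ∀ k, K ≤ k → y ∉ M k
    · obtain ⟨K, hK⟩ := h
      exact ⟨K, Or.inl hK⟩
    · exact ⟨0, Or.inr h⟩
  set lev : Y → ℕ := fun y => Nat.find (hex y) with hlev
  have hset : ∀ K, MeasurableSet {y | ∀ k, K ≤ k → y ∉ M k} := by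
    intro K
    have : {y | ∀ k, K ≤ k → y ∉ M k} = ⋂ k, ⋂ (_ : K ≤ k), (M k)ᶜ := by
      ext y; simp
    rw [this]
    exact MeasurableSet.iInter fun k => MeasurableSet.iInter fun _ => (hMm k).compl
  have hlevm : Measurable lev := by
    refine measurable_find hex fun K => ?_
    have : {y | (∀ k, K ≤ k → y ∉ M k) ∨ ¬ ∃ K', ∀ k, K' ≤ k → y ∉ M k} =
        {y | ∀ k, K ≤ k → y ∉ M k} ∪ (⋃ K', {y | ∀ k, K' ≤ k → y ∉ M k})ᶜ := by
      ext y; simp
    rw [this]
    exact (hset K).union (MeasurableSet.iUnion hset).compl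
  have hlev_lt : ∀ y k, (∃ K, ∀ k, K ≤ k → y ∉ M k) → y ∈ M k → k < lev y := by
    intro y k h hk
    have h1 := Nat.find_spec (hex y)
    rcases h1 with h1 | h1
    · by_contra hcon
      exact h1 k (not_lt.1 hcon) hk
    · exact absurd h h1
  refine ⟨fun y => Nat.pair (lev y) (q (L (lev y)) y), ?_, ?_⟩
  · have h1 : Measurable (fun p : ℕ × Y => q (L p.1) p.2) :=
      measurable_from_prod_countable_right fun k => hqm (L k)
    have h2 : Measurable (fun y => q (L (lev y)) y) := h1.comp (hlevm.prodMk measurable_id)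
    have h3 : Measurable (fun p : ℕ × ℕ => Nat.pair p.1 p.2) := Measurable.of_discrete
    exact h3.comp (hlevm.prodMk h2)
  · have hfin' : ∀ᵐ y ∂μ, ∀ t, ∃ K, ∀ k, K ≤ k → S^[t] y ∉ M k := by
      rw [ae_all_iff]
      intro t
      exact (hS.iterate t).quasiMeasurePreserving.ae hfin
    filter_upwards [hsep, hfin'] with y hy hf k a
    obtain ⟨t, ht1, ht2, ht3⟩ := Mk_window S (q (2 ^ k)) (2 ^ k) y a
    refine ⟨t, ht1, ht2, fun s hst hs1 hs2 heq => ?_⟩
    have hlt : k < lev (S^[t] y) := hlev_lt _ k (hf t) ht3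
    rw [Nat.pair_eq_pair] at heq
    obtain ⟨he1, he2⟩ := heq
    rw [he1] at he2
    have hLk : L k ≤ L (lev (S^[t] y)) := hL hlt.le
    rcases lt_or_gt_of_ne hst with h | h
    · have := hy (L (lev (S^[t] y))) s (t - s) (by omega) (by omega)
      rw [← Function.iterate_add_apply, show t - s + s = t by omega] at this
      exact this he2
    · have := hy (L (lev (S^[t] y))) t (s - t) (by omega) (by omega)
      rw [← Function.iterate_add_apply, show s - t + t = s by omega] at this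
      exact this he2.symm

end Pool.Agent.R205.PC
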