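import Mathlib

/-!
# Labels with fresh values at every scale along the orbits of an aperiodic transformation
-/

set_option autoImplicit false

open MeasureTheory Filter Topology Set
open scoped ENNReal

namespace Pool.Agent.R205.PC

variable {Y : Type*} [MeasurableSpace Y]

section Sep

variable (S : Y ≃ᵐ Y) (D : ℕ → Set Y)

/-- `D i` contains `y` and none of the next `L` points of the orbit -/
def Gd (L : ℕ) (y : Y) (i : ℕ) : Prop := y ∈ D i ∧ ∀ j ∈ Finset.Icc 1 L, S^[j] y ∉ D i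

lemma ex_or (L : ℕ) (y : Y) : ∃ i, Gd S D L y i ∨ ¬ ∃ i', Gd S D L y i' := by
  by_cases h : ∃ i, Gd S D L y i
  · obtain ⟨i, hi⟩ := h
    exact ⟨i, Or.inl hi⟩
  · exact ⟨0, Or.inr h⟩

open Classical in
/-- separating colour -/
noncomputable def Qc (L : ℕ) (y : Y) : ℕ := Nat.find (ex_or S D L y)

lemma meas_Gd (hD : ∀ i, MeasurableSet (D i)) (L i : ℕ) : MeasurableSet {y | Gd S D L y i} := by
  have : {y | Gd S D L y i} = D i ∩ ⋂ j ∈ Finset.Icc 1 L, (S^[j]) ⁻¹' (D i)ᶜ := by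
    ext y
    simp only [Gd, Set.mem_ofPred_eq, mem_inter_iff, mem_iInter, mem_preimage, mem_compl_iff]
  rw [this]
  exact (hD i).inter (Finset.measurableSet_biInter _ fun j _ =>
    (S.measurable.iterate j) (hD i).compl)

lemma meas_Qc (hD : ∀ i, MeasurableSet (D i)) (L : ℕ) : Measurable (Qc S D L) := by
  classical
  unfold Qc
  refine measurable_find (ex_or S D L) fun k => ?_
  have h2 : MeasurableSet {y | ∃ i', Gd S D L y i'} := by
    have : {y | ∃ i', Gd S D L y i'} = ⋃ i', {y | Gd S D L y i'} := by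
      ext y; simp
    rw [this]
    exact MeasurableSet.iUnion fun i => meas_Gd S D hD L i
  have : {y | Gd S D L y k ∨ ¬ ∃ i', Gd S D L y i'} = {y | Gd S D L y k} ∪ {y | ∃ i', Gd S D L y i'}ᶜ := by
    ext y; simp
  rw [this]
  exact (meas_Gd S D hD L k).union h2.compl

lemma Qc_spec {L : ℕ} {y : Y} (h : ∃ i, Gd S D L y i) : Gd S D L y (Qc S D L y) := by
  classical
  have h1 := Nat.find_spec (ex_or S D L y)
  rcases h1 with h1 | h1
  · exact h1
  · exact absurd h h1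

lemma Qc_sep {L j : ℕ} {y : Y} (h : ∃ i, Gd S D L y i) (h' : ∃ i, Gd S D L (S^[j] y) i)
    (hj : 1 ≤ j) (hjL : j ≤ L) : Qc S D L y ≠ Qc S D L (S^[j] y) := by
  intro he
  have h1 := Qc_spec S D h
  have h2 := Qc_spec S D h'
  rw [← he] at h2
  exact h1.2 j (Finset.mem_Icc.2 ⟨hj, hjL⟩) h2.1

end Sep

/-- greedy construction of a marker set -/
def Ak (S : Y ≃ᵐ Y) (q : Y → ℕ) (n : ℕ) : ℕ → Set Y
  | 0 => ∅
  | i + 1 => Ak S q n i ∪ {y | q y = i ∧ ∀ j ∈ Finset.Icc 1 n, S^[j] y ∉ Ak S q n i ∧ S.symm^[j] y ∉ Ak S q n i}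

/-- the marker set -/
def Mk (S : Y ≃ᵐ Y) (q : Y → ℕ) (n : ℕ) : Set Y := ⋃ i, Ak S q n i

section Marker

variable (S : Y ≃ᵐ Y) (q : Y → ℕ) (n : ℕ)

lemma meas_Ak (hq : Measurable q) (i : ℕ) : MeasurableSet (Ak S q n i) := by
  induction i with
  | zero => exact MeasurableSet.empty
  | succ i ih =>
    have h1 : {y | q y = i ∧ ∀ j ∈ Finset.Icc 1 n, S^[j] y ∉ Ak S q n i ∧ S.symm^[j] y ∉ Ak S q n i} =
        q ⁻¹' {i} ∩ ⋂ j ∈ Finset.Icc 1 n, ((S^[j]) ⁻¹' (Ak S q n i)ᶜ ∩ (S.symm^[j]) ⁻¹' (Ak S q n i)ᶜ) := by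
      ext y
      simp only [Set.mem_ofPred_eq, mem_inter_iff, mem_preimage, mem_singleton_iff, mem_iInter, mem_compl_iff]
    rw [Ak, h1]
    refine ih.union ((hq (measurableSet_singleton i)).inter (Finset.measurableSet_biInter _ fun j _ => ?_))
    exact ((S.measurable.iterate j) ih.compl).inter ((S.symm.measurable.iterate j) ih.compl)

lemma meas_Mk (hq : Measurable q) : MeasurableSet (Mk S q n) := MeasurableSet.iUnion fun i => meas_Ak S q n hq i

lemma Ak_mono : Monotone (Ak S q n) := monotone_nat_of_le_succ fun _ => subset_union_left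

lemma Ak_char {i : ℕ} {y : Y} (h : y ∈ Ak S q n i) : q y < i ∧ y ∈ Ak S q n (q y + 1) ∧
    ∀ j ∈ Finset.Icc 1 n, S^[j] y ∉ Ak S q n (q y) ∧ S.symm^[j] y ∉ Ak S q n (q y) := by
  induction i with
  | zero => exact absurd h (by simp [Ak])
  | succ i ih =>
    rcases h with h | h
    · obtain ⟨h1, h2, h3⟩ := ih h
      exact ⟨by omega, h2, h3⟩
    · have h1 : q y = i := h.1
      refine ⟨by omega, ?_, ?_⟩
      · rw [h1]; exact Or.inr h
      · rw [h1]; exact h.2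

lemma Mk_char {y : Y} (h : y ∈ Mk S q n) : y ∈ Ak S q n (q y + 1) ∧
    ∀ j ∈ Finset.Icc 1 n, S^[j] y ∉ Ak S q n (q y) ∧ S.symm^[j] y ∉ Ak S q n (q y) := by
  obtain ⟨i, hi⟩ := mem_iUnion.1 h
  exact (Ak_char S q n hi).2

lemma symm_iter (j : ℕ) (y : Y) : S.symm^[j] (S^[j] y) = y := by
  have : Function.LeftInverse (S.symm : Y → Y) S := S.symm_apply_apply
  exact (this.iterate j) y

lemma Mk_disj {y : Y} {j : ℕ} (h1 : 1 ≤ j) (h2 : j ≤ n) (hq : q y ≠ q (S^[j] y)) (hy : y ∈ Mk S q n)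
    (hy' : S^[j] y ∈ Mk S q n) : False := by
  have hj : j ∈ Finset.Icc 1 n := Finset.mem_Icc.2 ⟨h1, h2⟩
  obtain ⟨a1, a2⟩ := Mk_char S q n hy
  obtain ⟨b1, b2⟩ := Mk_char S q n hy'
  rcases lt_or_gt_of_ne hq with h | h
  · have := (b2 j hj).2
    rw [symm_iter] at this
    exact this (Ak_mono S q n (by omega) a1)
  · exact (a2 j hj).1 (Ak_mono S q n (by omega) b1)

lemma Mk_cover (y : Y) : y ∈ Mk S q n ∨ ∃ j ∈ Finset.Icc 1 n, S^[j] y ∈ Mk S q n ∨ S.symm^[j] y ∈ Mk S q n := by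
  by_contra hcon
  push Not at hcon
  apply hcon.1
  refine mem_iUnion.2 ⟨q y + 1, Or.inr ⟨rfl, fun j hj => ?_⟩⟩
  have := hcon.2 j hj
  exact ⟨fun h => this.1 (mem_iUnion.2 ⟨_, h⟩), fun h => this.2 (mem_iUnion.2 ⟨_, h⟩)⟩

lemma Mk_window (y : Y) (a : ℕ) : ∃ t, a ≤ t ∧ t ≤ a + 2 * n ∧ S^[t] y ∈ Mk S q n := by
  rcases Mk_cover S q n (S^[a + n] y) with h | ⟨j, hj, h | h⟩
  · exact ⟨a + n, by omega, by omega, h⟩
  · rw [Finset.mem_Icc] at hj
    refine ⟨j + (a + n), by omega, by omega, ?_⟩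
    rw [Function.iterate_add_apply]
    exact h
  · rw [Finset.mem_Icc] at hj
    refine ⟨a + n - j, by omega, by omega, ?_⟩
    have e1 : S^[a + n] y = S^[j] (S^[a + n - j] y) := by
      rw [← Function.iterate_add_apply]; congr 1; omega
    rw [e1, symm_iter] at h
    exact h

lemma Mk_meas (μ : Measure Y) [IsProbabilityMeasure μ] (hS : MeasurePreserving S μ μ) (hqm : Measurable q)
    (hq : ∀ᵐ y ∂μ, ∀ t j, 1 ≤ j → j ≤ n → q (S^[t] y) ≠ q (S^[j] (S^[t] y))) :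
    μ (Mk S q n) * (n + 1 : ℝ≥0∞) ≤ 1 := by
  have hM := meas_Mk S q n hqm
  have h1 : ∀ j, μ ((S^[j]) ⁻¹' (Mk S q n)) = μ (Mk S q n) := fun j => (hS.iterate j).measure_preimage hM.nullMeasurableSet
  have h2 : μ (⋃ j ∈ Finset.range (n + 1), (S^[j]) ⁻¹' (Mk S q n)) =
      ∑ j ∈ Finset.range (n + 1), μ ((S^[j]) ⁻¹' (Mk S q n)) := by
    refine measure_biUnion_finset₀ ?_ fun j _ => ((hS.iterate j).measurable hM).nullMeasurableSet
    have key : ∀ i j, i < j → j ≤ n → AEDisjoint μ ((S^[i]) ⁻¹' (Mk S q n)) ((S^[j]) ⁻¹' (Mk S q n)) := by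
      intro i j hij hjn
      unfold AEDisjoint
      rw [measure_eq_zero_iff_ae_notMem]
      filter_upwards [hq] with y hy hmem
      have e1 : S^[j] y = S^[j - i] (S^[i] y) := by
        rw [← Function.iterate_add_apply]; congr 1; omega
      have h3 := hmem.2
      rw [mem_preimage, e1] at h3
      exact Mk_disj S q n (by omega) (by omega) (hy i (j - i) (by omega) (by omega)) hmem.1 h3
    intro i hi j hj hne
    simp only [Finset.coe_range, mem_Iio] at hi hj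
    rcases lt_or_gt_of_ne hne with h | h
    · exact key i j h (by omega)
    · exact (key j i h (by omega)).symm
  have h3 : μ (⋃ j ∈ Finset.range (n + 1), (S^[j]) ⁻¹' (Mk S q n)) ≤ 1 := prob_le_one
  rw [h2] at h3
  simp only [h1, Finset.sum_const, Finset.card_range, nsmul_eq_mul] at h3
  calc μ (Mk S q n) * (n + 1 : ℝ≥0∞) = ((n + 1 : ℕ) : ℝ≥0∞) * μ (Mk S q n) := by push_cast; ring
    _ ≤ 1 := h3

end Marker

end Pool.Agent.R205.PC
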