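import Pool.Agent.R205.PC.Label
import Pool.Agent.R205.PC.Avg

/-!
# Random cocycles with values in a group with an invariant probability measure
-/

set_option autoImplicit false

open MeasureTheory Filter Topology Set Finset
open scoped ENNReal ComplexConjugate

namespace Pool.Agent.R205.PC

/-- the skew product `(y, x) ↦ (S y, c y * x)` -/
def sk {Y K : Type*} [Mul K] (S : Y → Y) (c : Y → K) (z : Y × K) : Y × K := (S z.1, c z.1 * z.2)

/-- the fibre coordinate of the iterates of the skew product -/
def fb {Y K : Type*} [Mul K] (S : Y → Y) (c : Y → K) (y : Y) (x : K) : ℕ → K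
  | 0 => x
  | p + 1 => c (S^[p] y) * fb S c y x p

/-- the cocycle `φ` perturbed by the constants `θ i` on the pieces `ξ = i` -/
def cc {Y K : Type*} [Mul K] (φ : Y → K) (ξ : Y → ℕ) (θ : ℕ → K) (y : Y) : K := φ y * θ (ξ y)

section Alg

variable {Y K : Type*} [Group K] (S : Y → Y) (φ : Y → K) (ξ : Y → ℕ)

lemma sk_iter (c : Y → K) (p : ℕ) (y : Y) (x : K) : (sk S c)^[p] (y, x) = (S^[p] y, fb S c y x p) := by
  induction p with
  | zero => rfl
  | succ p ih => rw [Function.iterate_succ_apply', ih, Function.iterate_succ_apply', sk, fb]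

lemma fb_not (θ : ℕ → K) (i : ℕ) (κ : K) (y : Y) (x : K) (p : ℕ) (h : ∀ s < p, ξ (S^[s] y) ≠ i) :
    fb S (cc φ ξ (Function.update θ i κ)) y x p = fb S (cc φ ξ θ) y x p := by
  induction p with
  | zero => rfl
  | succ p ih =>
    rw [fb, fb, ih fun s hs => h s (by omega)]
    congr 1
    unfold cc
    rw [Function.update_of_ne (h p (by omega))]

lemma fb_once (θ : ℕ → K) (i : ℕ) (y : Y) (x : K) (t : ℕ) (ht : ξ (S^[t] y) = i) (p : ℕ) (htp : t < p)
    (h : ∀ s < p, s ≠ t → ξ (S^[s] y) ≠ i) :
    ∃ A : K, ∀ κ, fb S (cc φ ξ (Function.update θ i κ)) y x p = A * (κ * fb S (cc φ ξ θ) y x t) := by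
  induction p, htp using Nat.le_induction with
  | base =>
    refine ⟨φ (S^[t] y), fun κ => ?_⟩
    rw [fb, fb_not S φ ξ θ i κ y x t fun s hs => h s (by omega) (by omega)]
    unfold cc
    rw [ht, Function.update_self, mul_assoc]
  | succ p hp ih =>
    obtain ⟨A, hA⟩ := ih fun s hs hst => h s (by omega) hst
    refine ⟨cc φ ξ θ (S^[p] y) * A, fun κ => ?_⟩
    rw [fb, hA κ, mul_assoc]
    congr 1
    unfold cc
    rw [Function.update_of_ne (h p (by omega) (by omega))]

end Alg

section Meas

variable {K : Type*} [MeasurableSpace K]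

lemma mp_update (ρ : Measure K) [IsProbabilityMeasure ρ] (i : ℕ) :
    MeasurePreserving (fun p : (ℕ → K) × K => Function.update p.1 i p.2)
      ((Measure.infinitePi (fun _ : ℕ => ρ)).prod ρ) (Measure.infinitePi (fun _ : ℕ => ρ)) := by
  classical
  have hm : Measurable (fun p : (ℕ → K) × K => Function.update p.1 i p.2) := by
    rw [measurable_pi_iff]
    intro j
    by_cases h : j = i
    · subst h
      simp only [Function.update_self]
      exact measurable_snd
    · simp only [Function.update_of_ne h]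
      exact (measurable_pi_apply j).comp measurable_fst
  refine ⟨hm, ?_⟩
  apply Measure.eq_infinitePi
  intro s t ht
  rw [Measure.map_apply hm (MeasurableSet.pi s.countable_toSet fun j _ => ht j)]
  have hset : (fun p : (ℕ → K) × K => Function.update p.1 i p.2) ⁻¹' (Set.pi s t) =
      (Set.pi (s.erase i) t) ×ˢ (if i ∈ s then t i else Set.univ) := by
    ext p
    simp only [Set.mem_preimage, Set.mem_pi, Finset.mem_coe, Set.mem_prod, Finset.mem_erase]
    constructor
    · intro h
      refine ⟨fun j hj => ?_, ?_⟩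
      · have := h j hj.2
        rwa [Function.update_of_ne hj.1] at this
      · split_ifs with hi
        · have := h i hi
          rwa [Function.update_self] at this
        · trivial
    · rintro ⟨h1, h2⟩ j hj
      by_cases hji : j = i
      · subst hji
        rw [if_pos hj] at h2
        rwa [Function.update_self]
      · rw [Function.update_of_ne hji]
        exact h1 j ⟨hji, hj⟩
  rw [hset, Measure.prod_prod]
  rw [show ((s.erase i : Finset ℕ) : Set ℕ) = ((s.erase i : Finset ℕ) : Set ℕ) from rfl,
    Measure.infinitePi_pi _ fun j _ => ht j]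
  split_ifs with hi
  · rw [Finset.prod_erase_mul _ _ hi]
  · rw [measure_univ, mul_one, Finset.erase_eq_of_notMem hi]

lemma integral_resample (ρ : Measure K) [IsProbabilityMeasure ρ] (i : ℕ) (F G : (ℕ → K) → ℂ)
    (hF : Measurable F) (hG : Measurable G) (C : ℝ) (hFb : ∀ θ, ‖F θ‖ ≤ C) (hGb : ∀ θ, ‖G θ‖ ≤ C)
    (hGi : ∀ θ κ, G (Function.update θ i κ) = G θ)
    (hFi : ∀ θ, ∫ κ, F (Function.update θ i κ) ∂ρ = 0) :
    ∫ θ, F θ * G θ ∂(Measure.infinitePi (fun _ : ℕ => ρ)) = 0 := by
  have hmp := mp_update ρ i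
  have hFG : Measurable (fun θ => F θ * G θ) := hF.mul hG
  rw [← hmp.map_eq, integral_map hmp.measurable.aemeasurable hFG.aestronglyMeasurable, integral_prod]
  · have : ∀ θ : ℕ → K, ∫ κ, F (Function.update θ i κ) * G (Function.update θ i κ) ∂ρ = 0 := by
      intro θ
      simp only [hGi]
      rw [integral_mul_const, hFi, zero_mul]
    simp only [this, integral_zero]
  · refine Integrable.of_bound (hFG.comp hmp.measurable).aestronglyMeasurable (C * C) ?_
    filter_upwards with p
    rw [norm_mul]
    exact mul_le_mul (hFb _) (hGb _) (norm_nonneg _) ((norm_nonneg _).trans (hFb p.1))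

end Meas

section Joint

variable {Y K : Type*} [MeasurableSpace Y] [Group K] [MeasurableSpace K] [MeasurableMul₂ K]

lemma meas_fb (S : Y → Y) (hS : Measurable S) (φ : Y → K) (hφ : Measurable φ) (ξ : Y → ℕ) (hξ : Measurable ξ)
    (p : ℕ) : Measurable (fun w : (ℕ → K) × (Y × K) => fb S (cc φ ξ w.1) w.2.1 w.2.2 p) := by
  induction p with
  | zero => exact measurable_snd.comp measurable_snd
  | succ p ih =>
    simp only [fb]
    refine Measurable.mul ?_ ih
    unfold cc
    have hSp : Measurable (fun w : (ℕ → K) × (Y × K) => S^[p] w.2.1) :=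
      (hS.iterate p).comp (measurable_fst.comp measurable_snd)
    refine (hφ.comp hSp).mul ?_
    have h1 : Measurable (fun q : (ℕ → K) × ℕ => q.1 q.2) :=
      measurable_from_prod_countable_left fun i => measurable_pi_apply i
    exact h1.comp (measurable_fst.prodMk (hξ.comp hSp))

lemma meas_it (S : Y → Y) (hS : Measurable S) (φ : Y → K) (hφ : Measurable φ) (ξ : Y → ℕ) (hξ : Measurable ξ)
    (p : ℕ) : Measurable (fun w : (ℕ → K) × (Y × K) => (sk S (cc φ ξ w.1))^[p] w.2) := by
  have : (fun w : (ℕ → K) × (Y × K) => (sk S (cc φ ξ w.1))^[p] w.2) =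
      fun w => (S^[p] w.2.1, fb S (cc φ ξ w.1) w.2.1 w.2.2 p) := by
    funext w
    rw [← sk_iter]
  rw [this]
  exact ((hS.iterate p).comp (measurable_fst.comp measurable_snd)).prodMk (meas_fb S hS φ hφ ξ hξ p)

end Joint

end Pool.Agent.R205.PC
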