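import Pool.Agent.R205.PC.Fub

/-!
# Integer times
-/

set_option autoImplicit false

open MeasureTheory Filter Topology Set Finset
open scoped ENNReal ComplexConjugate

namespace Pool.Agent.R205.PC

section Alg

variable {Y K : Type*} [Group K]

/-- skew product as a permutation -/
def skp (S : Equiv.Perm Y) (c : Y → K) : Equiv.Perm (Y × K) where
  toFun z := (S z.1, c z.1 * z.2)
  invFun z := (S.symm z.1, (c (S.symm z.1))⁻¹ * z.2)
  left_inv z := by simp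
  right_inv z := by simp

/-- fibre coordinate of the integer iterates -/
def xz (S : Equiv.Perm Y) (c : Y → K) (y : Y) (x : K) (p : ℤ) : K := ((skp S c ^ p) (y, x)).2

lemma skp_apply (S : Equiv.Perm Y) (c : Y → K) (z : Y × K) : skp S c z = (S z.1, c z.1 * z.2) := rfl

lemma skp_fst (S : Equiv.Perm Y) (c : Y → K) (z : Y × K) (p : ℤ) : ((skp S c ^ p) z).1 = (S ^ p) z.1 := by
  induction p using Int.induction_on with
  | zero => simp
  | succ n ih =>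
    rw [add_comm, zpow_add, zpow_add, zpow_one, zpow_one, Equiv.Perm.mul_apply, Equiv.Perm.mul_apply, skp_apply, ih]
  | pred n ih =>
    rw [sub_eq_add_neg, add_comm, zpow_add, zpow_add, zpow_neg_one, zpow_neg_one, Equiv.Perm.mul_apply,
      Equiv.Perm.mul_apply]
    change S.symm ((skp S c ^ (-(n:ℤ))) z).1 = _
    rw [ih]
    rfl

lemma skp_eq (S : Equiv.Perm Y) (c : Y → K) (y : Y) (x : K) (p : ℤ) :
    (skp S c ^ p) (y, x) = ((S ^ p) y, xz S c y x p) := by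
  refine Prod.ext ?_ rfl
  exact skp_fst S c (y, x) p

lemma xz_zero (S : Equiv.Perm Y) (c : Y → K) (y : Y) (x : K) : xz S c y x 0 = x := rfl

lemma xz_succ (S : Equiv.Perm Y) (c : Y → K) (y : Y) (x : K) (p : ℤ) :
    xz S c y x (p + 1) = c ((S ^ p) y) * xz S c y x p := by
  unfold xz
  rw [add_comm, zpow_add, zpow_one, Equiv.Perm.mul_apply, skp_apply, skp_fst]

lemma xz_pred (S : Equiv.Perm Y) (c : Y → K) (y : Y) (x : K) (p : ℤ) :
    xz S c y x p = (c ((S ^ p) y))⁻¹ * xz S c y x (p + 1) := by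
  rw [xz_succ, inv_mul_cancel_left]

variable (S : Equiv.Perm Y) (φ : Y → K) (ξ : Y → ℕ)

lemma dep_pos (θ : ℕ → K) (i : ℕ) (κ : K) (y : Y) (x : K) (n : ℕ)
    (h : ∀ s : ℤ, 0 ≤ s → s < n → ξ ((S ^ s) y) ≠ i) :
    xz S (cc φ ξ (Function.update θ i κ)) y x n = xz S (cc φ ξ θ) y x n := by
  induction n with
  | zero => rfl
  | succ n ih =>
    push_cast
    rw [xz_succ, xz_succ, ih fun s h1 h2 => h s h1 (by push_cast; omega)]
    congr 1
    unfold cc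
    rw [Function.update_of_ne (h n (by omega) (by push_cast; omega))]

lemma dep_neg (θ : ℕ → K) (i : ℕ) (κ : K) (y : Y) (x : K) (n : ℕ)
    (h : ∀ s : ℤ, -(n : ℤ) ≤ s → s < 0 → ξ ((S ^ s) y) ≠ i) :
    xz S (cc φ ξ (Function.update θ i κ)) y x (-(n : ℤ)) = xz S (cc φ ξ θ) y x (-(n : ℤ)) := by
  induction n with
  | zero => rfl
  | succ n ih =>
    rw [xz_pred, xz_pred S (cc φ ξ θ)]
    have e1 : -((n + 1 : ℕ) : ℤ) + 1 = -(n : ℤ) := by push_cast; ring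
    rw [e1, ih fun s h1 h2 => h s (by push_cast; omega) h2]
    congr 2
    unfold cc
    rw [Function.update_of_ne (h _ le_rfl (by push_cast; omega))]

/-- the fibre coordinate at the time `p` depends only on the labels between `0` and `p` -/
lemma dep (θ : ℕ → K) (i : ℕ) (κ : K) (y : Y) (x : K) (p : ℤ)
    (h1 : ∀ s : ℤ, 0 ≤ s → s < p → ξ ((S ^ s) y) ≠ i) (h2 : ∀ s : ℤ, p ≤ s → s < 0 → ξ ((S ^ s) y) ≠ i) :
    xz S (cc φ ξ (Function.update θ i κ)) y x p = xz S (cc φ ξ θ) y x p := by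
  rcases le_total 0 p with h | h
  · obtain ⟨n, rfl⟩ := Int.eq_ofNat_of_zero_le h
    exact dep_pos S φ ξ θ i κ y x n h1
  · obtain ⟨n, hn⟩ := Int.eq_ofNat_of_zero_le (show 0 ≤ -p by omega)
    obtain rfl : p = -(n : ℤ) := by omega
    exact dep_neg S φ ξ θ i κ y x n h2

lemma once_pos (θ : ℕ → K) (i : ℕ) (y : Y) (x : K) (t : ℕ) (ht : ξ ((S ^ (t : ℤ)) y) = i) (n : ℕ) (htn : t < n)
    (h : ∀ s : ℤ, 0 ≤ s → s < n → s ≠ t → ξ ((S ^ s) y) ≠ i) :
    ∃ A B : K, ∀ κ, xz S (cc φ ξ (Function.update θ i κ)) y x n = A * κ * B := by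
  induction n, htn using Nat.le_induction with
  | base =>
    refine ⟨φ ((S ^ (t : ℤ)) y), xz S (cc φ ξ θ) y x t, fun κ => ?_⟩
    rw [show ((t + 1 : ℕ) : ℤ) = (t : ℤ) + 1 by push_cast; ring, xz_succ,
      dep_pos S φ ξ θ i κ y x t fun s h1 h2 => h s h1 (by push_cast; omega) (by omega)]
    unfold cc
    rw [ht, Function.update_self]
  | succ n hn ih =>
    obtain ⟨A, B, hA⟩ := ih fun s h1 h2 h3 => h s h1 (by push_cast; omega) h3
    refine ⟨cc φ ξ θ ((S ^ (n : ℤ)) y) * A, B, fun κ => ?_⟩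
    rw [show ((n + 1 : ℕ) : ℤ) = (n : ℤ) + 1 by push_cast; ring, xz_succ, hA κ]
    have e1 : cc φ ξ (Function.update θ i κ) ((S ^ (n : ℤ)) y) = cc φ ξ θ ((S ^ (n : ℤ)) y) := by
      unfold cc
      rw [Function.update_of_ne (h n (by omega) (by push_cast; omega) (by omega))]
    rw [e1]
    simp only [mul_assoc]

lemma once_neg (θ : ℕ → K) (i : ℕ) (y : Y) (x : K) (t : ℕ) (ht : ξ ((S ^ (-((t + 1 : ℕ) : ℤ))) y) = i) (n : ℕ) (htn : t < n)
    (h : ∀ s : ℤ, -(n : ℤ) ≤ s → s < 0 → s ≠ -((t + 1 : ℕ) : ℤ) → ξ ((S ^ s) y) ≠ i) :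
    ∃ A B : K, ∀ κ, xz S (cc φ ξ (Function.update θ i κ)) y x (-(n : ℤ)) = A * κ⁻¹ * B := by
  induction n, htn using Nat.le_induction with
  | base =>
    refine ⟨1, (φ ((S ^ (-((t + 1 : ℕ) : ℤ))) y))⁻¹ * xz S (cc φ ξ θ) y x (-(t : ℤ)), fun κ => ?_⟩
    rw [xz_pred, show -((t + 1 : ℕ) : ℤ) + 1 = -(t : ℤ) by push_cast; ring,
      dep_neg S φ ξ θ i κ y x t fun s h1 h2 => h s (by push_cast; omega) h2 (by push_cast; omega)]
    unfold cc
    rw [ht, Function.update_self, mul_inv_rev, one_mul, mul_assoc]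
  | succ n hn ih =>
    obtain ⟨A, B, hA⟩ := ih fun s h1 h2 h3 => h s (by push_cast; omega) h2 h3
    refine ⟨(cc φ ξ θ ((S ^ (-((n + 1 : ℕ) : ℤ))) y))⁻¹ * A, B, fun κ => ?_⟩
    rw [xz_pred, show -((n + 1 : ℕ) : ℤ) + 1 = -(n : ℤ) by push_cast; ring, hA κ]
    have e1 : cc φ ξ (Function.update θ i κ) ((S ^ (-((n + 1 : ℕ) : ℤ))) y) = cc φ ξ θ ((S ^ (-((n + 1 : ℕ) : ℤ))) y) := by
      unfold cc
      rw [Function.update_of_ne (h _ le_rfl (by push_cast; omega) (by push_cast; omega))]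
    rw [e1]
    simp only [mul_assoc]

/-- if the label of the time `t` occurs only once -/
lemma once (θ : ℕ → K) (y : Y) (x : K) (t p : ℤ) (htp : (0 ≤ t ∧ t < p) ∨ (p ≤ t ∧ t < 0))
    (h1 : ∀ s : ℤ, 0 ≤ s → s < p → s ≠ t → ξ ((S ^ s) y) ≠ ξ ((S ^ t) y))
    (h2 : ∀ s : ℤ, p ≤ s → s < 0 → s ≠ t → ξ ((S ^ s) y) ≠ ξ ((S ^ t) y)) :
    ∃ A B : K, (∀ κ, xz S (cc φ ξ (Function.update θ (ξ ((S ^ t) y)) κ)) y x p = A * κ * B) ∨
      (∀ κ, xz S (cc φ ξ (Function.update θ (ξ ((S ^ t) y)) κ)) y x p = A * κ⁻¹ * B) := by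
  rcases htp with ⟨h3, h4⟩ | ⟨h3, h4⟩
  · obtain ⟨n, rfl⟩ := Int.eq_ofNat_of_zero_le (show 0 ≤ p by omega)
    obtain ⟨t', rfl⟩ := Int.eq_ofNat_of_zero_le h3
    obtain ⟨A, B, hAB⟩ := once_pos S φ ξ θ _ y x t' rfl n (by omega) h1
    exact ⟨A, B, Or.inl hAB⟩
  · obtain ⟨n, hn⟩ := Int.eq_ofNat_of_zero_le (show 0 ≤ -p by omega)
    obtain rfl : p = -(n : ℤ) := by omega
    obtain ⟨t', ht'⟩ := Int.eq_ofNat_of_zero_le (show 0 ≤ -t - 1 by omega)
    obtain rfl : t = -((t' + 1 : ℕ) : ℤ) := by push_cast; omega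
    obtain ⟨A, B, hAB⟩ := once_neg S φ ξ θ _ y x t' rfl n (by push_cast at *; omega) h2
    exact ⟨A, B, Or.inr hAB⟩

end Alg

section Inv

variable {K : Type*} [Group K] [MeasurableSpace K] [MeasurableMul₂ K] [MeasurableInv K]

/-- a probability measure invariant under the translations is invariant under the inversion -/
lemma integral_inv_eq (ρ : Measure K) [IsProbabilityMeasure ρ] [ρ.IsMulLeftInvariant] [ρ.IsMulRightInvariant]
    (g : K → ℂ) (hg : Measurable g) (C : ℝ) (hC : ∀ x, ‖g x‖ ≤ C) : ∫ κ, g κ⁻¹ ∂ρ = ∫ κ, g κ ∂ρ := by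
  have hm : Measurable (fun p : K × K => g (p.1⁻¹ * p.2)) := hg.comp (measurable_fst.inv.mul measurable_snd)
  have hi : Integrable (fun p : K × K => g (p.1⁻¹ * p.2)) (ρ.prod ρ) :=
    Integrable.of_bound hm.aestronglyMeasurable C (Eventually.of_forall fun p => hC _)
  have h1 : ∫ κ, ∫ h, g (κ⁻¹ * h) ∂ρ ∂ρ = ∫ κ, g κ ∂ρ := by
    have : ∀ κ : K, ∫ h, g (κ⁻¹ * h) ∂ρ = ∫ h, g h ∂ρ := fun κ => integral_mul_left_eq_self g κ⁻¹
    simp only [this, integral_const, probReal_univ, one_smul]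
  have h2 : ∫ κ, ∫ h, g (κ⁻¹ * h) ∂ρ ∂ρ = ∫ κ, g κ⁻¹ ∂ρ := by
    rw [integral_integral_swap (f := fun κ h => g (κ⁻¹ * h)) hi]
    have : ∀ h : K, ∫ κ, g (κ⁻¹ * h) ∂ρ = ∫ κ, g κ⁻¹ ∂ρ := by
      intro h
      have e1 : ∀ κ : K, g (κ⁻¹ * h) = (fun u : K => g u⁻¹) (h⁻¹ * κ) := by
        intro κ
        simp [mul_inv_rev]
      simp only [e1]
      exact integral_mul_left_eq_self (fun u : K => g u⁻¹) h⁻¹
    simp only [this, integral_const, probReal_univ, one_smul]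
  rw [← h2, h1]

lemma integral_two_sided (ρ : Measure K) [IsProbabilityMeasure ρ] [ρ.IsMulLeftInvariant] [ρ.IsMulRightInvariant]
    (g : K → ℂ) (A B : K) : ∫ κ, g (A * κ * B) ∂ρ = ∫ κ, g κ ∂ρ := by
  have e1 := integral_mul_left_eq_self (μ := ρ) (fun κ => g (κ * B)) A
  have e2 := integral_mul_right_eq_self (μ := ρ) g B
  rw [e1, e2]

lemma integral_two_sided_inv (ρ : Measure K) [IsProbabilityMeasure ρ] [ρ.IsMulLeftInvariant] [ρ.IsMulRightInvariant]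
    (g : K → ℂ) (hg : Measurable g) (C : ℝ) (hC : ∀ x, ‖g x‖ ≤ C) (A B : K) :
    ∫ κ, g (A * κ⁻¹ * B) ∂ρ = ∫ κ, g κ ∂ρ := by
  have h1 := integral_inv_eq ρ (fun κ => g (A * κ * B)) (hg.comp ((measurable_const.mul measurable_id).mul measurable_const))
    C (fun x => hC _)
  rw [h1, integral_two_sided]

end Inv

end Pool.Agent.R205.PC
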