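import Pool.Agent.R205.PC.Z9

/-!
# Boxes: the general condition on the shape
-/

set_option autoImplicit false

open MeasureTheory Filter Topology Set Finset
open scoped ENNReal ComplexConjugate

namespace Pool.Agent.R205.PC

/-- the box `M` is admissible for the family: the side of every variable is at most the `A`-th power of the side of
some variable which occurs, for each of the polynomials `P j` and `P i - P j`, `i ≠ j` -/
def Adm {k n : ℕ} (P : Fin n → MvPolynomial (Fin k) ℤ) (A : ℕ) (M : Fin k → ℕ) : Prop :=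
  ∀ l, (∀ j, ∃ l' ∈ (P j).vars, M l ≤ M l' ^ A) ∧ ∀ i j, i ≠ j → ∃ l' ∈ (P i - P j).vars, M l ≤ M l' ^ A

/-- `m` is regular for `Q`: the restrictions to the lines through `m` are not constant, for the variables of `Q` -/
def Reg2 {k : ℕ} (Q : MvPolynomial (Fin k) ℤ) (m : Fin k → ℕ) : Prop :=
  ∀ l ∈ Q.vars, 0 < (line Q l fun i => ((m i : ℕ) : ℤ)).natDegree

open scoped Classical in
lemma reg2_dens {k : ℕ} (Q : MvPolynomial (Fin k) ℤ) :
    Tendsto (fun M : Fin k → ℕ => (#((box M).filter fun m => ¬ Reg2 Q m) : ℝ) / ∏ l, (M l : ℝ)) atTop (𝓝 0) := by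
  choose u hu using fun (l : Fin k) (hl : l ∈ Q.vars) => exists_subst Q l hl
  set H : Fin k → MvPolynomial (Fin k) ℤ := fun l => if hl : l ∈ Q.vars then subst l (u l hl) Q - subst l 0 Q else 1 with hH
  have hH0 : ∀ l, H l ≠ 0 := by
    intro l
    simp only [hH]
    split_ifs with h
    · exact hu l h
    · exact one_ne_zero
  have h1 : ∀ M : Fin k → ℕ, #((box M).filter fun m => ¬ Reg2 Q m) ≤
      ∑ l, #((box M).filter fun m => MvPolynomial.eval (fun i => ((m i : ℕ) : ℤ)) (H l) = 0) := by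
    intro M
    refine (Finset.card_le_card ?_).trans Finset.card_biUnion_le
    intro m hm
    rw [Finset.mem_filter] at hm
    obtain ⟨hm1, hm2⟩ := hm
    unfold Reg2 at hm2
    push Not at hm2
    obtain ⟨l, hlv, hl⟩ := hm2
    rw [Finset.mem_biUnion]
    refine ⟨l, Finset.mem_univ _, Finset.mem_filter.2 ⟨hm1, ?_⟩⟩
    simp only [hH, dif_pos hlv]
    rw [map_sub, eval_subst, eval_subst, ← eval_line, ← eval_line]
    have h0 : (line Q l fun i => ((m i : ℕ) : ℤ)).natDegree = 0 := by omega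
    rw [Polynomial.natDegree_eq_zero] at h0
    obtain ⟨c, hc⟩ := h0
    rw [← hc, Polynomial.eval_C, Polynomial.eval_C, sub_self]
  have h2 : Tendsto (fun M : Fin k → ℕ => ∑ l, (#((box M).filter fun m =>
      MvPolynomial.eval (fun i => ((m i : ℕ) : ℤ)) (H l) = 0) : ℝ) / ∏ l, (M l : ℝ)) atTop (𝓝 0) := by
    have := tendsto_finsetSum (Finset.univ : Finset (Fin k)) fun l _ => sz_tendsto _ (hH0 l)
    simpa using this
  have hnn : ∀ M : Fin k → ℕ, (0 : ℝ) ≤ ∏ l, (M l : ℝ) := fun M => Finset.prod_nonneg fun l _ => by positivity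
  refine squeeze_zero (fun M => ?_) (fun M => ?_) h2
  · have := hnn M
    positivity
  · have := hnn M
    rw [← Finset.sum_div]
    gcongr
    exact_mod_cast h1 M

/-- few values are taken many times on lines -/
lemma fibre_count2 {k : ℕ} (Q : MvPolynomial (Fin k) ℤ) (l : Fin k) (D : ℕ) (hD : ∀ m, (line Q l m).natDegree ≤ D)
    (M : Fin k → ℕ) (Bx : Finset (Fin k → ℕ)) (hBx : Bx ⊆ box M)
    (hreg : ∀ m ∈ Bx, 0 < (line Q l fun i => ((m i : ℕ) : ℤ)).natDegree) (v : ℤ) :
    #(Bx.filter fun m => MvPolynomial.eval (fun i => ((m i : ℕ) : ℤ)) Q = v) * M l ≤ D * ∏ i, M i := by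
  classical
  set E := Bx.filter fun m => MvPolynomial.eval (fun i => ((m i : ℕ) : ℤ)) Q = v with hE
  have h1 : E.card ≤ D * (E.image fun m => Function.update m l 1).card := by
    refine Finset.card_le_mul_card_image E D ?_
    intro w hw
    rw [Finset.mem_image] at hw
    obtain ⟨m0, hm0, hw0⟩ := hw
    have hm0' := hreg m0 (Finset.mem_filter.1 hm0).1
    set p := line Q l (fun i => ((m0 i : ℕ) : ℤ)) with hp
    have hpne : p - Polynomial.C v ≠ 0 := by
      intro h
      rw [sub_eq_zero] at h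
      rw [h, Polynomial.natDegree_C] at hm0'
      exact lt_irrefl _ hm0'
    have hroots : (p - Polynomial.C v).roots.toFinset.card ≤ D := by
      refine (Multiset.toFinset_card_le _).trans ((Polynomial.card_roots' _).trans ?_)
      rw [Polynomial.natDegree_sub_C]
      exact hD _
    refine le_trans ?_ hroots
    refine Finset.card_le_card_of_injOn (fun m => ((m l : ℕ) : ℤ)) ?_ ?_
    · intro m hm
      rw [Finset.mem_coe, Finset.mem_filter] at hm
      obtain ⟨hm1, hm2⟩ := hm
      rw [Finset.mem_coe, Multiset.mem_toFinset, Polynomial.mem_roots hpne, Polynomial.IsRoot.def,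
        Polynomial.eval_sub, Polynomial.eval_C, hp, eval_line, sub_eq_zero]
      have h3 : Function.update (fun i => ((m0 i : ℕ) : ℤ)) l ((m l : ℕ) : ℤ) = fun i => ((m i : ℕ) : ℤ) := by
        funext i
        by_cases h : i = l
        · subst h; simp
        · rw [Function.update_of_ne h]
          have h4 := congrFun (hm2.trans hw0.symm) i
          rw [Function.update_of_ne h, Function.update_of_ne h] at h4
          rw [h4]
      rw [h3]
      exact (Finset.mem_filter.1 hm1).2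
    · intro m hm m' hm' hmm
      rw [Finset.mem_coe, Finset.mem_filter] at hm hm'
      funext i
      by_cases h : i = l
      · subst h
        exact Nat.cast_injective (R := ℤ) hmm
      · have h4 := congrFun (hm.2.trans hm'.2.symm) i
        rwa [Function.update_of_ne h, Function.update_of_ne h] at h4
  have h2 : (E.image fun m => Function.update m l 1).card * M l ≤ ∏ i, M i := by
    have h3 : (E.image fun m => Function.update m l 1) ⊆
        Fintype.piFinset (Function.update (fun i => Finset.Icc 1 (M i)) l {1}) := by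
      intro w hw
      rw [Finset.mem_image] at hw
      obtain ⟨m, hm, rfl⟩ := hw
      have hm1 := hBx (Finset.mem_filter.1 hm).1
      rw [Fintype.mem_piFinset] at hm1 ⊢
      intro i
      by_cases h : i = l
      · subst h; simp
      · rw [Function.update_of_ne h, Function.update_of_ne h]
        exact hm1 i
    have h4 := Finset.card_le_card h3
    rw [Fintype.card_piFinset] at h4
    have h5 : ∏ i, (Function.update (fun i => Finset.Icc 1 (M i)) l {1} i).card = ∏ i ∈ Finset.univ.erase l, M i := by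
      rw [← Finset.mul_prod_erase Finset.univ _ (Finset.mem_univ l), Function.update_self, Finset.card_singleton, one_mul]
      refine Finset.prod_congr rfl fun i hi => ?_
      rw [Function.update_of_ne (Finset.ne_of_mem_erase hi)]
      simp
    rw [h5] at h4
    calc (E.image fun m => Function.update m l 1).card * M l ≤ (∏ i ∈ Finset.univ.erase l, M i) * M l :=
          Nat.mul_le_mul_right _ h4
      _ = ∏ i, M i := Finset.prod_erase_mul _ _ (Finset.mem_univ l)
  calc E.card * M l ≤ (D * (E.image fun m => Function.update m l 1).card) * M l := Nat.mul_le_mul_right _ h1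
    _ = D * ((E.image fun m => Function.update m l 1).card * M l) := by ring
    _ ≤ D * ∏ i, M i := Nat.mul_le_mul_left _ h2

/-- the effective side of a box -/
lemma exists_side {k n : ℕ} (hk : 0 < k) (P : Fin n → MvPolynomial (Fin k) ℤ) (hP : ∀ j, (P j).vars.Nonempty)
    (hP' : ∀ i j, i ≠ j → (P i - P j).vars.Nonempty) :
    ∃ s : (Fin k → ℕ) → ℕ, (∀ M j, ∃ l ∈ (P j).vars, s M ≤ M l) ∧
      (∀ M i j, i ≠ j → ∃ l ∈ (P i - P j).vars, s M ≤ M l) ∧ (∀ M (b : ℕ), (∀ l, b ≤ M l) → b ≤ s M) ∧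
      ∀ A, 0 < A → ∀ M, Adm P A M → ∀ l, M l ≤ s M ^ A := by
  classical
  have hne : (Finset.univ : Finset (Option (Fin n ⊕ (Fin n × Fin n)))).Nonempty := ⟨none, Finset.mem_univ _⟩
  set w : (Fin k → ℕ) → Option (Fin n ⊕ (Fin n × Fin n)) → ℕ := fun M o => match o with
    | none => Finset.univ.sup M
    | some (Sum.inl j) => (P j).vars.sup M
    | some (Sum.inr ij) => if ij.1 = ij.2 then Finset.univ.sup M else (P ij.1 - P ij.2).vars.sup M with hw
  refine ⟨fun M => Finset.univ.inf' hne (w M), ?_, ?_, ?_, ?_⟩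
  · intro M j
    obtain ⟨l, hl, hl'⟩ := Finset.exists_mem_eq_sup (P j).vars (hP j) M
    refine ⟨l, hl, ?_⟩
    rw [← hl']
    exact Finset.inf'_le (w M) (Finset.mem_univ (some (Sum.inl j)))
  · intro M i j hij
    obtain ⟨l, hl, hl'⟩ := Finset.exists_mem_eq_sup (P i - P j).vars (hP' i j hij) M
    refine ⟨l, hl, ?_⟩
    rw [← hl']
    have h1 : Finset.univ.inf' hne (w M) ≤ w M (some (Sum.inr (i, j))) :=
      Finset.inf'_le (w M) (Finset.mem_univ (some (Sum.inr (i, j)) : Option (Fin n ⊕ (Fin n × Fin n))))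
    have h2 : w M (some (Sum.inr (i, j))) = (P i - P j).vars.sup M := if_neg hij
    rwa [h2] at h1
  · intro M b hb
    refine Finset.le_inf' hne _ fun o _ => ?_
    have hsup : b ≤ Finset.univ.sup M := (hb ⟨0, hk⟩).trans (Finset.le_sup (f := M) (Finset.mem_univ _))
    rcases o with _ | j | ij
    · exact hsup
    · obtain ⟨l, hl⟩ := hP j
      exact (hb l).trans (Finset.le_sup (f := M) hl)
    · change b ≤ if ij.1 = ij.2 then Finset.univ.sup M else (P ij.1 - P ij.2).vars.sup M
      split_ifs with h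
      · exact hsup
      · obtain ⟨l, hl⟩ := hP' ij.1 ij.2 h
        exact (hb l).trans (Finset.le_sup (f := M) hl)
  · intro A hA M hM l
    obtain ⟨o, _, ho⟩ := Finset.exists_mem_eq_inf' hne (w M)
    change M l ≤ (Finset.univ.inf' hne (w M)) ^ A
    rw [ho]
    have hsup : M l ≤ (Finset.univ.sup M) ^ A := by
      have h1 : M l ≤ Finset.univ.sup M := Finset.le_sup (f := M) (Finset.mem_univ _)
      exact h1.trans (Nat.le_self_pow hA.ne' _)
    rcases o with _ | j | ij
    · exact hsup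
    · obtain ⟨l', hl', hle⟩ := (hM l).1 j
      exact hle.trans (Nat.pow_le_pow_left (Finset.le_sup (f := M) hl') A)
    · change M l ≤ (if ij.1 = ij.2 then Finset.univ.sup M else (P ij.1 - P ij.2).vars.sup M) ^ A
      split_ifs with h
      · exact hsup
      · obtain ⟨l', hl', hle⟩ := (hM l).2 ij.1 ij.2 h
        exact hle.trans (Nat.pow_le_pow_left (Finset.le_sup (f := M) hl') A)

variable {Y K : Type*} [MeasurableSpace Y] [Group K] [MeasurableSpace K] [MeasurableMul₂ K] [MeasurableInv K]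

/-- admissible boxes: all polynomials and all differences are nonconstant -/
theorem boxes_gen (ρ : Measure K) [IsProbabilityMeasure ρ] [ρ.IsMulLeftInvariant] [ρ.IsMulRightInvariant]
    (μ : Measure Y) [IsProbabilityMeasure μ]
    (S : Equiv.Perm Y) (hS : ∀ p : ℤ, Measurable (S ^ p)) (φ : Y → K) (hφ : Measurable φ)
    (ξ : Y → ℕ) (hξ : Measurable ξ) (hfr : ∀ᵐ y ∂μ, Fresh2 S ξ y)
    {k n : ℕ} (hk : 0 < k) (P : Fin n → MvPolynomial (Fin k) ℤ) (hP : ∀ j, (P j).vars.Nonempty)
    (hP' : ∀ i j, i ≠ j → (P i - P j).vars.Nonempty) (A : ℕ)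
    (f : Fin n → (Fin k → ℕ) → Y × K → ℂ) (hf : ∀ j m, Measurable (f j m)) (hfb : ∃ C, ∀ j m z, ‖f j m z‖ ≤ C) :
    ∀ᵐ θ ∂(Measure.infinitePi (fun _ : ℕ => ρ)), ∀ᵐ z ∂(μ.prod ρ),
      Tendsto (fun M => dq ρ S (cc φ ξ θ) (fun j (m : Fin k → ℕ) => MvPolynomial.eval (fun l => ((m l : ℕ) : ℤ)) (P j)) f
        (∏ l, (M l : ℝ)) (box M) z) (atTop ⊓ 𝓟 {M | Adm P A M}) (𝓝 0) := by
  classical
  obtain ⟨s, hs1, hs2, hs3, hs4⟩ := exists_side hk P hP hP'
  obtain ⟨d, hd⟩ : ∃ d : ℕ, ∀ j (s : ℕ) (m : Fin k → ℕ), (∀ l, m l ≤ s) →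
      |MvPolynomial.eval (fun l => ((m l : ℕ) : ℤ)) (P j)| ≤ (((s + 2) ^ d : ℕ) : ℤ) := by
    choose d hd using fun j => growth (P j)
    refine ⟨∑ j, d j, fun j s m hm => (hd j s m hm).trans ?_⟩
    have : (s + 2) ^ d j ≤ (s + 2) ^ ∑ j, d j :=
      Nat.pow_le_pow_right (by omega) (Finset.single_le_sum (fun _ _ => Nat.zero_le _) (Finset.mem_univ j))
    exact_mod_cast this
  obtain ⟨D, hD1, hD2⟩ : ∃ D : ℕ, (∀ j l m, (line (P j) l m).natDegree ≤ D) ∧
      (∀ i j l m, (line (P i - P j) l m).natDegree ≤ D) := by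
    choose D1 hD1 using fun j l => line_deg (P j) l
    choose D2 hD2 using fun i j l => line_deg (P i - P j) l
    refine ⟨(∑ j, ∑ l, D1 j l) + ∑ i, ∑ j, ∑ l, D2 i j l, fun j l m => (hD1 j l m).trans ?_,
      fun i j l m => (hD2 i j l m).trans ?_⟩
    · have e1 : D1 j l ≤ ∑ l, D1 j l := Finset.single_le_sum (fun _ _ => Nat.zero_le _) (Finset.mem_univ l)
      have e2 : ∑ l, D1 j l ≤ ∑ j, ∑ l, D1 j l :=
        Finset.single_le_sum (f := fun j => ∑ l, D1 j l) (fun _ _ => Nat.zero_le _) (Finset.mem_univ j)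
      omega
    · have e1 : D2 i j l ≤ ∑ l, D2 i j l := Finset.single_le_sum (fun _ _ => Nat.zero_le _) (Finset.mem_univ l)
      have e2 : ∑ l, D2 i j l ≤ ∑ j, ∑ l, D2 i j l :=
        Finset.single_le_sum (f := fun j => ∑ l, D2 i j l) (fun _ _ => Nat.zero_le _) (Finset.mem_univ j)
      have e3 : ∑ j, ∑ l, D2 i j l ≤ ∑ i, ∑ j, ∑ l, D2 i j l :=
        Finset.single_le_sum (f := fun i => ∑ j, ∑ l, D2 i j l) (fun _ _ => Nat.zero_le _) (Finset.mem_univ i)
      omega
  obtain ⟨𝓖, hmem𝓖⟩ : ∃ 𝓖 : Set (Fin k → ℕ), ∀ m, m ∈ 𝓖 ↔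
      (∀ j, Reg2 (P j) m) ∧ ∀ i j, i ≠ j → Reg2 (P i - P j) m :=
    ⟨{m | (∀ j, Reg2 (P j) m) ∧ ∀ i j, i ≠ j → Reg2 (P i - P j) m}, fun m => Iff.rfl⟩
  have hst : Tendsto s atTop atTop := by
    refine tendsto_atTop.2 fun b => ?_
    filter_upwards [eventually_ge_atTop (fun _ : Fin k => b)] with M hM
    exact hs3 M b hM
  refine boxes_val ρ μ S hS φ hφ ξ hξ hfr hk _ (A + 1) ((A + 1) * d) (by omega) D {M | Adm P (A + 1) M} s hst ?_ ?_
    𝓖 ?_ ?_ ?_ _ inf_le_left ?_ f hf hfb
  · intro M hM l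
    exact hs4 (A + 1) (by omega) M hM l
  · intro M hM m hm j
    refine (hd j (s M ^ (A + 1)) m fun l => ?_).trans ?_
    · rw [Fintype.mem_piFinset] at hm
      exact (Finset.mem_Icc.1 (hm l)).2.trans (hs4 (A + 1) (by omega) M hM l)
    · have h1 : s M ^ (A + 1) + 2 ≤ (s M + 2) ^ (A + 1) := by
        have e1 : s M ^ (A + 1) = s M ^ A * s M := pow_succ _ _
        have e2 : (s M + 2) ^ (A + 1) = (s M + 2) ^ A * (s M + 2) := pow_succ _ _
        have e3 : s M ^ A ≤ (s M + 2) ^ A := Nat.pow_le_pow_left (by omega) A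
        have e4 : 1 ≤ (s M + 2) ^ A := Nat.one_le_pow _ _ (by omega)
        nlinarith
      have h2 : (s M ^ (A + 1) + 2) ^ d ≤ (s M + 2) ^ ((A + 1) * d) := by
        rw [pow_mul]
        exact Nat.pow_le_pow_left h1 d
      exact_mod_cast h2
  · intro M _ j v
    obtain ⟨l, hl, hl'⟩ := hs1 M j
    refine (Nat.mul_le_mul_left _ hl').trans ?_
    refine fibre_count2 (P j) l D (hD1 j l) M _ (Finset.filter_subset _ _) (fun m hm => ?_) v
    exact ((hmem𝓖 m).1 (Finset.mem_filter.1 hm).2).1 j l hl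
  · intro M _ i j hij v
    obtain ⟨l, hl, hl'⟩ := hs2 M i j hij
    refine (Nat.mul_le_mul_left _ hl').trans ?_
    have h1 := fibre_count2 (P i - P j) l D (hD2 i j l) M ((box M).filter (· ∈ 𝓖)) (Finset.filter_subset _ _)
      (fun m hm => ((hmem𝓖 m).1 (Finset.mem_filter.1 hm).2).2 i j hij l hl) v
    refine le_trans (le_of_eq ?_) h1
    congr 2
    refine Finset.filter_congr fun m _ => ?_
    rw [map_sub]
  · have hnn : ∀ M : Fin k → ℕ, (0 : ℝ) ≤ ∏ l, (M l : ℝ) := fun M => Finset.prod_nonneg fun l _ => by positivity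
    have h1 : Tendsto (fun M : Fin k → ℕ => ∑ j, (#((box M).filter fun m => ¬ Reg2 (P j) m) : ℝ) / ∏ l, (M l : ℝ) +
        ∑ ij : Fin n × Fin n, (#((box M).filter fun m => ¬ Reg2 (P ij.1 - P ij.2) m) : ℝ) / ∏ l, (M l : ℝ)) atTop (𝓝 0) := by
      have h2 := tendsto_finsetSum (Finset.univ : Finset (Fin n)) fun j _ => reg2_dens (P j)
      have h3 := tendsto_finsetSum (Finset.univ : Finset (Fin n × Fin n)) fun ij _ => reg2_dens (P ij.1 - P ij.2)
      have := h2.add h3
      simpa using this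
    refine squeeze_zero (fun M => by have := hnn M; positivity) (fun M => ?_) h1
    have h4 : #((box M).filter (· ∉ 𝓖)) ≤ ∑ j, #((box M).filter fun m => ¬ Reg2 (P j) m) +
        ∑ ij : Fin n × Fin n, #((box M).filter fun m => ¬ Reg2 (P ij.1 - P ij.2) m) := by
      have hsub : (box M).filter (· ∉ 𝓖) ⊆ (Finset.univ.biUnion fun j => (box M).filter fun m => ¬ Reg2 (P j) m) ∪
          (Finset.univ.biUnion fun ij : Fin n × Fin n =>
            (box M).filter fun m => ¬ Reg2 (P ij.1 - P ij.2) m) := by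
        intro m hm
        rw [Finset.mem_filter] at hm
        obtain ⟨hm1, hm2⟩ := hm
        rw [Finset.mem_union, Finset.mem_biUnion, Finset.mem_biUnion]
        rw [hmem𝓖] at hm2
        by_contra hcon
        push Not at hcon
        apply hm2
        refine ⟨fun j => ?_, fun i j hij => ?_⟩
        · by_contra hr
          exact hcon.1 j (Finset.mem_univ _) (Finset.mem_filter.2 ⟨hm1, hr⟩)
        · by_contra hr
          exact hcon.2 (i, j) (Finset.mem_univ _) (Finset.mem_filter.2 ⟨hm1, hr⟩)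
      exact (Finset.card_le_card hsub).trans ((Finset.card_union_le _ _).trans
        (add_le_add Finset.card_biUnion_le Finset.card_biUnion_le))
    have h5 : (#((box M).filter (· ∉ 𝓖)) : ℝ) ≤ ∑ j, (#((box M).filter fun m => ¬ Reg2 (P j) m) : ℝ) +
        ∑ ij : Fin n × Fin n, (#((box M).filter fun m => ¬ Reg2 (P ij.1 - P ij.2) m) : ℝ) := by
      have : ((#((box M).filter (· ∉ 𝓖)) : ℕ) : ℝ) ≤ ((∑ j, #((box M).filter fun m => ¬ Reg2 (P j) m) +
        ∑ ij : Fin n × Fin n, #((box M).filter fun m => ¬ Reg2 (P ij.1 - P ij.2) m) : ℕ) : ℝ) := by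
        exact_mod_cast h4
      push_cast at this
      exact this
    rw [← Finset.sum_div, ← Finset.sum_div, ← add_div]
    have := hnn M
    gcongr
  · set q := 4 * k * (A + 1) with hq
    have hq0 : 0 < q := by positivity
    have hF : (atTop ⊓ 𝓟 {M : Fin k → ℕ | Adm P A M}) ≤ atTop := inf_le_left
    have h1 : ∀ᶠ M in (atTop ⊓ 𝓟 {M : Fin k → ℕ | Adm P A M}), ∀ l, 2 ^ (q * A) ≤ gp q M l :=
      eventually_all.2 fun l => ((tendsto_pow_atTop hq0.ne').comp
        ((rt_tendsto hq0).comp (tendsto_coord hF l))).eventually_ge_atTop (2 ^ (q * A))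
    have h2 : ∀ᶠ M in (atTop ⊓ 𝓟 {M : Fin k → ℕ | Adm P A M}), ∀ l, 1 ≤ rt q (M l) :=
      eventually_all.2 fun l => ((rt_tendsto hq0).comp (tendsto_coord hF l)).eventually_ge_atTop 1
    have h3 : ∀ᶠ M in (atTop ⊓ 𝓟 {M : Fin k → ℕ | Adm P A M}), Adm P A M :=
      (Filter.mem_inf_of_right (Filter.mem_principal_self _))
    filter_upwards [h1, h2, h3] with M h1 h2 h3
    have key : ∀ l l', M l ≤ M l' ^ A → gp q M l ≤ gp q M l' ^ (A + 1) := by
      intro l l' hll
      have e1 : M l' ≤ 2 ^ q * gp q M l' := by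
        refine (lt_rt hq0 (M l')).le.trans ?_
        unfold gp
        rw [← mul_pow]
        exact Nat.pow_le_pow_left (by have := h2 l'; omega) q
      calc gp q M l ≤ M l := gp_le hq0 M l
        _ ≤ M l' ^ A := hll
        _ ≤ (2 ^ q * gp q M l') ^ A := Nat.pow_le_pow_left e1 A
        _ = 2 ^ (q * A) * gp q M l' ^ A := by rw [mul_pow, ← pow_mul]
        _ ≤ gp q M l' * gp q M l' ^ A := Nat.mul_le_mul_right _ (h1 l')
        _ = gp q M l' ^ (A + 1) := by rw [pow_succ, mul_comm]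
    intro l
    refine ⟨fun j => ?_, fun i j hij => ?_⟩
    · obtain ⟨l', hl', hle⟩ := (h3 l).1 j
      exact ⟨l', hl', key l l' hle⟩
    · obtain ⟨l', hl', hle⟩ := (h3 l).2 i j hij
      exact ⟨l', hl', key l l' hle⟩

end Pool.Agent.R205.PC
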