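import Pool.Agent.R205.PC.Z1

/-!
# Integer times: fresh labels and orthogonality
-/

set_option autoImplicit false

open MeasureTheory Filter Topology Set Finset
open scoped ENNReal ComplexConjugate

namespace Pool.Agent.R205.PC

/-- every window of length `2 ^ (k + 1)` contains a time whose label is unique in the range `Lk k` -/
def Fresh2 {Y : Type*} (S : Equiv.Perm Y) (ξ : Y → ℕ) (y : Y) : Prop :=
  ∀ (k : ℕ) (a : ℤ), ∃ t : ℤ, a ≤ t ∧ t ≤ a + 2 * 2 ^ k ∧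
    ∀ s : ℤ, s ≠ t → |s - t| ≤ (Lk k : ℤ) → ξ ((S ^ s) y) ≠ ξ ((S ^ t) y)

lemma fresh2_of {Y : Type*} (S : Equiv.Perm Y) (ξ : Y → ℕ) (y : Y)
    (h : ∀ R : ℕ, Fresh S ξ ((S ^ (-(R : ℤ))) y)) : Fresh2 S ξ y := by
  have hit : ∀ (s R : ℕ), S^[s] ((S ^ (-(R : ℤ))) y) = (S ^ ((s : ℤ) - R)) y := by
    intro s R
    rw [Equiv.Perm.iterate_eq_pow, ← Equiv.Perm.mul_apply, ← zpow_natCast, ← zpow_add, sub_eq_add_neg]
  intro k a
  obtain ⟨R, hR⟩ : ∃ R : ℕ, (Lk k : ℤ) ≤ a + R := by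
    refine ⟨(Lk k + |a|).toNat, ?_⟩
    have h1 := Int.self_le_toNat ((Lk k : ℤ) + |a|)
    have h2 := neg_abs_le a
    omega
  obtain ⟨t, ht1, ht2, ht3⟩ := h R k (a + R).toNat
  have hLk : (0 : ℤ) ≤ Lk k := by positivity
  have haR : ((a + R).toNat : ℤ) = a + R := Int.toNat_of_nonneg (by omega)
  refine ⟨(t : ℤ) - R, by omega, ?_, ?_⟩
  · have h3 : (t : ℤ) ≤ ((a + R).toNat : ℤ) + 2 * 2 ^ k := by exact_mod_cast ht2
    linarith
  · intro s hs1 hs2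
    rw [abs_le] at hs2
    obtain ⟨s', hs'⟩ := Int.eq_ofNat_of_zero_le (show 0 ≤ s + R by omega)
    have h4 := ht3 s' (by omega) (by omega) (by omega)
    rw [hit, hit] at h4
    rwa [show s = (s' : ℤ) - R by omega]

lemma fresh2_ae {Y : Type*} [MeasurableSpace Y] (μ : Measure Y) (S : Y ≃ᵐ Y) (hS : MeasurePreserving S μ μ)
    (ξ : Y → ℕ) (h : ∀ᵐ y ∂μ, Fresh S ξ y) : ∀ᵐ y ∂μ, Fresh2 S.toEquiv ξ y := by
  have h1 : ∀ R : ℕ, ∀ᵐ y ∂μ, Fresh S ξ (((S.toEquiv : Equiv.Perm Y) ^ (-(R : ℤ))) y) := by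
    intro R
    have h2 := ((hS.symm S).iterate R).quasiMeasurePreserving.ae h
    filter_upwards [h2] with y hy
    have : ((S.toEquiv : Equiv.Perm Y) ^ (-(R : ℤ))) y = (S.symm)^[R] y := by
      rw [zpow_neg, zpow_natCast, ← inv_pow, ← Equiv.Perm.iterate_eq_pow]
      rfl
    rw [this]
    exact hy
  filter_upwards [ae_all_iff.2 h1] with y hy
  exact fresh2_of _ ξ y hy

section Comb

/-- the choice of the last (or first) time -/
lemma pick {ι : Type*} (J : Finset ι) (hJ : J.Nonempty) (τ : ι → ℤ) (W : ℕ)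
    (h0 : ∀ l ∈ J, (W : ℤ) < |τ l|) (h1 : ∀ l ∈ J, ∀ l' ∈ J, l ≠ l' → (W : ℤ) < |τ l - τ l'|) :
    ∃ l0 ∈ J, ∃ a : ℤ, ∀ t, a ≤ t → t ≤ a + W → ((0 ≤ t ∧ t < τ l0) ∨ (τ l0 ≤ t ∧ t < 0)) ∧
      ∀ l ∈ J, l ≠ l0 → ¬ (0 ≤ t ∧ t < τ l) ∧ ¬ (τ l ≤ t ∧ t < 0) := by
  by_cases hpos : ∃ l ∈ J, 0 < τ l
  · obtain ⟨l0, hl0, hmax⟩ := Finset.exists_max_image J τ hJ
    obtain ⟨l1, hl1, hl1'⟩ := hpos
    have hp : 0 < τ l0 := hl1'.trans_le (hmax l1 hl1)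
    have hW := h0 l0 hl0
    rw [abs_of_pos hp] at hW
    refine ⟨l0, hl0, τ l0 - W - 1, fun t ht1 ht2 => ⟨Or.inl ⟨by omega, by omega⟩, fun l hl hne => ?_⟩⟩
    have h2 := h1 l0 hl0 l hl (Ne.symm hne)
    rw [abs_of_nonneg (by have := hmax l hl; omega)] at h2
    exact ⟨by omega, by omega⟩
  · push Not at hpos
    obtain ⟨l0, hl0, hmin⟩ := Finset.exists_min_image J τ hJ
    have hp := hpos l0 hl0
    have hW := h0 l0 hl0
    rw [abs_of_nonpos hp] at hW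
    refine ⟨l0, hl0, τ l0, fun t ht1 ht2 => ⟨Or.inr ⟨by omega, by omega⟩, fun l hl hne => ?_⟩⟩
    have h2 := h1 l hl l0 hl0 hne
    rw [abs_of_nonneg (by have := hmin l hl; omega)] at h2
    have := hpos l hl
    exact ⟨by omega, by omega⟩

end Comb

variable {Y K : Type*} [MeasurableSpace Y] [Group K] [MeasurableSpace K] [MeasurableMul₂ K] [MeasurableInv K]

lemma meas_xz (S : Equiv.Perm Y) (hS : ∀ p : ℤ, Measurable (S ^ p)) (φ : Y → K) (hφ : Measurable φ)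
    (ξ : Y → ℕ) (hξ : Measurable ξ) (p : ℤ) :
    Measurable (fun w : (ℕ → K) × (Y × K) => xz S (cc φ ξ w.1) w.2.1 w.2.2 p) := by
  have hcc : ∀ p : ℤ, Measurable (fun w : (ℕ → K) × (Y × K) => cc φ ξ w.1 ((S ^ p) w.2.1)) := by
    intro p
    unfold cc
    have hSp : Measurable (fun w : (ℕ → K) × (Y × K) => (S ^ p) w.2.1) :=
      (hS p).comp (measurable_fst.comp measurable_snd)
    refine (hφ.comp hSp).mul ?_
    have h1 : Measurable (fun q : (ℕ → K) × ℕ => q.1 q.2) :=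
      measurable_from_prod_countable_left fun i => measurable_pi_apply i
    exact h1.comp (measurable_fst.prodMk (hξ.comp hSp))
  induction p using Int.induction_on with
  | zero => exact measurable_snd.comp measurable_snd
  | succ n ih =>
    simp only [xz_succ]
    exact (hcc _).mul ih
  | pred n ih =>
    have h1 : (fun w : (ℕ → K) × (Y × K) => xz S (cc φ ξ w.1) w.2.1 w.2.2 (-(n : ℤ) - 1)) =
        fun w => (cc φ ξ w.1 ((S ^ (-(n : ℤ) - 1)) w.2.1))⁻¹ * xz S (cc φ ξ w.1) w.2.1 w.2.2 (-(n : ℤ)) := by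
      funext w
      rw [xz_pred]
      congr 2
      ring
    rw [h1]
    exact (hcc _).inv.mul ih

theorem orth (ρ : Measure K) [IsProbabilityMeasure ρ] [ρ.IsMulLeftInvariant] [ρ.IsMulRightInvariant]
    (S : Equiv.Perm Y) (hS : ∀ p : ℤ, Measurable (S ^ p)) (φ : Y → K) (hφ : Measurable φ)
    (ξ : Y → ℕ) (hξ : Measurable ξ) (y : Y) (x : K) (hy : Fresh2 S ξ y)
    {ι : Type*} [DecidableEq ι] (J : Finset ι) (hJ : J.Nonempty) (τ : ι → ℤ) (k R : ℕ) (hR : 2 * R ≤ Lk k)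
    (hτ : ∀ l ∈ J, |τ l| ≤ (R : ℤ))
    (h0 : ∀ l ∈ J, ((2 * 2 ^ k : ℕ) : ℤ) < |τ l|)
    (h1 : ∀ l ∈ J, ∀ l' ∈ J, l ≠ l' → ((2 * 2 ^ k : ℕ) : ℤ) < |τ l - τ l'|)
    (G : ι → K → ℂ) (hG : ∀ l, Measurable (G l)) (C : ℝ) (hC : 1 ≤ C) (hGb : ∀ l κ, ‖G l κ‖ ≤ C)
    (hG0 : ∀ l ∈ J, ∫ κ, G l κ ∂ρ = 0) :
    ∫ θ, ∏ l ∈ J, G l (xz S (cc φ ξ θ) y x (τ l)) ∂(Measure.infinitePi (fun _ : ℕ => ρ)) = 0 := by
  obtain ⟨l0, hl0, a, ha⟩ := pick J hJ τ (2 * 2 ^ k) h0 h1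
  obtain ⟨t, ht1, ht2, ht3⟩ := hy k a
  obtain ⟨hta, htb⟩ := ha t ht1 (by push_cast; exact ht2)
  have htR : |t| ≤ (R : ℤ) := by
    have := hτ l0 hl0
    rw [abs_le] at this ⊢
    omega
  have hfresh : ∀ s : ℤ, |s| ≤ (R : ℤ) → s ≠ t → ξ ((S ^ s) y) ≠ ξ ((S ^ t) y) := by
    intro s hs hst
    refine ht3 s hst ?_
    rw [abs_le] at hs htR ⊢
    omega
  have hm : ∀ q, Measurable (fun θ : ℕ → K => xz S (cc φ ξ θ) y x q) := fun q => by
    have h1 : Measurable (fun θ : ℕ → K => (θ, (y, x))) := measurable_id.prodMk measurable_const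
    exact (meas_xz S hS φ hφ ξ hξ q).comp h1
  have hC0 : 0 ≤ C := by linarith
  have hsplit : ∀ θ : ℕ → K, ∏ l ∈ J, G l (xz S (cc φ ξ θ) y x (τ l)) =
      G l0 (xz S (cc φ ξ θ) y x (τ l0)) * ∏ l ∈ J.erase l0, G l (xz S (cc φ ξ θ) y x (τ l)) := by
    intro θ
    rw [Finset.mul_prod_erase J (fun l => G l (xz S (cc φ ξ θ) y x (τ l))) hl0]
  simp only [hsplit]
  refine integral_resample ρ (ξ ((S ^ t) y)) (fun θ => G l0 (xz S (cc φ ξ θ) y x (τ l0)))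
    (fun θ => ∏ l ∈ J.erase l0, G l (xz S (cc φ ξ θ) y x (τ l))) ((hG l0).comp (hm _))
    (Finset.measurable_fun_prod _ fun l _ => (hG l).comp (hm _)) (C ^ (J.card + 1)) ?_ ?_ ?_ ?_
  · intro θ
    refine (hGb _ _).trans ?_
    calc C = C ^ 1 := (pow_one C).symm
      _ ≤ C ^ (J.card + 1) := pow_le_pow_right₀ hC (by omega)
  · intro θ
    rw [norm_prod]
    calc ∏ l ∈ J.erase l0, ‖G l (xz S (cc φ ξ θ) y x (τ l))‖ ≤ ∏ _l ∈ J.erase l0, C :=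
          Finset.prod_le_prod (fun _ _ => norm_nonneg _) fun l _ => hGb l _
      _ = C ^ (J.erase l0).card := by rw [Finset.prod_const]
      _ ≤ C ^ (J.card + 1) := pow_le_pow_right₀ hC (by have := Finset.card_le_card (Finset.erase_subset l0 J); omega)
  · intro θ κ
    refine Finset.prod_congr rfl fun l hl => ?_
    rw [Finset.mem_erase] at hl
    have hl1 := hτ l hl.2
    rw [abs_le] at hl1
    obtain ⟨h3, h4⟩ := htb l hl.2 hl.1
    rw [dep S φ ξ θ _ κ y x (τ l) (fun s hs1 hs2 => hfresh s (by rw [abs_le]; omega) (by omega))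
      (fun s hs1 hs2 => hfresh s (by rw [abs_le]; omega) (by omega))]
  · intro θ
    have hl1 := hτ l0 hl0
    rw [abs_le] at hl1
    obtain ⟨A, B, hAB⟩ := once S φ ξ θ y x t (τ l0) hta
      (fun s hs1 hs2 hs3 => hfresh s (by rw [abs_le]; omega) hs3)
      (fun s hs1 hs2 hs3 => hfresh s (by rw [abs_le]; omega) hs3)
    rcases hAB with h | h
    · simp only [h]
      rw [integral_two_sided ρ (G l0) A B, hG0 l0 hl0]
    · simp only [h]
      rw [integral_two_sided_inv ρ (G l0) (hG l0) C (hGb l0) A B, hG0 l0 hl0]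

end Pool.Agent.R205.PC
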