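import Pool.Agent.R205.PC.Z2

/-!
# Second moments over finite sets of times, and almost everywhere convergence along a countable family
-/

set_option autoImplicit false

open MeasureTheory Filter Topology Set Finset
open scoped ENNReal ComplexConjugate

namespace Pool.Agent.R205.PC

section Prob

variable {Ω : Type*} [MeasurableSpace Ω] (Q : Measure Ω) [IsProbabilityMeasure Q]

lemma moment_le {ι : Type*} (B : Finset ι) (Ψ : ι → Ω → ℂ) (hΨ : ∀ m, Measurable (Ψ m)) (C : ℝ)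
    (hC : ∀ m ω, ‖Ψ m ω‖ ≤ C) (bad : ι → ι → Prop) [∀ p : ι × ι, Decidable (bad p.1 p.2)]
    (horth : ∀ m ∈ B, ∀ m' ∈ B, ¬ bad m m' → ∫ ω, Ψ m ω * conj (Ψ m' ω) ∂Q = 0) :
    ∫ ω, ‖∑ m ∈ B, Ψ m ω‖ ^ 2 ∂Q ≤ C ^ 2 * #((B ×ˢ B).filter fun p => bad p.1 p.2) := by
  by_cases hne : Nonempty ι
  swap
  · have : B = ∅ := by
      rw [Finset.eq_empty_iff_forall_notMem]
      intro m _
      exact hne ⟨m⟩
    subst this
    simp
  obtain ⟨m0⟩ := hne
  have hC0 : 0 ≤ C := (norm_nonneg _).trans (hC m0 (Classical.choice (nonempty_of_isProbabilityMeasure Q)))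
  have hint : ∀ n n', Integrable (fun ω => Ψ n ω * conj (Ψ n' ω)) Q := by
    intro n n'
    refine Integrable.of_bound ((hΨ n).mul ((Complex.continuous_conj.measurable).comp (hΨ n'))).aestronglyMeasurable (C * C) ?_
    filter_upwards with ω
    rw [norm_mul, Complex.norm_conj]
    exact mul_le_mul (hC n ω) (hC n' ω) (norm_nonneg _) hC0
  have hbd : ∀ n n', ‖∫ ω, Ψ n ω * conj (Ψ n' ω) ∂Q‖ ≤ C ^ 2 := by
    intro n n'
    have h1 : ∀ᵐ ω ∂Q, ‖Ψ n ω * conj (Ψ n' ω)‖ ≤ C ^ 2 := by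
      filter_upwards with ω
      rw [norm_mul, Complex.norm_conj, sq]
      exact mul_le_mul (hC n ω) (hC n' ω) (norm_nonneg _) hC0
    have := norm_integral_le_of_norm_le_const h1
    simpa using this
  have key : ((∫ ω, ‖∑ n ∈ B, Ψ n ω‖ ^ 2 ∂Q : ℝ) : ℂ) =
      ∑ p ∈ B ×ˢ B, ∫ ω, Ψ p.1 ω * conj (Ψ p.2 ω) ∂Q := by
    rw [← integral_complex_ofReal]
    have h1 : ∀ ω, (((‖∑ n ∈ B, Ψ n ω‖ ^ 2 : ℝ)) : ℂ) = ∑ p ∈ B ×ˢ B, Ψ p.1 ω * conj (Ψ p.2 ω) := by
      intro ω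
      rw [Complex.ofReal_pow, ← Complex.mul_conj', map_sum, Finset.sum_mul_sum, Finset.sum_product]
    simp only [h1]
    rw [integral_finsetSum _ fun p _ => hint _ _]
  have hnn : 0 ≤ ∫ ω, ‖∑ n ∈ B, Ψ n ω‖ ^ 2 ∂Q := integral_nonneg fun ω => by positivity
  calc ∫ ω, ‖∑ n ∈ B, Ψ n ω‖ ^ 2 ∂Q = ‖((∫ ω, ‖∑ n ∈ B, Ψ n ω‖ ^ 2 ∂Q : ℝ) : ℂ)‖ := by
        rw [Complex.norm_real, Real.norm_eq_abs, abs_of_nonneg hnn]
    _ = ‖∑ p ∈ B ×ˢ B, ∫ ω, Ψ p.1 ω * conj (Ψ p.2 ω) ∂Q‖ := by rw [key]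
    _ ≤ ∑ p ∈ B ×ˢ B, ‖∫ ω, Ψ p.1 ω * conj (Ψ p.2 ω) ∂Q‖ := norm_sum_le _ _
    _ ≤ ∑ p ∈ B ×ˢ B, (if bad p.1 p.2 then C ^ 2 else 0) := by
        refine Finset.sum_le_sum fun p hp => ?_
        rw [Finset.mem_product] at hp
        split_ifs with h
        · exact hbd _ _
        · rw [horth _ hp.1 _ hp.2 h, norm_zero]
    _ = C ^ 2 * #((B ×ˢ B).filter fun p => bad p.1 p.2) := by
        rw [← Finset.sum_filter, Finset.sum_const, nsmul_eq_mul, mul_comm]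

lemma ae_cofinite {I : Type*} [Countable I] (A : I → Ω → ℂ) (hA : ∀ r, Measurable (A r)) (C : I → ℝ)
    (hb : ∀ r ω, ‖A r ω‖ ≤ C r) (e : I → ℝ) (he : Summable e) (h : ∀ r, ∫ ω, ‖A r ω‖ ^ 2 ∂Q ≤ e r) :
    ∀ᵐ ω ∂Q, Tendsto (fun r => A r ω) cofinite (𝓝 0) := by
  have hG : ∀ r, Measurable (fun ω => ‖A r ω‖ ^ 2) := fun r => (hA r).norm.pow_const 2
  have hsum : ∑' r, ∫⁻ ω, ENNReal.ofReal (‖A r ω‖ ^ 2) ∂Q ≠ ∞ := by
    refine ne_top_of_le_ne_top he.tsum_ofReal_ne_top ?_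
    refine ENNReal.tsum_le_tsum fun r => ?_
    rw [← ofReal_integral_eq_lintegral_ofReal]
    · exact ENNReal.ofReal_le_ofReal (h r)
    · refine Integrable.of_bound (hG r).aestronglyMeasurable (C r ^ 2) ?_
      filter_upwards with ω
      rw [Real.norm_eq_abs, abs_of_nonneg (by positivity)]
      exact pow_le_pow_left₀ (norm_nonneg _) (hb r ω) 2
    · filter_upwards with ω
      simp only [Pi.zero_apply]
      positivity
  have hae : ∀ᵐ ω ∂Q, ∑' r, ENNReal.ofReal (‖A r ω‖ ^ 2) < ∞ := by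
    refine ae_lt_top ?_ ?_
    · exact Measurable.tsum fun r => (hG _).ennreal_ofReal
    · rw [lintegral_tsum fun r => ((hG _).ennreal_ofReal).aemeasurable]
      exact hsum
  filter_upwards [hae] with ω hω
  have h1 := ENNReal.tendsto_cofinite_zero_of_tsum_ne_top hω.ne
  have h2 : Tendsto (fun r => ‖A r ω‖ ^ 2) cofinite (𝓝 0) := by
    have h3 := (ENNReal.tendsto_toReal ENNReal.zero_ne_top).comp h1
    simp only [ENNReal.toReal_zero] at h3
    refine h3.congr fun r => ?_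
    simp only [Function.comp]
    rw [ENNReal.toReal_ofReal (by positivity)]
  rw [tendsto_zero_iff_norm_tendsto_zero]
  have h5 := (Real.continuous_sqrt.tendsto 0).comp h2
  rw [Real.sqrt_zero] at h5
  refine h5.congr fun r => ?_
  simp only [Function.comp]
  rw [Real.sqrt_sq (norm_nonneg _)]

end Prob

/-- the pair `(m, m')` is bad at the scale `W` -/
def Bad {M : Type*} {n : ℕ} (P : Fin n → M → ℤ) (W : ℕ) (m m' : M) : Prop :=
  (∃ j, |P j m| ≤ (W : ℤ)) ∨ (∃ j, |P j m'| ≤ (W : ℤ)) ∨ (∃ i j, i ≠ j ∧ |P i m - P j m| ≤ (W : ℤ)) ∨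
  (∃ i j, i ≠ j ∧ |P i m' - P j m'| ≤ (W : ℤ)) ∨ (∃ i j, |P i m - P j m'| ≤ (W : ℤ))

variable {Y K : Type*} [MeasurableSpace Y] [Group K] [MeasurableSpace K] [MeasurableMul₂ K] [MeasurableInv K]

/-- orthogonality of the terms of a pair which is not bad -/
theorem orth_pair (ρ : Measure K) [IsProbabilityMeasure ρ] [ρ.IsMulLeftInvariant] [ρ.IsMulRightInvariant]
    (S : Equiv.Perm Y) (hS : ∀ p : ℤ, Measurable (S ^ p)) (φ : Y → K) (hφ : Measurable φ)
    (ξ : Y → ℕ) (hξ : Measurable ξ) (y : Y) (x : K) (hy : Fresh2 S ξ y)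
    {M : Type*} {n : ℕ} (P : Fin n → M → ℤ) (k R : ℕ) (hR : 2 * R ≤ Lk k) (m m' : M)
    (hPm : ∀ j, |P j m| ≤ (R : ℤ)) (hPm' : ∀ j, |P j m'| ≤ (R : ℤ)) (hbad : ¬ Bad P (2 * 2 ^ k) m m')
    (g : Fin n → M → Y × K → ℂ) (hg : ∀ j m, Measurable (g j m)) (C : ℝ) (hC : 1 ≤ C) (hgb : ∀ j m z, ‖g j m z‖ ≤ C)
    (hg0 : ∀ j m y, ∫ κ, g j m (y, κ) ∂ρ = 0) (s : Finset (Fin n)) (hs : s.Nonempty) (b b' : ℂ) :
    ∫ θ, (b * ∏ j ∈ s, g j m ((S ^ P j m) y, xz S (cc φ ξ θ) y x (P j m))) *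
      conj (b' * ∏ j ∈ s, g j m' ((S ^ P j m') y, xz S (cc φ ξ θ) y x (P j m'))) ∂(Measure.infinitePi (fun _ : ℕ => ρ)) = 0 := by
  classical
  unfold Bad at hbad
  push Not at hbad
  obtain ⟨h1, h2, h3, h4, h5⟩ := hbad
  set τ : Fin n ⊕ Fin n → ℤ := Sum.elim (fun j => P j m) (fun j => P j m') with hτ
  set G : Fin n ⊕ Fin n → K → ℂ := Sum.elim (fun j κ => g j m ((S ^ P j m) y, κ))
    (fun j κ => conj (g j m' ((S ^ P j m') y, κ))) with hG
  have key := orth ρ S hS φ hφ ξ hξ y x hy (s.disjSum s) (by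
      obtain ⟨j, hj⟩ := hs
      exact ⟨Sum.inl j, Finset.inl_mem_disjSum.2 hj⟩) τ k R hR ?_ ?_ ?_ G ?_ C hC ?_ ?_
  · have e1 : ∀ θ : ℕ → K, (b * ∏ j ∈ s, g j m ((S ^ P j m) y, xz S (cc φ ξ θ) y x (P j m))) *
        conj (b' * ∏ j ∈ s, g j m' ((S ^ P j m') y, xz S (cc φ ξ θ) y x (P j m'))) =
        (b * conj b') * ∏ l ∈ s.disjSum s, G l (xz S (cc φ ξ θ) y x (τ l)) := by
      intro θ
      rw [Finset.prod_disjSum, map_mul, map_prod]
      simp only [hG, hτ, Sum.elim_inl, Sum.elim_inr]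
      ring
    simp only [e1]
    rw [integral_const_mul, key, mul_zero]
  · intro l _
    rcases l with j | j
    · exact hPm j
    · exact hPm' j
  · intro l _
    rcases l with j | j
    · exact h1 j
    · exact h2 j
  · intro l _ l' _ hne
    rcases l with j | j <;> rcases l' with i | i
    · exact h3 j i (fun h => hne (by rw [h]))
    · exact h5 j i
    · simp only [hτ, Sum.elim_inl, Sum.elim_inr]
      rw [abs_sub_comm]
      exact h5 i j
    · exact h4 j i (fun h => hne (by rw [h]))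
  · intro l
    rcases l with j | j
    · exact (hg j m).comp (measurable_const.prodMk measurable_id)
    · exact Complex.continuous_conj.measurable.comp ((hg j m').comp (measurable_const.prodMk measurable_id))
  · intro l κ
    rcases l with j | j
    · exact hgb j m _
    · simp only [hG, Sum.elim_inr]
      rw [Complex.norm_conj]
      exact hgb j m' _
  · intro l _
    rcases l with j | j
    · exact hg0 j m _
    · simp only [hG, Sum.elim_inr]
      rw [integral_conj, hg0 j m', map_zero]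

/-- the difference of the sums over the finite set `B`, divided by `V` -/
noncomputable def dq (ρ : Measure K) (S : Equiv.Perm Y) (c : Y → K) {n : ℕ} {M : Type*} (P : Fin n → M → ℤ)
    (f : Fin n → M → Y × K → ℂ) (V : ℝ) (B : Finset M) (z : Y × K) : ℂ :=
  (V : ℂ)⁻¹ * ∑ m ∈ B, (∏ j, f j m ((skp S c ^ P j m) z) - ∏ j, fm ρ (f j m) ((S ^ P j m) z.1))

theorem grid_pointwise (ρ : Measure K) [IsProbabilityMeasure ρ] [ρ.IsMulLeftInvariant] [ρ.IsMulRightInvariant]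
    (S : Equiv.Perm Y) (hS : ∀ p : ℤ, Measurable (S ^ p)) (φ : Y → K) (hφ : Measurable φ)
    (ξ : Y → ℕ) (hξ : Measurable ξ) (y : Y) (x : K) (hy : Fresh2 S ξ y)
    {M : Type*} {n : ℕ} (P : Fin n → M → ℤ) {I : Type*} [Countable I] (B : I → Finset M) (V : I → ℝ)
    (hV : ∀ r, 0 < V r) (kk RR : I → ℕ) (hR : ∀ r, 2 * RR r ≤ Lk (kk r))
    (hP : ∀ r, ∀ m ∈ B r, ∀ j, |P j m| ≤ (RR r : ℤ)) (e : I → ℝ) (he : Summable e)
    [∀ W : ℕ, ∀ p : M × M, Decidable (Bad P W p.1 p.2)]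
    (hcount : ∀ r, (#((B r ×ˢ B r).filter fun p => Bad P (2 * 2 ^ kk r) p.1 p.2) : ℝ) ≤ e r * V r ^ 2)
    (f : Fin n → M → Y × K → ℂ) (hf : ∀ j m, Measurable (f j m)) (hfb : ∃ C, ∀ j m z, ‖f j m z‖ ≤ C) :
    ∀ᵐ θ ∂(Measure.infinitePi (fun _ : ℕ => ρ)),
      Tendsto (fun r => dq ρ S (cc φ ξ θ) P f (V r) (B r) (y, x)) cofinite (𝓝 0) := by
  classical
  obtain ⟨C0, hC0⟩ := hfb
  set C := max C0 1 with hC
  have hC1 : 1 ≤ C := le_max_right _ _
  have hCf : ∀ j m z, ‖f j m z‖ ≤ C := fun j m z => (hC0 j m z).trans (le_max_left _ _)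
  set g : Fin n → M → Y × K → ℂ := fun j m z => f j m z - fm ρ (f j m) z.1 with hg
  have hgm : ∀ j m, Measurable (g j m) := fun j m =>
    (hf j m).sub ((fm_meas ρ (f j m) (hf j m)).comp measurable_fst)
  have hgb : ∀ j m z, ‖g j m z‖ ≤ 2 * C := fun j m z => by
    calc ‖f j m z - fm ρ (f j m) z.1‖ ≤ ‖f j m z‖ + ‖fm ρ (f j m) z.1‖ := norm_sub_le _ _
      _ ≤ C + C := add_le_add (hCf j m z) (fm_bound ρ (f j m) C (hCf j m) _)
      _ = 2 * C := by ring
  have hint : ∀ j m y, Integrable (fun κ => f j m (y, κ)) ρ := fun j m y =>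
    Integrable.of_bound ((hf j m).comp (measurable_const.prodMk measurable_id)).aestronglyMeasurable C
      (Filter.Eventually.of_forall fun κ => hCf j m _)
  have hg0 : ∀ j m y, ∫ κ, g j m (y, κ) ∂ρ = 0 := by
    intro j m y'
    change ∫ κ, f j m (y', κ) - fm ρ (f j m) y' ∂ρ = 0
    rw [integral_sub (hint j m y') (integrable_const _), integral_const]
    simp [fm]
  set Ψ : Finset (Fin n) → M → (ℕ → K) → ℂ := fun s m θ => (∏ j ∈ (Finset.univ : Finset (Fin n)) \ s, fm ρ (f j m) ((S ^ P j m) y)) *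
    ∏ j ∈ s, g j m ((S ^ P j m) y, xz S (cc φ ξ θ) y x (P j m)) with hΨ
  have hm : ∀ q, Measurable (fun θ : ℕ → K => xz S (cc φ ξ θ) y x q) := fun q => by
    have h1 : Measurable (fun θ : ℕ → K => (θ, (y, x))) := measurable_id.prodMk measurable_const
    exact (meas_xz S hS φ hφ ξ hξ q).comp h1
  have hΨm : ∀ s m, Measurable (Ψ s m) := by
    intro s m
    exact measurable_const.mul (Finset.measurable_fun_prod _ fun j _ => (hgm j m).comp (measurable_const.prodMk (hm _)))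
  set D : ℝ := (2 * C) ^ n * (2 * C) ^ n with hD
  have h2C : 1 ≤ 2 * C := by linarith
  have hΨb : ∀ s m θ, ‖Ψ s m θ‖ ≤ D := by
    intro s m θ
    simp only [hΨ]
    rw [norm_mul, norm_prod, norm_prod]
    refine mul_le_mul ?_ ?_ (Finset.prod_nonneg fun _ _ => norm_nonneg _) (by positivity)
    · calc ∏ j ∈ (Finset.univ : Finset (Fin n)) \ s, ‖fm ρ (f j m) ((S ^ P j m) y)‖ ≤ ∏ _j ∈ (Finset.univ : Finset (Fin n)) \ s, (2 * C) :=
            Finset.prod_le_prod (fun _ _ => norm_nonneg _) fun j _ =>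
              (fm_bound ρ (f j m) C (hCf j m) _).trans (by linarith)
        _ = (2 * C) ^ ((Finset.univ : Finset (Fin n)) \ s).card := by rw [Finset.prod_const]
        _ ≤ (2 * C) ^ n := pow_le_pow_right₀ h2C (by
            have := Finset.card_le_univ ((Finset.univ : Finset (Fin n)) \ s)
            rwa [Fintype.card_fin] at this)
    · calc ∏ j ∈ s, ‖g j m ((S ^ P j m) y, xz S (cc φ ξ θ) y x (P j m))‖ ≤ ∏ _j ∈ s, (2 * C) :=
            Finset.prod_le_prod (fun _ _ => norm_nonneg _) fun j _ => hgb j m _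
        _ = (2 * C) ^ s.card := by rw [Finset.prod_const]
        _ ≤ (2 * C) ^ n := pow_le_pow_right₀ h2C (by
            have := Finset.card_le_univ s
            rwa [Fintype.card_fin] at this)
  have key : ∀ s : Finset (Fin n), s.Nonempty → ∀ᵐ θ ∂(Measure.infinitePi (fun _ : ℕ => ρ)),
      Tendsto (fun r => (V r : ℂ)⁻¹ * ∑ m ∈ B r, Ψ s m θ) cofinite (𝓝 0) := by
    intro s hs
    refine ae_cofinite _ (fun r θ => (V r : ℂ)⁻¹ * ∑ m ∈ B r, Ψ s m θ)
      (fun r => measurable_const.mul (Finset.measurable_fun_sum _ fun m _ => hΨm s m))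
      (fun r => (V r)⁻¹ * ((B r).card * D)) ?_ (fun r => D ^ 2 * e r) (he.mul_left _) ?_
    · intro r θ
      rw [norm_mul, norm_inv, Complex.norm_real, Real.norm_eq_abs, abs_of_pos (hV r)]
      have hVr := (hV r)
      gcongr
      refine (norm_sum_le_of_le _ fun m _ => hΨb s m θ).trans ?_
      rw [Finset.sum_const, nsmul_eq_mul]
    · intro r
      have hVr := hV r
      have h1 := moment_le (Measure.infinitePi (fun _ : ℕ => ρ)) (B r) (Ψ s) (hΨm s) D (hΨb s)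
        (Bad P (2 * 2 ^ kk r)) (by
          intro m hm' m' hm'' hb
          exact orth_pair ρ S hS φ hφ ξ hξ y x hy P (kk r) (RR r) (hR r) m m' (hP r m hm') (hP r m' hm'') hb g hgm
            (2 * C) h2C hgb hg0 s hs _ _)
      have h2 : ∀ θ : ℕ → K, ‖(V r : ℂ)⁻¹ * ∑ m ∈ B r, Ψ s m θ‖ ^ 2 = ((V r) ^ 2)⁻¹ * ‖∑ m ∈ B r, Ψ s m θ‖ ^ 2 := by
        intro θ
        rw [norm_mul, mul_pow, norm_inv, Complex.norm_real, Real.norm_eq_abs, abs_of_pos hVr, inv_pow]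
      simp only [h2]
      rw [integral_const_mul]
      calc ((V r) ^ 2)⁻¹ * ∫ θ, ‖∑ m ∈ B r, Ψ s m θ‖ ^ 2 ∂(Measure.infinitePi (fun _ : ℕ => ρ))
          ≤ ((V r) ^ 2)⁻¹ * (D ^ 2 * (e r * V r ^ 2)) := by
            gcongr
            exact h1.trans (mul_le_mul_of_nonneg_left (hcount r) (by positivity))
        _ = D ^ 2 * e r := by field_simp
  have hall : ∀ᵐ θ ∂(Measure.infinitePi (fun _ : ℕ => ρ)), ∀ s : Finset (Fin n), s.Nonempty →
      Tendsto (fun r => (V r : ℂ)⁻¹ * ∑ m ∈ B r, Ψ s m θ) cofinite (𝓝 0) := by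
    rw [ae_all_iff]
    intro s
    by_cases hs : s.Nonempty
    · filter_upwards [key s hs] with θ hθ _
      exact hθ
    · filter_upwards with θ h
      exact absurd h hs
  filter_upwards [hall] with θ hθ
  have hsum : Tendsto (fun r => ∑ s ∈ (univ : Finset (Fin n)).powerset.erase ∅, (V r : ℂ)⁻¹ * ∑ m ∈ B r, Ψ s m θ)
      cofinite (𝓝 0) := by
    have := tendsto_finsetSum ((univ : Finset (Fin n)).powerset.erase ∅) fun s hs =>
      hθ s (Finset.nonempty_iff_ne_empty.2 (Finset.mem_erase.1 hs).1)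
    simpa using this
  refine hsum.congr fun r => ?_
  unfold dq
  rw [← Finset.mul_sum, Finset.sum_comm]
  congr 1
  refine Finset.sum_congr rfl fun m _ => ?_
  have e1 : ∏ j, f j m ((skp S (cc φ ξ θ) ^ P j m) (y, x)) =
      ∏ j, (g j m ((S ^ P j m) y, xz S (cc φ ξ θ) y x (P j m)) + fm ρ (f j m) ((S ^ P j m) y)) := by
    refine Finset.prod_congr rfl fun j _ => ?_
    rw [skp_eq]
    simp [hg]
  rw [e1, Finset.prod_add]
  have hmem : (∅ : Finset (Fin n)) ∈ (univ : Finset (Fin n)).powerset := Finset.empty_mem_powerset _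
  rw [← Finset.add_sum_erase _ _ hmem]
  simp only [Finset.prod_empty, one_mul, Finset.sdiff_empty, add_sub_cancel_left]
  refine Finset.sum_congr rfl fun s _ => ?_
  simp only [hΨ]
  rw [mul_comm]

lemma meas_dq (ρ : Measure K) [IsProbabilityMeasure ρ]
    (S : Equiv.Perm Y) (hS : ∀ p : ℤ, Measurable (S ^ p)) (φ : Y → K) (hφ : Measurable φ)
    (ξ : Y → ℕ) (hξ : Measurable ξ) {M : Type*} {n : ℕ} (P : Fin n → M → ℤ)
    (f : Fin n → M → Y × K → ℂ) (hf : ∀ j m, Measurable (f j m)) (V : ℝ) (B : Finset M) :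
    Measurable (fun w : (ℕ → K) × (Y × K) => dq ρ S (cc φ ξ w.1) P f V B w.2) := by
  unfold dq
  refine measurable_const.mul (Finset.measurable_fun_sum _ fun m _ => ?_)
  refine Measurable.sub (Finset.measurable_fun_prod _ fun j _ => ?_) (Finset.measurable_fun_prod _ fun j _ => ?_)
  · refine (hf j m).comp ?_
    have h1 : (fun w : (ℕ → K) × (Y × K) => (skp S (cc φ ξ w.1) ^ P j m) w.2) =
        fun w => ((S ^ P j m) w.2.1, xz S (cc φ ξ w.1) w.2.1 w.2.2 (P j m)) := by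
      funext w
      rw [← skp_eq]
    rw [h1]
    exact ((hS _).comp (measurable_fst.comp measurable_snd)).prodMk (meas_xz S hS φ hφ ξ hξ _)
  · exact (fm_meas ρ (f j m) (hf j m)).comp ((hS _).comp (measurable_fst.comp measurable_snd))

lemma cof_cg (I : Type*) [Countable I] : (cofinite : Filter I).IsCountablyGenerated :=
  HasCountableBasis.isCountablyGenerated ⟨hasBasis_cofinite, Set.Countable.setOf_finite⟩

/-- almost every `θ` and almost every point -/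
theorem grid_ae (ρ : Measure K) [IsProbabilityMeasure ρ] [ρ.IsMulLeftInvariant] [ρ.IsMulRightInvariant]
    (μ : Measure Y) [IsProbabilityMeasure μ]
    (S : Equiv.Perm Y) (hS : ∀ p : ℤ, Measurable (S ^ p)) (φ : Y → K) (hφ : Measurable φ)
    (ξ : Y → ℕ) (hξ : Measurable ξ) (hfr : ∀ᵐ y ∂μ, Fresh2 S ξ y)
    {M : Type*} {n : ℕ} (P : Fin n → M → ℤ) {I : Type*} [Countable I] (B : I → Finset M) (V : I → ℝ)
    (hV : ∀ r, 0 < V r) (kk RR : I → ℕ) (hR : ∀ r, 2 * RR r ≤ Lk (kk r))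
    (hP : ∀ r, ∀ m ∈ B r, ∀ j, |P j m| ≤ (RR r : ℤ)) (e : I → ℝ) (he : Summable e)
    [∀ W : ℕ, ∀ p : M × M, Decidable (Bad P W p.1 p.2)]
    (hcount : ∀ r, (#((B r ×ˢ B r).filter fun p => Bad P (2 * 2 ^ kk r) p.1 p.2) : ℝ) ≤ e r * V r ^ 2)
    (f : Fin n → M → Y × K → ℂ) (hf : ∀ j m, Measurable (f j m)) (hfb : ∃ C, ∀ j m z, ‖f j m z‖ ≤ C) :
    ∀ᵐ θ ∂(Measure.infinitePi (fun _ : ℕ => ρ)), ∀ᵐ z ∂(μ.prod ρ),
      Tendsto (fun r => dq ρ S (cc φ ξ θ) P f (V r) (B r) z) cofinite (𝓝 0) := by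
  have hset : MeasurableSet {w : (ℕ → K) × (Y × K) |
      Tendsto (fun r => dq ρ S (cc φ ξ w.1) P f (V r) (B r) w.2) cofinite (𝓝 0)} :=
    have := cof_cg I
    measurableSet_tendsto (𝓝 0) fun r => meas_dq ρ S hS φ hφ ξ hξ P f hf (V r) (B r)
  rw [Measure.ae_ae_comm hset]
  have h1 : ∀ᵐ z ∂(μ.prod ρ), Fresh2 S ξ z.1 := Measure.quasiMeasurePreserving_fst.ae hfr
  filter_upwards [h1] with z hz
  exact grid_pointwise ρ S hS φ hφ ξ hξ z.1 z.2 hz P B V hV kk RR hR hP e he hcount f hf hfb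

end Pool.Agent.R205.PC
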