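import Pool.Agent.R205.PC.Z3

/-!
# Boxes: from a grid to all boxes
-/

set_option autoImplicit false

open MeasureTheory Filter Topology Set Finset
open scoped ENNReal ComplexConjugate

namespace Pool.Agent.R205.PC

section Root

/-- integer part of the `q`-th root -/
def rt (q N : ℕ) : ℕ := Nat.findGreatest (fun r => r ^ q ≤ N) N

lemma rt_pow {q : ℕ} (hq : 0 < q) (N : ℕ) : rt q N ^ q ≤ N := by
  unfold rt
  exact Nat.findGreatest_spec (P := fun r => r ^ q ≤ N) (m := 0) (Nat.zero_le _) (by simp [zero_pow hq.ne'])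

lemma lt_rt {q : ℕ} (hq : 0 < q) (N : ℕ) : N < (rt q N + 1) ^ q := by
  by_contra h
  push Not at h
  have h1 : rt q N + 1 ≤ N := (Nat.le_self_pow hq.ne' _).trans h
  exact Nat.findGreatest_is_greatest (P := fun r => r ^ q ≤ N) (k := rt q N + 1) (by unfold rt; omega) h1 h

lemma rt_tendsto {q : ℕ} (hq : 0 < q) : Tendsto (rt q) atTop atTop := by
  refine tendsto_atTop.2 fun b => ?_
  filter_upwards [eventually_ge_atTop (b ^ q)] with N hN
  by_contra hlt
  push Not at hlt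
  have h1 := lt_rt hq N
  have h2 : (rt q N + 1) ^ q ≤ b ^ q := Nat.pow_le_pow_left hlt q
  omega

lemma rt_ratio {q : ℕ} (hq : 0 < q) : Tendsto (fun N : ℕ => ((rt q N ^ q : ℕ) : ℝ) / N) atTop (𝓝 1) := by
  have h1 : Tendsto (fun r : ℕ => ((r : ℝ) / (r + 1)) ^ q) atTop (𝓝 1) := by
    have h2 : Tendsto (fun r : ℕ => (r : ℝ) / (r + 1)) atTop (𝓝 1) := tendsto_natCast_div_add_atTop 1
    simpa using h2.pow q
  refine tendsto_of_tendsto_of_tendsto_of_le_of_le' (h1.comp (rt_tendsto hq)) tendsto_const_nhds ?_ ?_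
  · filter_upwards [eventually_ge_atTop 1] with N hN
    simp only [Function.comp]
    have hN0 : (0 : ℝ) < N := by exact_mod_cast hN
    have h3 : (N : ℝ) ≤ ((rt q N : ℝ) + 1) ^ q := by exact_mod_cast (lt_rt hq N).le
    rw [div_pow]
    push_cast
    gcongr
  · filter_upwards [eventually_ge_atTop 1] with N hN
    have hN0 : (0 : ℝ) < N := by exact_mod_cast hN
    rw [div_le_one hN0]
    exact_mod_cast rt_pow hq N

end Root

/-- the box `[1, M_1] × ⋯ × [1, M_k]` -/
abbrev box {k : ℕ} (M : Fin k → ℕ) : Finset (Fin k → ℕ) := Fintype.piFinset fun l => Finset.Icc 1 (M l)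

lemma card_box {k : ℕ} (M : Fin k → ℕ) : (box M).card = ∏ l, M l := by
  unfold box
  rw [Fintype.card_piFinset]
  simp

/-- the grid point below `M` -/
def gp {k : ℕ} (q : ℕ) (M : Fin k → ℕ) : Fin k → ℕ := fun l => rt q (M l) ^ q

lemma gp_le {k : ℕ} {q : ℕ} (hq : 0 < q) (M : Fin k → ℕ) : gp q M ≤ M := fun l => rt_pow hq (M l)

lemma tendsto_coord {k : ℕ} {F : Filter (Fin k → ℕ)} (hF : F ≤ atTop) (l : Fin k) :
    Tendsto (fun M : Fin k → ℕ => M l) F atTop := by
  refine Tendsto.mono_left ?_ hF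
  refine tendsto_atTop.2 fun b => ?_
  filter_upwards [eventually_ge_atTop (fun _ : Fin k => b)] with M hM
  exact hM l

lemma tendsto_of_coord {k : ℕ} {α : Type*} {F : Filter α} (u : α → Fin k → ℕ)
    (h : ∀ l, Tendsto (fun a => u a l) F atTop) : Tendsto u F atTop := by
  refine tendsto_atTop.2 fun b => ?_
  have : ∀ᶠ a in F, ∀ l, b l ≤ u a l := eventually_all.2 fun l => (tendsto_atTop.1 (h l)) (b l)
  filter_upwards [this] with a ha l
  exact ha l

theorem grid_to_full {k : ℕ} {q : ℕ} (hq : 0 < q) {F : Filter (Fin k → ℕ)} (hF : F ≤ atTop)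
    (u : (Fin k → ℕ) → ℂ) (C : ℝ) (hu : ∀ m, ‖u m‖ ≤ C)
    (h : Tendsto (fun M => (∏ l, ((gp q M l : ℕ) : ℂ))⁻¹ * ∑ m ∈ box (gp q M), u m) F (𝓝 0)) :
    Tendsto (fun M => (∏ l, (M l : ℂ))⁻¹ * ∑ m ∈ box M, u m) F (𝓝 0) := by
  have hC : 0 ≤ C := (norm_nonneg _).trans (hu 0)
  have hratio : Tendsto (fun M : Fin k → ℕ => ∏ l, (((gp q M l : ℕ) : ℝ) / M l)) F (𝓝 1) := by
    have h1 : ∀ l : Fin k, Tendsto (fun M : Fin k → ℕ => ((gp q M l : ℕ) : ℝ) / M l) F (𝓝 1) := by
      intro l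
      exact (rt_ratio hq).comp (tendsto_coord hF l)
    have := tendsto_finsetProd (Finset.univ : Finset (Fin k)) fun l _ => h1 l
    simpa using this
  have hlim : Tendsto (fun M : Fin k → ℕ => ‖(∏ l, ((gp q M l : ℕ) : ℂ))⁻¹ * ∑ m ∈ box (gp q M), u m‖ +
      C * (1 - ∏ l, (((gp q M l : ℕ) : ℝ) / M l))) F (𝓝 0) := by
    have h2 := (tendsto_zero_iff_norm_tendsto_zero.1 h).add ((hratio.const_sub 1).const_mul C)
    simpa using h2
  refine squeeze_zero_norm' ?_ hlim
  have hpos : ∀ᶠ M in F, ∀ l, 1 ≤ M l := eventually_all.2 fun l => (tendsto_coord hF l).eventually_ge_atTop 1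
  filter_upwards [hpos] with M hM
  have hM0 : ∀ l, (0 : ℝ) < M l := fun l => by exact_mod_cast hM l
  have hr1 : ∀ l, 1 ≤ rt q (M l) := by
    intro l
    by_contra hcon
    have h0 : rt q (M l) = 0 := by omega
    have := lt_rt hq (M l)
    rw [h0] at this
    have := hM l
    simp at *
    omega
  have hg0 : ∀ l, (0 : ℝ) < (gp q M l : ℕ) := fun l => by
    have : 0 < gp q M l := Nat.pow_pos (by have := hr1 l; omega)
    exact_mod_cast this
  set V : ℝ := ∏ l, (M l : ℝ) with hV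
  set V' : ℝ := ∏ l, ((gp q M l : ℕ) : ℝ) with hV'
  have hVpos : 0 < V := Finset.prod_pos fun l _ => hM0 l
  have hV'pos : 0 < V' := Finset.prod_pos fun l _ => hg0 l
  have hVV' : V' ≤ V := Finset.prod_le_prod (fun l _ => (hg0 l).le) fun l _ => by
    exact_mod_cast gp_le hq M l
  have hsub : box (gp q M) ⊆ box M := by
    intro m hm
    rw [Fintype.mem_piFinset] at hm ⊢
    intro l
    have := hm l
    rw [Finset.mem_Icc] at this ⊢
    exact ⟨this.1, this.2.trans (gp_le hq M l)⟩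
  have hsum : ∑ m ∈ box M, u m = ∑ m ∈ box (gp q M), u m + ∑ m ∈ box M \ box (gp q M), u m := by
    rw [add_comm, Finset.sum_sdiff hsub]
  have hrest : ‖∑ m ∈ box M \ box (gp q M), u m‖ ≤ (V - V') * C := by
    refine (norm_sum_le_of_le _ fun m _ => hu m).trans ?_
    rw [Finset.sum_const, nsmul_eq_mul, Finset.card_sdiff_of_subset hsub, card_box, card_box,
      Nat.cast_sub (by
        have := Finset.card_le_card hsub
        rwa [card_box, card_box] at this)]
    push_cast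
    exact le_rfl
  have hnV : ‖(∏ l, (M l : ℂ))⁻¹‖ = V⁻¹ := by
    rw [norm_inv, norm_prod]
    simp [hV]
  have hnV' : ‖(∏ l, ((gp q M l : ℕ) : ℂ))⁻¹‖ = V'⁻¹ := by
    rw [norm_inv, norm_prod]
    simp [hV']
  have hratio' : ∏ l, (((gp q M l : ℕ) : ℝ) / M l) = V' / V := by
    rw [Finset.prod_div_distrib]
  rw [hratio', norm_mul, hnV, norm_mul, hnV', hsum]
  calc V⁻¹ * ‖∑ m ∈ box (gp q M), u m + ∑ m ∈ box M \ box (gp q M), u m‖
      ≤ V⁻¹ * (‖∑ m ∈ box (gp q M), u m‖ + (V - V') * C) := by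
        gcongr
        exact (norm_add_le _ _).trans (add_le_add le_rfl hrest)
    _ = V⁻¹ * ‖∑ m ∈ box (gp q M), u m‖ + C * (1 - V' / V) := by
        field_simp
    _ ≤ V'⁻¹ * ‖∑ m ∈ box (gp q M), u m‖ + C * (1 - V' / V) := by
        gcongr

lemma summable_pi {k : ℕ} (a : ℕ → ℝ) (ha : ∀ n, 0 ≤ a n) (hs : Summable a) :
    Summable (fun r : Fin k → ℕ => ∏ l, a (r l)) := by
  refine summable_of_sum_le (c := (∑' n, a n) ^ k) (fun r => Finset.prod_nonneg fun l _ => ha _) fun u => ?_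
  obtain ⟨N, hN⟩ : ∃ N : ℕ, ∀ r ∈ u, ∀ l, r l < N := by
    refine ⟨(u.sup fun r => Finset.univ.sup r) + 1, fun r hr l => ?_⟩
    have h1 : r l ≤ Finset.univ.sup r := Finset.le_sup (f := r) (Finset.mem_univ l)
    have h2 : Finset.univ.sup r ≤ u.sup fun r => Finset.univ.sup r :=
      Finset.le_sup (f := fun r : Fin k → ℕ => Finset.univ.sup r) hr
    omega
  have hsub : u ⊆ Fintype.piFinset fun _ : Fin k => Finset.range N := by
    intro r hr
    rw [Fintype.mem_piFinset]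
    intro l
    exact Finset.mem_range.2 (hN r hr l)
  calc ∑ r ∈ u, ∏ l, a (r l) ≤ ∑ r ∈ Fintype.piFinset fun _ : Fin k => Finset.range N, ∏ l, a (r l) :=
        Finset.sum_le_sum_of_subset_of_nonneg hsub fun r _ _ => Finset.prod_nonneg fun l _ => ha _
    _ = ∏ _l : Fin k, ∑ n ∈ Finset.range N, a n := by
        rw [Finset.prod_univ_sum]
    _ ≤ ∏ _l : Fin k, ∑' n, a n := by
        refine Finset.prod_le_prod (fun _ _ => Finset.sum_nonneg fun n _ => ha n) fun _ _ => ?_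
        exact hs.sum_le_tsum _ fun n _ => ha n
    _ = (∑' n, a n) ^ k := by
        rw [Finset.prod_const, Finset.card_univ, Fintype.card_fin]

end Pool.Agent.R205.PC
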