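import Pool.Agent.R205.PC.Z4

/-!
# The theorem for boxes with a counting condition
-/

set_option autoImplicit false

open MeasureTheory Filter Topology Set Finset
open scoped ENNReal ComplexConjugate

namespace Pool.Agent.R205.PC

lemma atTop_le_cof {k : ℕ} (hk : 0 < k) : (atTop : Filter (Fin k → ℕ)) ≤ cofinite := by
  rw [Filter.le_cofinite_iff_eventually_ne]
  intro x
  filter_upwards [eventually_ge_atTop (fun l => x l + 1)] with r hr h
  have := hr ⟨0, hk⟩
  rw [h] at this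
  simp at this

lemma scale_le (d s : ℕ) (hs : 4 ^ (2 * d + 1) ≤ s) : 2 * (s + 2) ^ d ≤ Lk (Nat.log 4 s) := by
  set κ := Nat.log 4 s with hκ
  have hκd : 2 * d + 1 ≤ κ := Nat.le_log_of_pow_le (by norm_num) hs
  have h1 : s < 4 ^ (κ + 1) := Nat.lt_pow_succ_log_self (by norm_num) s
  have h2 : s + 2 ≤ 4 ^ (κ + 2) := by
    have : 4 ^ (κ + 2) = 4 * 4 ^ (κ + 1) := by ring
    omega
  calc 2 * (s + 2) ^ d ≤ 4 * (4 ^ (κ + 2)) ^ d := Nat.mul_le_mul (by norm_num) (Nat.pow_le_pow_left h2 d)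
    _ = 4 ^ ((κ + 2) * d + 1) := by rw [← pow_mul, pow_succ, mul_comm]
    _ ≤ 4 ^ ((κ + 1) ^ 2) := by
        apply Nat.pow_le_pow_right (by norm_num)
        nlinarith

lemma window_le (s : ℕ) (hs : 1 ≤ s) : (2 * ((2 * 2 ^ Nat.log 4 s : ℕ) : ℝ) + 1) ≤ 5 * Real.sqrt s := by
  have h1 : 4 ^ Nat.log 4 s ≤ s := Nat.pow_log_le_self 4 (by omega)
  have h2 : ((2 : ℝ) ^ Nat.log 4 s) ≤ Real.sqrt s := by
    apply Real.le_sqrt_of_sq_le
    rw [← pow_mul, mul_comm, pow_mul]
    norm_num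
    exact_mod_cast h1
  have h3 : (1 : ℝ) ≤ Real.sqrt s := by
    rw [Real.one_le_sqrt]; exact_mod_cast hs
  push_cast
  linarith

lemma prod_le_s {k : ℕ} (hk : 0 < k) {A : ℕ} (hA : 0 < A) (r : Fin k → ℕ) (s : ℕ)
    (h : ∀ l, r l ^ (4 * k * A) ≤ s ^ A) : (∏ l, (r l) ^ 4) ≤ s := by
  have h1 : (∏ l, (r l) ^ 4) ^ (k * A) ≤ s ^ (k * A) := by
    calc (∏ l, (r l) ^ 4) ^ (k * A) = ∏ l, (r l) ^ (4 * k * A) := by
          rw [← Finset.prod_pow]
          refine Finset.prod_congr rfl fun l _ => ?_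
          rw [← pow_mul, mul_assoc]
      _ ≤ ∏ _l : Fin k, s ^ A := Finset.prod_le_prod' fun l _ => h l
      _ = s ^ (k * A) := by
          rw [Finset.prod_const, Finset.card_univ, Fintype.card_fin, ← pow_mul, mul_comm]
  exact (Nat.pow_le_pow_iff_left (by positivity)).1 h1

variable {Y K : Type*} [MeasurableSpace Y] [Group K] [MeasurableSpace K] [MeasurableMul₂ K] [MeasurableInv K]

theorem boxes_ae (ρ : Measure K) [IsProbabilityMeasure ρ] [ρ.IsMulLeftInvariant] [ρ.IsMulRightInvariant]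
    (μ : Measure Y) [IsProbabilityMeasure μ]
    (S : Equiv.Perm Y) (hS : ∀ p : ℤ, Measurable (S ^ p)) (φ : Y → K) (hφ : Measurable φ)
    (ξ : Y → ℕ) (hξ : Measurable ξ) (hfr : ∀ᵐ y ∂μ, Fresh2 S ξ y)
    {k n : ℕ} (hk : 0 < k) (P : Fin n → (Fin k → ℕ) → ℤ) (A d : ℕ) (hA : 0 < A) (C0 : ℝ) (hC0 : 0 ≤ C0)
    (𝓜 : Set (Fin k → ℕ)) (s : (Fin k → ℕ) → ℕ) (hs : Tendsto s atTop atTop)
    (hsA : ∀ M ∈ 𝓜, ∀ l, M l ≤ s M ^ A)
    (hgrow : ∀ M ∈ 𝓜, ∀ m ∈ box M, ∀ j, |P j m| ≤ (((s M + 2) ^ d : ℕ) : ℤ))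
    (𝓖 : Set (Fin k → ℕ)) [DecidablePred (· ∈ 𝓖)]
    [∀ W : ℕ, ∀ p : (Fin k → ℕ) × (Fin k → ℕ), Decidable (Bad P W p.1 p.2)]
    (hcount : ∀ M ∈ 𝓜, ∀ W : ℕ,
      (#((((box M).filter (· ∈ 𝓖)) ×ˢ ((box M).filter (· ∈ 𝓖))).filter fun p => Bad P W p.1 p.2) : ℝ) * s M ≤
        C0 * (2 * W + 1) * (∏ l, (M l : ℝ)) ^ 2)
    (hdens : Tendsto (fun M : Fin k → ℕ => (#((box M).filter (· ∉ 𝓖)) : ℝ) / ∏ l, (M l : ℝ)) atTop (𝓝 0))
    (F : Filter (Fin k → ℕ)) (hF : F ≤ atTop) (hFM : ∀ᶠ M in F, gp (4 * k * A) M ∈ 𝓜)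
    (f : Fin n → (Fin k → ℕ) → Y × K → ℂ) (hf : ∀ j m, Measurable (f j m)) (hfb : ∃ C, ∀ j m z, ‖f j m z‖ ≤ C) :
    ∀ᵐ θ ∂(Measure.infinitePi (fun _ : ℕ => ρ)), ∀ᵐ z ∂(μ.prod ρ),
      Tendsto (fun M => dq ρ S (cc φ ξ θ) P f (∏ l, (M l : ℝ)) (box M) z) F (𝓝 0) := by
  classical
  set q := 4 * k * A with hq
  have hq0 : 0 < q := by positivity
  set Mr : (Fin k → ℕ) → (Fin k → ℕ) := fun r l => r l ^ q with hMr
  set In : (Fin k → ℕ) → Prop := fun r => Mr r ∈ 𝓜 ∧ 4 ^ (2 * d + 1) ≤ s (Mr r) ∧ ∀ l, 1 ≤ r l with hIn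
  set B : (Fin k → ℕ) → Finset (Fin k → ℕ) := fun r => if In r then (box (Mr r)).filter (· ∈ 𝓖) else ∅ with hB
  set V : (Fin k → ℕ) → ℝ := fun r => if In r then ∏ l, (Mr r l : ℝ) else 1 with hV
  set RR : (Fin k → ℕ) → ℕ := fun r => if In r then (s (Mr r) + 2) ^ d else 0 with hRR
  set e : (Fin k → ℕ) → ℝ := fun r => 5 * C0 * ∏ l, (4 * (1 / ((r l : ℝ) + 1) ^ 2)) with he
  have hsum : Summable e := by
    refine Summable.mul_left _ ?_
    refine summable_pi (fun n : ℕ => 4 * (1 / ((n : ℝ) + 1) ^ 2)) (fun n => by positivity) ?_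
    refine Summable.mul_left _ ?_
    have := (summable_nat_add_iff 1).2 (Real.summable_one_div_nat_pow.2 (by norm_num : 1 < 2))
    simpa using this
  have he0 : ∀ r, 0 ≤ e r := fun r => by positivity
  have key := grid_ae ρ μ S hS φ hφ ξ hξ hfr P B V ?_ (fun r => Nat.log 4 (s (Mr r))) RR ?_ ?_ e hsum ?_ f hf hfb
  · filter_upwards [key] with θ hθ
    filter_upwards [hθ] with z hz
    -- boundedness of the terms
    obtain ⟨C1, hC1⟩ := hfb
    set C := max C1 0 with hC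
    have hCf : ∀ j m z, ‖f j m z‖ ≤ C := fun j m z => (hC1 j m z).trans (le_max_left _ _)
    have hC0' : 0 ≤ C := le_max_right _ _
    set u : (Fin k → ℕ) → ℂ := fun m =>
      ∏ j, f j m ((skp S (cc φ ξ θ) ^ P j m) z) - ∏ j, fm ρ (f j m) ((S ^ P j m) z.1) with hu
    have hub : ∀ m, ‖u m‖ ≤ C ^ n + C ^ n := by
      intro m
      refine (norm_sub_le _ _).trans (add_le_add ?_ ?_)
      · rw [norm_prod]
        calc ∏ j : Fin n, ‖f j m ((skp S (cc φ ξ θ) ^ P j m) z)‖ ≤ ∏ _j : Fin n, C :=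
              Finset.prod_le_prod (fun _ _ => norm_nonneg _) fun j _ => hCf j m _
          _ = C ^ n := by rw [Finset.prod_const, Finset.card_univ, Fintype.card_fin]
      · rw [norm_prod]
        calc ∏ j : Fin n, ‖fm ρ (f j m) ((S ^ P j m) z.1)‖ ≤ ∏ _j : Fin n, C :=
              Finset.prod_le_prod (fun _ _ => norm_nonneg _) fun j _ => fm_bound ρ (f j m) C (hCf j m) _
          _ = C ^ n := by rw [Finset.prod_const, Finset.card_univ, Fintype.card_fin]
    have hgp : Tendsto (fun M : Fin k → ℕ => gp q M) F atTop :=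
      tendsto_of_coord _ fun l => by
        have h1 : Tendsto (fun M : Fin k → ℕ => rt q (M l)) F atTop := (rt_tendsto hq0).comp (tendsto_coord hF l)
        exact (tendsto_pow_atTop hq0.ne').comp h1
    have hrt : Tendsto (fun M : Fin k → ℕ => fun l => rt q (M l)) F atTop :=
      tendsto_of_coord _ fun l => (rt_tendsto hq0).comp (tendsto_coord hF l)
    have hrt1 : ∀ᶠ M in F, ∀ l, 1 ≤ rt q (M l) := by
      filter_upwards [hrt.eventually_ge_atTop (fun _ => 1)] with M hM l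
      exact hM l
    have hgrid := hz.comp (hrt.mono_right (atTop_le_cof hk))
    have hgrid2 : Tendsto (fun M => dq ρ S (cc φ ξ θ) P f (∏ l, (gp q M l : ℝ)) ((box (gp q M)).filter (· ∈ 𝓖)) z) F (𝓝 0) := by
      refine hgrid.congr' ?_
      filter_upwards [hFM, hrt1, (hs.comp hgp).eventually_ge_atTop (4 ^ (2 * d + 1))] with M h1 h2 h3
      have hin : In (fun l => rt q (M l)) := ⟨h1, h3, h2⟩
      simp only [Function.comp, hB, hV, if_pos hin]
      rfl
    refine (grid_to_full hq0 hF u _ hub ?_).congr fun M => ?_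
    · have hrest : Tendsto (fun M : Fin k → ℕ => (∏ l, ((gp q M l : ℕ) : ℂ))⁻¹ *
          ∑ m ∈ (box (gp q M)).filter (· ∉ 𝓖), u m) F (𝓝 0) := by
        have h4 := (hdens.comp hgp).mul_const (C ^ n + C ^ n)
        rw [zero_mul] at h4
        refine squeeze_zero_norm' ?_ h4
        filter_upwards with M
        simp only [Function.comp]
        rw [norm_mul, norm_inv, norm_prod, div_eq_inv_mul, mul_assoc]
        simp only [Complex.norm_natCast]
        gcongr
        refine (norm_sum_le_of_le _ fun m _ => hub m).trans ?_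
        rw [Finset.sum_const, nsmul_eq_mul]
      have h5 := hgrid2.add hrest
      rw [add_zero] at h5
      refine h5.congr fun M => ?_
      unfold dq
      rw [← Finset.sum_filter_add_sum_filter_not (box (gp q M)) (· ∈ 𝓖) u, mul_add]
      congr 2
      push_cast
      rfl
    · unfold dq
      congr 1
      push_cast
      rfl
  · intro r
    simp only [hV]
    split_ifs with h
    · refine Finset.prod_pos fun l _ => ?_
      have : 0 < Mr r l := Nat.pow_pos (by have := h.2.2 l; omega)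
      exact_mod_cast this
    · norm_num
  · intro r
    simp only [hRR]
    split_ifs with h
    · exact scale_le d _ h.2.1
    · simp
  · intro r m hm j
    simp only [hB, hRR] at hm ⊢
    split_ifs at hm ⊢ with h
    · exact hgrow _ h.1 m (Finset.mem_filter.1 hm).1 j
    · simp at hm
  · intro r
    by_cases h : In r
    · have hVr : V r = ∏ l, (Mr r l : ℝ) := by simp only [hV, if_pos h]
      have hBr : B r = (box (Mr r)).filter (· ∈ 𝓖) := by simp only [hB, if_pos h]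
      have h1 := hcount _ h.1 (2 * 2 ^ Nat.log 4 (s (Mr r)))
      rw [← hBr, ← hVr] at h1
      have hs1 : 1 ≤ s (Mr r) := le_trans (Nat.one_le_pow _ _ (by norm_num)) h.2.1
      have hsR : (0 : ℝ) < s (Mr r) := by exact_mod_cast hs1
      have h2 := window_le _ hs1
      have h3 : (∏ l, (r l) ^ 4) ≤ s (Mr r) := prod_le_s hk hA r _ fun l => hsA _ h.1 l
      have h4 : (∏ l, ((r l : ℝ)) ^ 2) ≤ Real.sqrt (s (Mr r)) := by
        apply Real.le_sqrt_of_sq_le
        rw [← Finset.prod_pow]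
        have : (∏ l, (((r l : ℝ)) ^ 2) ^ 2) = ((∏ l, (r l) ^ 4 : ℕ) : ℝ) := by
          push_cast
          refine Finset.prod_congr rfl fun l _ => ?_
          ring
        rw [this]
        exact_mod_cast h3
      have hr0 : ∀ l, (1 : ℝ) ≤ r l := fun l => by exact_mod_cast h.2.2 l
      have hp0 : 0 < ∏ l, ((r l : ℝ)) ^ 2 := Finset.prod_pos fun l _ => by have := hr0 l; positivity
      have h5 : (∏ l, ((r l : ℝ)) ^ 2)⁻¹ ≤ ∏ l, (4 * (1 / ((r l : ℝ) + 1) ^ 2)) := by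
        rw [← Finset.prod_inv_distrib]
        refine Finset.prod_le_prod (fun l _ => by have := hr0 l; positivity) fun l _ => ?_
        have := hr0 l
        rw [mul_one_div, inv_eq_one_div, div_le_div_iff₀ (by positivity) (by positivity)]
        nlinarith
      have hsq : Real.sqrt (s (Mr r)) * Real.sqrt (s (Mr r)) = s (Mr r) := Real.mul_self_sqrt hsR.le
      have hsq0 : 0 < Real.sqrt (s (Mr r)) := Real.sqrt_pos.2 hsR
      have h6 : (Real.sqrt (s (Mr r)))⁻¹ ≤ ∏ l, (4 * (1 / ((r l : ℝ) + 1) ^ 2)) :=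
        (inv_anti₀ hp0 h4).trans h5
      calc (#((B r ×ˢ B r).filter fun p => Bad P (2 * 2 ^ Nat.log 4 (s (Mr r))) p.1 p.2) : ℝ)
          ≤ (C0 * (2 * ((2 * 2 ^ Nat.log 4 (s (Mr r)) : ℕ) : ℝ) + 1) * V r ^ 2) / s (Mr r) := by
            rw [le_div_iff₀ hsR]
            exact h1
        _ ≤ (C0 * (5 * Real.sqrt (s (Mr r))) * V r ^ 2) / s (Mr r) := by gcongr
        _ = 5 * C0 * (Real.sqrt (s (Mr r)))⁻¹ * V r ^ 2 := by
            have haux : ∀ w v t : ℝ, 0 < w → w * w = t → (C0 * (5 * w) * v) / t = 5 * C0 * w⁻¹ * v := by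
              intro w v t hw ht
              rw [← ht]
              field_simp
            exact haux _ _ _ hsq0 hsq
        _ ≤ e r * V r ^ 2 := by
            simp only [he]
            gcongr
    · have hBr : B r = ∅ := by simp only [hB, if_neg h]
      rw [hBr]
      simp only [Finset.product_empty, Finset.filter_empty, Finset.card_empty, Nat.cast_zero]
      have := he0 r
      positivity

end Pool.Agent.R205.PC
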