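import Pool.Agent.R205.PC.Z5

/-!
# Counting bad pairs
-/

set_option autoImplicit false

open Filter Topology Finset

namespace Pool.Agent.R205.PC

lemma card_pairs {M : Type*} (Bx : Finset M) (p : M → M → Prop) [DecidablePred fun q : M × M => p q.1 q.2]
    [∀ m', DecidablePred fun m => p m m'] (X s N : ℕ) (hN : Bx.card ≤ N)
    (h : ∀ m' ∈ Bx, #(Bx.filter fun m => p m m') * s ≤ X) :
    #((Bx ×ˢ Bx).filter fun q => p q.1 q.2) * s ≤ N * X := by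
  have h1 : #((Bx ×ˢ Bx).filter fun q => p q.1 q.2) = ∑ m' ∈ Bx, #(Bx.filter fun m => p m m') := by
    rw [Finset.card_filter, Finset.sum_product_right]
    refine Finset.sum_congr rfl fun m' _ => ?_
    rw [Finset.card_filter]
  rw [h1, Finset.sum_mul]
  calc ∑ m' ∈ Bx, #(Bx.filter fun m => p m m') * s ≤ ∑ _m' ∈ Bx, X := Finset.sum_le_sum h
    _ = Bx.card * X := by rw [Finset.sum_const, smul_eq_mul]
    _ ≤ N * X := Nat.mul_le_mul_right _ hN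

lemma card_pairs' {M : Type*} (Bx : Finset M) (p : M → M → Prop) [DecidablePred fun q : M × M => p q.1 q.2]
    [∀ m, DecidablePred fun m' => p m m'] (X s N : ℕ) (hN : Bx.card ≤ N)
    (h : ∀ m ∈ Bx, #(Bx.filter fun m' => p m m') * s ≤ X) :
    #((Bx ×ˢ Bx).filter fun q => p q.1 q.2) * s ≤ N * X := by
  have h1 : #((Bx ×ˢ Bx).filter fun q => p q.1 q.2) = ∑ m ∈ Bx, #(Bx.filter fun m' => p m m') := by
    rw [Finset.card_filter, Finset.sum_product]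
    refine Finset.sum_congr rfl fun m _ => ?_
    rw [Finset.card_filter]
  rw [h1, Finset.sum_mul]
  calc ∑ m ∈ Bx, #(Bx.filter fun m' => p m m') * s ≤ ∑ _m' ∈ Bx, X := Finset.sum_le_sum h
    _ = Bx.card * X := by rw [Finset.sum_const, smul_eq_mul]
    _ ≤ N * X := Nat.mul_le_mul_right _ hN

lemma card_ex {T J : Type*} [Fintype J] (B : Finset T) (R : J → T → Prop) [∀ j, DecidablePred (R j)]
    [DecidablePred fun q => ∃ j, R j q] (X s : ℕ)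
    (h : ∀ j, #(B.filter (R j)) * s ≤ X) : #(B.filter fun q => ∃ j, R j q) * s ≤ Fintype.card J * X := by
  classical
  have h1 : B.filter (fun q => ∃ j, R j q) ⊆ Finset.univ.biUnion fun j => B.filter (R j) := by
    intro q hq
    rw [Finset.mem_filter] at hq
    obtain ⟨hq1, j, hj⟩ := hq
    rw [Finset.mem_biUnion]
    exact ⟨j, Finset.mem_univ _, Finset.mem_filter.2 ⟨hq1, hj⟩⟩
  have h2 := (Finset.card_le_card h1).trans Finset.card_biUnion_le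
  calc #(B.filter fun q => ∃ j, R j q) * s ≤ (∑ j, #(B.filter (R j))) * s := Nat.mul_le_mul_right _ h2
    _ = ∑ j, #(B.filter (R j)) * s := by rw [Finset.sum_mul]
    _ ≤ ∑ _j : J, X := Finset.sum_le_sum fun j _ => h j
    _ = Fintype.card J * X := by rw [Finset.sum_const, smul_eq_mul, Finset.card_univ]

lemma card_window {M : Type*} (Bx : Finset M) (Q : M → ℤ) (X s : ℕ)
    (h : ∀ v, #(Bx.filter fun m => Q m = v) * s ≤ X) (c : ℤ) (W : ℕ) :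
    #(Bx.filter fun m => |Q m - c| ≤ (W : ℤ)) * s ≤ (2 * W + 1) * X := by
  classical
  have h1 : Bx.filter (fun m => |Q m - c| ≤ (W : ℤ)) ⊆
      (Finset.Icc (c - W) (c + W)).biUnion fun v => Bx.filter fun m => Q m = v := by
    intro m hm
    rw [Finset.mem_filter] at hm
    obtain ⟨hm1, hm2⟩ := hm
    rw [Finset.mem_biUnion]
    rw [abs_le] at hm2
    exact ⟨Q m, Finset.mem_Icc.2 ⟨by omega, by omega⟩, Finset.mem_filter.2 ⟨hm1, rfl⟩⟩
  have h2 := (Finset.card_le_card h1).trans Finset.card_biUnion_le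
  calc #(Bx.filter fun m => |Q m - c| ≤ (W : ℤ)) * s
      ≤ (∑ v ∈ Finset.Icc (c - W) (c + W), #(Bx.filter fun m => Q m = v)) * s := Nat.mul_le_mul_right _ h2
    _ = ∑ v ∈ Finset.Icc (c - W) (c + W), #(Bx.filter fun m => Q m = v) * s := by rw [Finset.sum_mul]
    _ ≤ ∑ _v ∈ Finset.Icc (c - W) (c + W), X := Finset.sum_le_sum fun v _ => h v
    _ = (2 * W + 1) * X := by
        rw [Finset.sum_const, smul_eq_mul, Int.card_Icc]
        congr 1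
        omega

lemma count_of_val {M : Type*} {n : ℕ} (P : Fin n → M → ℤ) (Bx : Finset M) (s X N : ℕ) (hN : Bx.card ≤ N)
    (h : ∀ j v, #(Bx.filter fun m => P j m = v) * s ≤ X)
    (h' : ∀ i j, i ≠ j → ∀ v, #(Bx.filter fun m => P i m - P j m = v) * s ≤ X) (W : ℕ)
    [∀ q : M × M, Decidable (Bad P W q.1 q.2)] :
    #((Bx ×ˢ Bx).filter fun q => Bad P W q.1 q.2) * s ≤ (2 * n + 3 * n ^ 2) * ((2 * W + 1) * X * N) := by
  classical
  obtain ⟨Z, hZ⟩ : ∃ Z, Z = (2 * W + 1) * X * N := ⟨_, rfl⟩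
  rw [← hZ]
  have hZ' : N * ((2 * W + 1) * X) = Z := by rw [hZ]; ring
  have hw : ∀ j, #(Bx.filter fun m => |P j m| ≤ (W : ℤ)) * s ≤ (2 * W + 1) * X := by
    intro j
    have h1 := card_window Bx (P j) X s (h j) 0 W
    have h2 : (Bx.filter fun m => |P j m| ≤ (W : ℤ)) ⊆ (Bx.filter fun m => |P j m - 0| ≤ (W : ℤ)) := by
      intro m hm
      rw [Finset.mem_filter] at hm ⊢
      rwa [sub_zero]
    exact (Nat.mul_le_mul_right _ (Finset.card_le_card h2)).trans h1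
  have hw2 : ∀ i j, #(Bx.filter fun m => i ≠ j ∧ |P i m - P j m| ≤ (W : ℤ)) * s ≤ (2 * W + 1) * X := by
    intro i j
    by_cases hij : i = j
    · have : (Bx.filter fun m => i ≠ j ∧ |P i m - P j m| ≤ (W : ℤ)) = ∅ := by
        rw [Finset.filter_eq_empty_iff]
        intro m _ hc
        exact hc.1 hij
      rw [this, Finset.card_empty, zero_mul]
      exact Nat.zero_le _
    · have h1 := card_window Bx (fun m => P i m - P j m) X s (h' i j hij) 0 W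
      have h2 : (Bx.filter fun m => i ≠ j ∧ |P i m - P j m| ≤ (W : ℤ)) ⊆
          (Bx.filter fun m => |(P i m - P j m) - 0| ≤ (W : ℤ)) := by
        intro m hm
        rw [Finset.mem_filter] at hm ⊢
        rw [sub_zero]
        exact ⟨hm.1, hm.2.2⟩
      exact (Nat.mul_le_mul_right _ (Finset.card_le_card h2)).trans h1
  have e1 : #((Bx ×ˢ Bx).filter fun q => ∃ j, |P j q.1| ≤ (W : ℤ)) * s ≤ n * Z := by
    have h1 := card_ex (Bx ×ˢ Bx) (fun (j : Fin n) (q : M × M) => |P j q.1| ≤ (W : ℤ)) Z s fun j => by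
      rw [← hZ']
      exact card_pairs Bx (fun m _ => |P j m| ≤ (W : ℤ)) _ s N hN fun m' _ => hw j
    rwa [Fintype.card_fin] at h1
  have e2 : #((Bx ×ˢ Bx).filter fun q => ∃ j, |P j q.2| ≤ (W : ℤ)) * s ≤ n * Z := by
    have h1 := card_ex (Bx ×ˢ Bx) (fun (j : Fin n) (q : M × M) => |P j q.2| ≤ (W : ℤ)) Z s fun j => by
      rw [← hZ']
      exact card_pairs' Bx (fun _ m => |P j m| ≤ (W : ℤ)) _ s N hN fun m' _ => hw j
    rwa [Fintype.card_fin] at h1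
  have e3 : #((Bx ×ˢ Bx).filter fun q => ∃ ij : Fin n × Fin n, ij.1 ≠ ij.2 ∧ |P ij.1 q.1 - P ij.2 q.1| ≤ (W : ℤ)) * s ≤
      n ^ 2 * Z := by
    have h1 := card_ex (Bx ×ˢ Bx) (fun (ij : Fin n × Fin n) (q : M × M) =>
        ij.1 ≠ ij.2 ∧ |P ij.1 q.1 - P ij.2 q.1| ≤ (W : ℤ)) Z s fun ij => by
      rw [← hZ']
      exact card_pairs Bx (fun m _ => ij.1 ≠ ij.2 ∧ |P ij.1 m - P ij.2 m| ≤ (W : ℤ)) _ s N hN fun m' _ => hw2 ij.1 ij.2
    rwa [Fintype.card_prod, Fintype.card_fin, ← sq] at h1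
  have e4 : #((Bx ×ˢ Bx).filter fun q => ∃ ij : Fin n × Fin n, ij.1 ≠ ij.2 ∧ |P ij.1 q.2 - P ij.2 q.2| ≤ (W : ℤ)) * s ≤
      n ^ 2 * Z := by
    have h1 := card_ex (Bx ×ˢ Bx) (fun (ij : Fin n × Fin n) (q : M × M) =>
        ij.1 ≠ ij.2 ∧ |P ij.1 q.2 - P ij.2 q.2| ≤ (W : ℤ)) Z s fun ij => by
      rw [← hZ']
      exact card_pairs' Bx (fun _ m => ij.1 ≠ ij.2 ∧ |P ij.1 m - P ij.2 m| ≤ (W : ℤ)) _ s N hN fun m' _ => hw2 ij.1 ij.2
    rwa [Fintype.card_prod, Fintype.card_fin, ← sq] at h1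
  have e5 : #((Bx ×ˢ Bx).filter fun q => ∃ ij : Fin n × Fin n, |P ij.1 q.1 - P ij.2 q.2| ≤ (W : ℤ)) * s ≤
      n ^ 2 * Z := by
    have h1 := card_ex (Bx ×ˢ Bx) (fun (ij : Fin n × Fin n) (q : M × M) =>
        |P ij.1 q.1 - P ij.2 q.2| ≤ (W : ℤ)) Z s fun ij => by
      rw [← hZ']
      exact card_pairs Bx (fun m m' => |P ij.1 m - P ij.2 m'| ≤ (W : ℤ)) _ s N hN fun m' _ =>
        card_window Bx (P ij.1) X s (h ij.1) (P ij.2 m') W
    rwa [Fintype.card_prod, Fintype.card_fin, ← sq] at h1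
  obtain ⟨F1, hF1⟩ : ∃ F1, F1 = (Bx ×ˢ Bx).filter fun q => ∃ j, |P j q.1| ≤ (W : ℤ) := ⟨_, rfl⟩
  obtain ⟨F2, hF2⟩ : ∃ F2, F2 = (Bx ×ˢ Bx).filter fun q => ∃ j, |P j q.2| ≤ (W : ℤ) := ⟨_, rfl⟩
  obtain ⟨F3, hF3⟩ : ∃ F3, F3 = (Bx ×ˢ Bx).filter fun q => ∃ ij : Fin n × Fin n, ij.1 ≠ ij.2 ∧
    |P ij.1 q.1 - P ij.2 q.1| ≤ (W : ℤ) := ⟨_, rfl⟩
  obtain ⟨F4, hF4⟩ : ∃ F4, F4 = (Bx ×ˢ Bx).filter fun q => ∃ ij : Fin n × Fin n, ij.1 ≠ ij.2 ∧
    |P ij.1 q.2 - P ij.2 q.2| ≤ (W : ℤ) := ⟨_, rfl⟩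
  obtain ⟨F5, hF5⟩ : ∃ F5, F5 = (Bx ×ˢ Bx).filter fun q => ∃ ij : Fin n × Fin n,
    |P ij.1 q.1 - P ij.2 q.2| ≤ (W : ℤ) := ⟨_, rfl⟩
  rw [← hF1] at e1
  rw [← hF2] at e2
  rw [← hF3] at e3
  rw [← hF4] at e4
  rw [← hF5] at e5
  have hcover : ((Bx ×ˢ Bx).filter fun q => Bad P W q.1 q.2) ⊆ F1 ∪ (F2 ∪ (F3 ∪ (F4 ∪ F5))) := by
    intro q hq
    rw [Finset.mem_filter] at hq
    obtain ⟨hq1, hq2⟩ := hq
    rw [hF1, hF2, hF3, hF4, hF5]
    simp only [Finset.mem_union, Finset.mem_filter]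
    unfold Bad at hq2
    rcases hq2 with ⟨j, hj⟩ | ⟨j, hj⟩ | ⟨i, j, hij, hj⟩ | ⟨i, j, hij, hj⟩ | ⟨i, j, hj⟩
    · exact Or.inl ⟨hq1, j, hj⟩
    · exact Or.inr (Or.inl ⟨hq1, j, hj⟩)
    · exact Or.inr (Or.inr (Or.inl ⟨hq1, (i, j), hij, hj⟩))
    · exact Or.inr (Or.inr (Or.inr (Or.inl ⟨hq1, (i, j), hij, hj⟩)))
    · exact Or.inr (Or.inr (Or.inr (Or.inr ⟨hq1, (i, j), hj⟩)))
  have hle := Finset.card_le_card hcover
  have u1 := Finset.card_union_le F1 (F2 ∪ (F3 ∪ (F4 ∪ F5)))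
  have u2 := Finset.card_union_le F2 (F3 ∪ (F4 ∪ F5))
  have u3 := Finset.card_union_le F3 (F4 ∪ F5)
  have u4 := Finset.card_union_le F4 F5
  have hle2 : #((Bx ×ˢ Bx).filter fun q => Bad P W q.1 q.2) ≤ #F1 + #F2 + #F3 + #F4 + #F5 := by omega
  calc #((Bx ×ˢ Bx).filter fun q => Bad P W q.1 q.2) * s ≤ (#F1 + #F2 + #F3 + #F4 + #F5) * s :=
        Nat.mul_le_mul_right _ hle2
    _ = #F1 * s + #F2 * s + #F3 * s + #F4 * s + #F5 * s := by ring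
    _ ≤ n * Z + n * Z + n ^ 2 * Z + n ^ 2 * Z + n ^ 2 * Z := by
        exact add_le_add (add_le_add (add_le_add (add_le_add e1 e2) e3) e4) e5
    _ = (2 * n + 3 * n ^ 2) * Z := by ring

end Pool.Agent.R205.PC
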