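import Pool.Agent.R205.PC.Z6

/-!
# Polynomials: fibres, growth, exceptional sets
-/

set_option autoImplicit false

open Filter Topology Finset

namespace Pool.Agent.R205.PC

section Poly

variable {k : ℕ}

/-- restriction of a polynomial to a line parallel to the `l`-axis -/
noncomputable def line (Q : MvPolynomial (Fin k) ℤ) (l : Fin k) (m : Fin k → ℤ) : Polynomial ℤ :=
  MvPolynomial.aeval (fun i => if i = l then Polynomial.X else Polynomial.C (m i)) Q

lemma eval_line (Q : MvPolynomial (Fin k) ℤ) (l : Fin k) (m : Fin k → ℤ) (u : ℤ) :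
    (line Q l m).eval u = MvPolynomial.eval (Function.update m l u) Q := by
  unfold line
  induction Q using MvPolynomial.induction_on with
  | C a => simp
  | add p q hp hq => rw [map_add, Polynomial.eval_add, hp, hq, map_add]
  | mul_X p i hp =>
    rw [map_mul, Polynomial.eval_mul, hp, map_mul, MvPolynomial.aeval_X, MvPolynomial.eval_X]
    congr 1
    by_cases h : i = l
    · subst h; simp
    · simp [h]

lemma line_deg (Q : MvPolynomial (Fin k) ℤ) (l : Fin k) : ∃ D : ℕ, ∀ m, (line Q l m).natDegree ≤ D := by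
  induction Q using MvPolynomial.induction_on with
  | C a =>
    refine ⟨0, fun m => ?_⟩
    unfold line
    rw [MvPolynomial.aeval_C]
    simp
  | add p q hp hq =>
    obtain ⟨D1, h1⟩ := hp
    obtain ⟨D2, h2⟩ := hq
    refine ⟨max D1 D2, fun m => ?_⟩
    unfold line at *
    rw [map_add]
    exact (Polynomial.natDegree_add_le _ _).trans (max_le_max (h1 m) (h2 m))
  | mul_X p i hp =>
    obtain ⟨D, h⟩ := hp
    refine ⟨D + 1, fun m => ?_⟩
    unfold line at *
    rw [map_mul, MvPolynomial.aeval_X]
    refine Polynomial.natDegree_mul_le.trans (add_le_add (h m) ?_)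
    split_ifs
    · exact Polynomial.natDegree_X_le
    · simp

lemma line_update (Q : MvPolynomial (Fin k) ℤ) (l : Fin k) (m : Fin k → ℤ) (u : ℤ) :
    line Q l (Function.update m l u) = line Q l m := by
  unfold line
  congr 2
  funext i
  by_cases h : i = l
  · simp [h]
  · simp [h]

lemma growth (Q : MvPolynomial (Fin k) ℤ) :
    ∃ d : ℕ, ∀ (s : ℕ) (m : Fin k → ℕ), (∀ l, m l ≤ s) →
      |MvPolynomial.eval (fun l => (m l : ℤ)) Q| ≤ (((s + 2) ^ d : ℕ) : ℤ) := by
  induction Q using MvPolynomial.induction_on with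
  | C a =>
    refine ⟨a.natAbs, fun s m _ => ?_⟩
    rw [MvPolynomial.eval_C, Int.abs_eq_natAbs]
    have h1 : a.natAbs < 2 ^ a.natAbs := Nat.lt_two_pow_self
    have h2 : 2 ^ a.natAbs ≤ (s + 2) ^ a.natAbs := Nat.pow_le_pow_left (by omega) _
    exact_mod_cast h1.le.trans h2
  | add p q hp hq =>
    obtain ⟨d1, h1⟩ := hp
    obtain ⟨d2, h2⟩ := hq
    refine ⟨max d1 d2 + 1, fun s m hm => ?_⟩
    rw [map_add]
    have e1 : (s + 2) ^ d1 ≤ (s + 2) ^ max d1 d2 := Nat.pow_le_pow_right (by omega) (le_max_left _ _)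
    have e2 : (s + 2) ^ d2 ≤ (s + 2) ^ max d1 d2 := Nat.pow_le_pow_right (by omega) (le_max_right _ _)
    have e3 : (s + 2) ^ d1 + (s + 2) ^ d2 ≤ (s + 2) ^ (max d1 d2 + 1) := by
      rw [pow_succ]
      have : 1 ≤ (s + 2) ^ max d1 d2 := Nat.one_le_pow _ _ (by omega)
      nlinarith
    refine (abs_add_le _ _).trans ((add_le_add (h1 s m hm) (h2 s m hm)).trans ?_)
    exact_mod_cast e3
  | mul_X p i hp =>
    obtain ⟨d, h⟩ := hp
    refine ⟨d + 1, fun s m hm => ?_⟩
    rw [map_mul, MvPolynomial.eval_X, abs_mul, pow_succ]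
    push_cast
    have h1 := h s m hm
    push_cast at h1
    have h2 : |((m i : ℕ) : ℤ)| ≤ (s : ℤ) + 2 := by
      rw [abs_of_nonneg (by positivity)]
      have := hm i
      omega
    exact mul_le_mul h1 h2 (abs_nonneg _) (by positivity)

/-- Schwartz-Zippel for boxes -/
lemma sz (p : MvPolynomial (Fin k) ℤ) (hp : p ≠ 0) (M : Fin k → ℕ) :
    (#((box M).filter fun m => MvPolynomial.eval (fun l => ((m l : ℕ) : ℤ)) p = 0) : ℝ) / ∏ l, (M l : ℝ) ≤
      ∑ l, (p.degreeOf l : ℝ) / M l := by
  classical
  set S : Fin k → Finset ℤ := fun l => (Finset.Icc 1 (M l)).image (fun a : ℕ => (a : ℤ)) with hS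
  have hcard : ∀ l, (S l).card = M l := by
    intro l
    simp only [hS]
    rw [Finset.card_image_of_injective _ Nat.cast_injective, Nat.card_Icc]
    omega
  have h := MvPolynomial.schwartz_zippel_sum_degreeOf hp S
  have h1 : #((box M).filter fun m => MvPolynomial.eval (fun l => ((m l : ℕ) : ℤ)) p = 0) ≤
      #{x ∈ Fintype.piFinset S | MvPolynomial.eval x p = 0} := by
    refine Finset.card_le_card_of_injOn (fun m l => ((m l : ℕ) : ℤ)) ?_ ?_
    · intro m hm
      rw [Finset.mem_coe, Finset.mem_filter, Fintype.mem_piFinset] at hm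
      rw [Finset.mem_coe, Finset.mem_filter, Fintype.mem_piFinset]
      exact ⟨fun l => Finset.mem_image_of_mem _ (hm.1 l), hm.2⟩
    · intro m _ m' _ h
      funext l
      exact Nat.cast_injective (R := ℤ) (congrFun h l)
  simp only [hcard] at h
  have h2 : ((((#{x ∈ Fintype.piFinset S | MvPolynomial.eval x p = 0} : ℕ) : ℚ≥0) / ∏ i, ((M i : ℕ) : ℚ≥0) : ℚ≥0) : ℝ) ≤
      ((∑ i, ((p.degreeOf i : ℕ) : ℚ≥0) / ((M i : ℕ) : ℚ≥0) : ℚ≥0) : ℝ) := by
    exact_mod_cast h
  push_cast at h2
  refine le_trans ?_ h2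
  have hnn : (0 : ℝ) ≤ ∏ l, (M l : ℝ) := Finset.prod_nonneg fun l _ => by positivity
  gcongr

lemma sz_tendsto (p : MvPolynomial (Fin k) ℤ) (hp : p ≠ 0) :
    Tendsto (fun M : Fin k → ℕ =>
      (#((box M).filter fun m => MvPolynomial.eval (fun l => ((m l : ℕ) : ℤ)) p = 0) : ℝ) / ∏ l, (M l : ℝ)) atTop (𝓝 0) := by
  have h1 : Tendsto (fun M : Fin k → ℕ => ∑ l, (p.degreeOf l : ℝ) / M l) atTop (𝓝 0) := by
    have h2 : ∀ l : Fin k, Tendsto (fun M : Fin k → ℕ => (p.degreeOf l : ℝ) / M l) atTop (𝓝 0) := fun l =>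
      (tendsto_const_div_atTop_nhds_zero_nat _).comp (tendsto_coord le_rfl l)
    have := tendsto_finsetSum (Finset.univ : Finset (Fin k)) fun l _ => h2 l
    simpa using this
  refine squeeze_zero (fun M => ?_) (fun M => sz p hp M) h1
  have hnn : (0 : ℝ) ≤ ∏ l, (M l : ℝ) := Finset.prod_nonneg fun l _ => by positivity
  positivity

/-- substitution of an integer for one variable -/
noncomputable def subst (l : Fin k) (u : ℤ) (Q : MvPolynomial (Fin k) ℤ) : MvPolynomial (Fin k) ℤ :=
  MvPolynomial.bind₁ (fun i => if i = l then MvPolynomial.C u else MvPolynomial.X i) Q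

lemma eval_subst (l : Fin k) (u : ℤ) (Q : MvPolynomial (Fin k) ℤ) (m : Fin k → ℤ) :
    MvPolynomial.eval m (subst l u Q) = MvPolynomial.eval (Function.update m l u) Q := by
  unfold subst
  induction Q using MvPolynomial.induction_on with
  | C a => simp
  | add p q hp hq => rw [map_add, map_add, hp, hq, map_add]
  | mul_X p i hp =>
    rw [map_mul, map_mul, hp, map_mul, MvPolynomial.bind₁_X_right, MvPolynomial.eval_X]
    congr 1
    by_cases h : i = l
    · subst h; simp
    · simp [h]

lemma exists_subst (Q : MvPolynomial (Fin k) ℤ) (l : Fin k) (hl : l ∈ Q.vars) :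
    ∃ u : ℤ, subst l u Q - subst l 0 Q ≠ 0 := by
  classical
  by_contra hcon
  push Not at hcon
  have h1 : Q = subst l 0 Q := by
    apply MvPolynomial.funext
    intro m
    have h2 := hcon (m l)
    rw [sub_eq_zero] at h2
    rw [← h2, eval_subst, Function.update_eq_self]
  rw [h1] at hl
  unfold subst at hl
  have h3 := MvPolynomial.vars_bind₁ (fun i => if i = l then MvPolynomial.C (0 : ℤ) else MvPolynomial.X i) Q hl
  rw [Finset.mem_biUnion] at h3
  obtain ⟨i, _, hi⟩ := h3
  by_cases h : i = l
  · simp [h] at hi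
  · rw [if_neg h, MvPolynomial.vars_X, Finset.mem_singleton] at hi
    exact h hi.symm

/-- `m` is regular for `Q`: the restrictions to the lines through `m` are not constant -/
def Reg (Q : MvPolynomial (Fin k) ℤ) (m : Fin k → ℕ) : Prop :=
  ∀ l, 0 < (line Q l fun i => ((m i : ℕ) : ℤ)).natDegree

open scoped Classical in
lemma reg_dens (Q : MvPolynomial (Fin k) ℤ) (hQ : ∀ l, l ∈ Q.vars) :
    Tendsto (fun M : Fin k → ℕ => (#((box M).filter fun m => ¬ Reg Q m) : ℝ) / ∏ l, (M l : ℝ)) atTop (𝓝 0) := by
  choose u hu using fun l => exists_subst Q l (hQ l)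
  have h1 : ∀ M : Fin k → ℕ, #((box M).filter fun m => ¬ Reg Q m) ≤
      ∑ l, #((box M).filter fun m => MvPolynomial.eval (fun i => ((m i : ℕ) : ℤ)) (subst l (u l) Q - subst l 0 Q) = 0) := by
    intro M
    refine (Finset.card_le_card ?_).trans Finset.card_biUnion_le
    intro m hm
    rw [Finset.mem_filter] at hm
    obtain ⟨hm1, hm2⟩ := hm
    unfold Reg at hm2
    push Not at hm2
    obtain ⟨l, hl⟩ := hm2
    rw [Finset.mem_biUnion]
    refine ⟨l, Finset.mem_univ _, Finset.mem_filter.2 ⟨hm1, ?_⟩⟩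
    rw [map_sub, eval_subst, eval_subst, ← eval_line, ← eval_line]
    have h0 : (line Q l fun i => ((m i : ℕ) : ℤ)).natDegree = 0 := by omega
    rw [Polynomial.natDegree_eq_zero] at h0
    obtain ⟨c, hc⟩ := h0
    rw [← hc, Polynomial.eval_C, Polynomial.eval_C, sub_self]
  have h2 : Tendsto (fun M : Fin k → ℕ => ∑ l, (#((box M).filter fun m =>
      MvPolynomial.eval (fun i => ((m i : ℕ) : ℤ)) (subst l (u l) Q - subst l 0 Q) = 0) : ℝ) / ∏ l, (M l : ℝ)) atTop (𝓝 0) := by
    have := tendsto_finsetSum (Finset.univ : Finset (Fin k)) fun l _ => sz_tendsto _ (hu l)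
    simpa using this
  have hnn : ∀ M : Fin k → ℕ, (0 : ℝ) ≤ ∏ l, (M l : ℝ) := fun M => Finset.prod_nonneg fun l _ => by positivity
  refine squeeze_zero (fun M => ?_) (fun M => ?_) h2
  · have := hnn M
    positivity
  · have := hnn M
    rw [← Finset.sum_div]
    gcongr
    exact_mod_cast h1 M

/-- few values are taken many times on lines -/
lemma fibre_count (Q : MvPolynomial (Fin k) ℤ) (l : Fin k) (D : ℕ) (hD : ∀ m, (line Q l m).natDegree ≤ D)
    (M : Fin k → ℕ) (Bx : Finset (Fin k → ℕ)) (hBx : Bx ⊆ box M) (hreg : ∀ m ∈ Bx, Reg Q m) (v : ℤ) :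
    #(Bx.filter fun m => MvPolynomial.eval (fun i => ((m i : ℕ) : ℤ)) Q = v) * M l ≤ D * ∏ i, M i := by
  classical
  set E := Bx.filter fun m => MvPolynomial.eval (fun i => ((m i : ℕ) : ℤ)) Q = v with hE
  have h1 : E.card ≤ D * (E.image fun m => Function.update m l 1).card := by
    refine Finset.card_le_mul_card_image E D ?_
    intro w hw
    rw [Finset.mem_image] at hw
    obtain ⟨m0, hm0, hw0⟩ := hw
    have hm0' := hreg m0 (Finset.mem_filter.1 hm0).1 l
    set p := line Q l (fun i => ((m0 i : ℕ) : ℤ)) with hp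
    have hpne : p - Polynomial.C v ≠ 0 := by
      intro h
      rw [sub_eq_zero] at h
      rw [h, Polynomial.natDegree_C] at hm0'
      exact lt_irrefl _ hm0'
    have hroots : (p - Polynomial.C v).roots.toFinset.card ≤ D := by
      refine (Multiset.toFinset_card_le _).trans ((Polynomial.card_roots' _).trans ?_)
      rw [Polynomial.natDegree_sub_C]
      exact hD _
    refine le_trans ?_ hroots
    refine Finset.card_le_card_of_injOn (fun m => ((m l : ℕ) : ℤ)) ?_ ?_
    · intro m hm
      rw [Finset.mem_coe, Finset.mem_filter] at hm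
      obtain ⟨hm1, hm2⟩ := hm
      rw [Finset.mem_coe, Multiset.mem_toFinset, Polynomial.mem_roots hpne, Polynomial.IsRoot.def,
        Polynomial.eval_sub, Polynomial.eval_C, hp, eval_line, sub_eq_zero]
      have h3 : Function.update (fun i => ((m0 i : ℕ) : ℤ)) l ((m l : ℕ) : ℤ) = fun i => ((m i : ℕ) : ℤ) := by
        funext i
        by_cases h : i = l
        · subst h; simp
        · rw [Function.update_of_ne h]
          have h4 := congrFun (hm2.trans hw0.symm) i
          rw [Function.update_of_ne h, Function.update_of_ne h] at h4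
          rw [h4]
      rw [h3]
      exact (Finset.mem_filter.1 hm1).2
    · intro m hm m' hm' hmm
      rw [Finset.mem_coe, Finset.mem_filter] at hm hm'
      funext i
      by_cases h : i = l
      · subst h
        exact Nat.cast_injective (R := ℤ) hmm
      · have h4 := congrFun (hm.2.trans hm'.2.symm) i
        rwa [Function.update_of_ne h, Function.update_of_ne h] at h4
  have h2 : (E.image fun m => Function.update m l 1).card * M l ≤ ∏ i, M i := by
    have h3 : (E.image fun m => Function.update m l 1) ⊆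
        Fintype.piFinset (Function.update (fun i => Finset.Icc 1 (M i)) l {1}) := by
      intro w hw
      rw [Finset.mem_image] at hw
      obtain ⟨m, hm, rfl⟩ := hw
      have hm1 := hBx (Finset.mem_filter.1 hm).1
      rw [Fintype.mem_piFinset] at hm1 ⊢
      intro i
      by_cases h : i = l
      · subst h; simp
      · rw [Function.update_of_ne h, Function.update_of_ne h]
        exact hm1 i
    have h4 := Finset.card_le_card h3
    rw [Fintype.card_piFinset] at h4
    have h5 : ∏ i, (Function.update (fun i => Finset.Icc 1 (M i)) l {1} i).card = ∏ i ∈ Finset.univ.erase l, M i := by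
      rw [← Finset.mul_prod_erase Finset.univ _ (Finset.mem_univ l), Function.update_self, Finset.card_singleton, one_mul]
      refine Finset.prod_congr rfl fun i hi => ?_
      rw [Function.update_of_ne (Finset.ne_of_mem_erase hi)]
      simp
    rw [h5] at h4
    calc (E.image fun m => Function.update m l 1).card * M l ≤ (∏ i ∈ Finset.univ.erase l, M i) * M l :=
          Nat.mul_le_mul_right _ h4
      _ = ∏ i, M i := Finset.prod_erase_mul _ _ (Finset.mem_univ l)
  calc E.card * M l ≤ (D * (E.image fun m => Function.update m l 1).card) * M l := Nat.mul_le_mul_right _ h1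
    _ = D * ((E.image fun m => Function.update m l 1).card * M l) := by ring
    _ ≤ D * ∏ i, M i := Nat.mul_le_mul_left _ h2

end Poly

end Pool.Agent.R205.PC
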