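import Pool.Agent.R205.PC.Z7

/-!
# Box averages along polynomials
-/

set_option autoImplicit false

open MeasureTheory Filter Topology Set Finset
open scoped ENNReal ComplexConjugate

namespace Pool.Agent.R205.PC

variable {Y K : Type*} [MeasurableSpace Y] [Group K] [MeasurableSpace K] [MeasurableMul₂ K] [MeasurableInv K]

/-- the theorem for boxes, with a condition on the number of solutions of `P j m = v` -/
theorem boxes_val (ρ : Measure K) [IsProbabilityMeasure ρ] [ρ.IsMulLeftInvariant] [ρ.IsMulRightInvariant]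
    (μ : Measure Y) [IsProbabilityMeasure μ]
    (S : Equiv.Perm Y) (hS : ∀ p : ℤ, Measurable (S ^ p)) (φ : Y → K) (hφ : Measurable φ)
    (ξ : Y → ℕ) (hξ : Measurable ξ) (hfr : ∀ᵐ y ∂μ, Fresh2 S ξ y)
    {k n : ℕ} (hk : 0 < k) (P : Fin n → (Fin k → ℕ) → ℤ) (A d : ℕ) (hA : 0 < A) (D : ℕ)
    (𝓜 : Set (Fin k → ℕ)) (s : (Fin k → ℕ) → ℕ) (hs : Tendsto s atTop atTop)
    (hsA : ∀ M ∈ 𝓜, ∀ l, M l ≤ s M ^ A)
    (hgrow : ∀ M ∈ 𝓜, ∀ m ∈ box M, ∀ j, |P j m| ≤ (((s M + 2) ^ d : ℕ) : ℤ))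
    (𝓖 : Set (Fin k → ℕ)) [DecidablePred (· ∈ 𝓖)]
    (hval : ∀ M ∈ 𝓜, ∀ j v, #(((box M).filter (· ∈ 𝓖)).filter fun m => P j m = v) * s M ≤ D * ∏ l, M l)
    (hval' : ∀ M ∈ 𝓜, ∀ i j, i ≠ j → ∀ v,
      #(((box M).filter (· ∈ 𝓖)).filter fun m => P i m - P j m = v) * s M ≤ D * ∏ l, M l)
    (hdens : Tendsto (fun M : Fin k → ℕ => (#((box M).filter (· ∉ 𝓖)) : ℝ) / ∏ l, (M l : ℝ)) atTop (𝓝 0))
    (F : Filter (Fin k → ℕ)) (hF : F ≤ atTop) (hFM : ∀ᶠ M in F, gp (4 * k * A) M ∈ 𝓜)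
    (f : Fin n → (Fin k → ℕ) → Y × K → ℂ) (hf : ∀ j m, Measurable (f j m)) (hfb : ∃ C, ∀ j m z, ‖f j m z‖ ≤ C) :
    ∀ᵐ θ ∂(Measure.infinitePi (fun _ : ℕ => ρ)), ∀ᵐ z ∂(μ.prod ρ),
      Tendsto (fun M => dq ρ S (cc φ ξ θ) P f (∏ l, (M l : ℝ)) (box M) z) F (𝓝 0) := by
  classical
  refine boxes_ae ρ μ S hS φ hφ ξ hξ hfr hk P A d hA (((2 * n + 3 * n ^ 2) * D : ℕ) : ℝ) (by positivity)
    𝓜 s hs hsA hgrow 𝓖 ?_ hdens F hF hFM f hf hfb
  intro M hM W
  have h1 := count_of_val P ((box M).filter (· ∈ 𝓖)) (s M) (D * ∏ l, M l) (∏ l, M l)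
    ((Finset.card_le_card (Finset.filter_subset _ _)).trans (card_box M).le)
    (hval M hM) (hval' M hM) W
  have h2 : ((#((((box M).filter (· ∈ 𝓖)) ×ˢ ((box M).filter (· ∈ 𝓖))).filter fun p => Bad P W p.1 p.2) * s M : ℕ) : ℝ) ≤
      (((2 * n + 3 * n ^ 2) * ((2 * W + 1) * (D * ∏ l, M l) * ∏ l, M l) : ℕ) : ℝ) := by exact_mod_cast h1
  push_cast at h2
  push_cast
  refine h2.trans (le_of_eq ?_)
  ring

/-- unrestricted boxes: all polynomials and all differences depend on all the variables -/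
theorem boxes_unres (ρ : Measure K) [IsProbabilityMeasure ρ] [ρ.IsMulLeftInvariant] [ρ.IsMulRightInvariant]
    (μ : Measure Y) [IsProbabilityMeasure μ]
    (S : Equiv.Perm Y) (hS : ∀ p : ℤ, Measurable (S ^ p)) (φ : Y → K) (hφ : Measurable φ)
    (ξ : Y → ℕ) (hξ : Measurable ξ) (hfr : ∀ᵐ y ∂μ, Fresh2 S ξ y)
    {k n : ℕ} (hk : 0 < k) (P : Fin n → MvPolynomial (Fin k) ℤ) (hP : ∀ j l, l ∈ (P j).vars)
    (hP' : ∀ i j, i ≠ j → ∀ l, l ∈ (P i - P j).vars)
    (f : Fin n → (Fin k → ℕ) → Y × K → ℂ) (hf : ∀ j m, Measurable (f j m)) (hfb : ∃ C, ∀ j m z, ‖f j m z‖ ≤ C) :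
    ∀ᵐ θ ∂(Measure.infinitePi (fun _ : ℕ => ρ)), ∀ᵐ z ∂(μ.prod ρ),
      Tendsto (fun M => dq ρ S (cc φ ξ θ) (fun j (m : Fin k → ℕ) => MvPolynomial.eval (fun l => ((m l : ℕ) : ℤ)) (P j)) f
        (∏ l, (M l : ℝ)) (box M) z) atTop (𝓝 0) := by
  classical
  have hne : (Finset.univ : Finset (Fin k)).Nonempty := ⟨⟨0, hk⟩, Finset.mem_univ _⟩
  obtain ⟨d, hd⟩ : ∃ d : ℕ, ∀ j (s : ℕ) (m : Fin k → ℕ), (∀ l, m l ≤ s) →
      |MvPolynomial.eval (fun l => ((m l : ℕ) : ℤ)) (P j)| ≤ (((s + 2) ^ d : ℕ) : ℤ) := by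
    choose d hd using fun j => growth (P j)
    refine ⟨∑ j, d j, fun j s m hm => (hd j s m hm).trans ?_⟩
    have : (s + 2) ^ d j ≤ (s + 2) ^ ∑ j, d j :=
      Nat.pow_le_pow_right (by omega) (Finset.single_le_sum (fun _ _ => Nat.zero_le _) (Finset.mem_univ j))
    exact_mod_cast this
  obtain ⟨D, hD1, hD2⟩ : ∃ D : ℕ, (∀ j l m, (line (P j) l m).natDegree ≤ D) ∧
      (∀ i j l m, (line (P i - P j) l m).natDegree ≤ D) := by
    choose D1 hD1 using fun j l => line_deg (P j) l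
    choose D2 hD2 using fun i j l => line_deg (P i - P j) l
    refine ⟨(∑ j, ∑ l, D1 j l) + ∑ i, ∑ j, ∑ l, D2 i j l, fun j l m => (hD1 j l m).trans ?_,
      fun i j l m => (hD2 i j l m).trans ?_⟩
    · have e1 : D1 j l ≤ ∑ l, D1 j l := Finset.single_le_sum (fun _ _ => Nat.zero_le _) (Finset.mem_univ l)
      have e2 : ∑ l, D1 j l ≤ ∑ j, ∑ l, D1 j l :=
        Finset.single_le_sum (f := fun j => ∑ l, D1 j l) (fun _ _ => Nat.zero_le _) (Finset.mem_univ j)
      omega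
    · have e1 : D2 i j l ≤ ∑ l, D2 i j l := Finset.single_le_sum (fun _ _ => Nat.zero_le _) (Finset.mem_univ l)
      have e2 : ∑ l, D2 i j l ≤ ∑ j, ∑ l, D2 i j l :=
        Finset.single_le_sum (f := fun j => ∑ l, D2 i j l) (fun _ _ => Nat.zero_le _) (Finset.mem_univ j)
      have e3 : ∑ j, ∑ l, D2 i j l ≤ ∑ i, ∑ j, ∑ l, D2 i j l :=
        Finset.single_le_sum (f := fun i => ∑ j, ∑ l, D2 i j l) (fun _ _ => Nat.zero_le _) (Finset.mem_univ i)
      omega
  obtain ⟨𝓖, hmem𝓖⟩ : ∃ 𝓖 : Set (Fin k → ℕ), ∀ m, m ∈ 𝓖 ↔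
      (∀ j, Reg (P j) m) ∧ ∀ i j, i ≠ j → Reg (P i - P j) m :=
    ⟨{m | (∀ j, Reg (P j) m) ∧ ∀ i j, i ≠ j → Reg (P i - P j) m}, fun m => Iff.rfl⟩
  refine boxes_val ρ μ S hS φ hφ ξ hξ hfr hk _ 1 d one_pos D Set.univ (fun M => Finset.univ.sup M) ?_ ?_ ?_
    𝓖 ?_ ?_ ?_ atTop le_rfl (Eventually.of_forall fun M => Set.mem_univ _) f hf hfb
  · refine tendsto_atTop_mono (f := fun M : Fin k → ℕ => M ⟨0, hk⟩) (fun M => Finset.le_sup (f := M) (Finset.mem_univ _))
      (tendsto_coord le_rfl _)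
  · intro M _ l
    rw [pow_one]
    exact Finset.le_sup (f := M) (Finset.mem_univ l)
  · intro M _ m hm j
    refine hd j _ m fun l => ?_
    rw [Fintype.mem_piFinset] at hm
    exact (Finset.mem_Icc.1 (hm l)).2.trans (Finset.le_sup (f := M) (Finset.mem_univ l))
  · intro M _ j v
    obtain ⟨l, _, hl⟩ := Finset.exists_mem_eq_sup _ hne M
    change _ * Finset.univ.sup M ≤ _
    rw [hl]
    refine fibre_count (P j) l D (hD1 j l) M _ (Finset.filter_subset _ _) (fun m hm => ?_) v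
    exact ((hmem𝓖 m).1 (Finset.mem_filter.1 hm).2).1 j
  · intro M _ i j hij v
    obtain ⟨l, _, hl⟩ := Finset.exists_mem_eq_sup _ hne M
    change _ * Finset.univ.sup M ≤ _
    rw [hl]
    have h1 := fibre_count (P i - P j) l D (hD2 i j l) M ((box M).filter (· ∈ 𝓖)) (Finset.filter_subset _ _)
      (fun m hm => ((hmem𝓖 m).1 (Finset.mem_filter.1 hm).2).2 i j hij) v
    refine le_trans (le_of_eq ?_) h1
    congr 2
    refine Finset.filter_congr fun m _ => ?_
    rw [map_sub]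
  · have hnn : ∀ M : Fin k → ℕ, (0 : ℝ) ≤ ∏ l, (M l : ℝ) := fun M => Finset.prod_nonneg fun l _ => by positivity
    have h1 : Tendsto (fun M : Fin k → ℕ => ∑ j, (#((box M).filter fun m => ¬ Reg (P j) m) : ℝ) / ∏ l, (M l : ℝ) +
        ∑ ij : Fin n × Fin n, (if ij.1 = ij.2 then 0 else
          (#((box M).filter fun m => ¬ Reg (P ij.1 - P ij.2) m) : ℝ) / ∏ l, (M l : ℝ))) atTop (𝓝 0) := by
      have h2 := tendsto_finsetSum (Finset.univ : Finset (Fin n)) fun j _ => reg_dens (P j) (hP j)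
      have h3 : Tendsto (fun M : Fin k → ℕ => ∑ ij : Fin n × Fin n, (if ij.1 = ij.2 then 0 else
          (#((box M).filter fun m => ¬ Reg (P ij.1 - P ij.2) m) : ℝ) / ∏ l, (M l : ℝ))) atTop (𝓝 (∑ _ij : Fin n × Fin n, (0:ℝ))) := by
        refine tendsto_finsetSum _ fun ij _ => ?_
        by_cases h : ij.1 = ij.2
        · simp only [h, if_true]
          exact tendsto_const_nhds
        · simp only [h, if_false]
          exact reg_dens _ (hP' _ _ h)
      have := h2.add h3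
      simpa using this
    refine squeeze_zero (fun M => by have := hnn M; positivity) (fun M => ?_) h1
    have h4 : #((box M).filter (· ∉ 𝓖)) ≤ ∑ j, #((box M).filter fun m => ¬ Reg (P j) m) +
        ∑ ij : Fin n × Fin n, (if ij.1 = ij.2 then 0 else #((box M).filter fun m => ¬ Reg (P ij.1 - P ij.2) m)) := by
      have hsub : (box M).filter (· ∉ 𝓖) ⊆ (Finset.univ.biUnion fun j => (box M).filter fun m => ¬ Reg (P j) m) ∪
          (Finset.univ.biUnion fun ij : Fin n × Fin n => if ij.1 = ij.2 then (∅ : Finset (Fin k → ℕ)) else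
            (box M).filter fun m => ¬ Reg (P ij.1 - P ij.2) m) := by
        intro m hm
        rw [Finset.mem_filter] at hm
        obtain ⟨hm1, hm2⟩ := hm
        rw [Finset.mem_union, Finset.mem_biUnion, Finset.mem_biUnion]
        rw [hmem𝓖] at hm2
        by_contra hcon
        push Not at hcon
        apply hm2
        refine ⟨fun j => ?_, fun i j hij => ?_⟩
        · by_contra hr
          exact hcon.1 j (Finset.mem_univ _) (Finset.mem_filter.2 ⟨hm1, hr⟩)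
        · by_contra hr
          have := hcon.2 (i, j) (Finset.mem_univ _)
          rw [if_neg hij] at this
          exact this (Finset.mem_filter.2 ⟨hm1, hr⟩)
      refine (Finset.card_le_card hsub).trans ((Finset.card_union_le _ _).trans (add_le_add Finset.card_biUnion_le ?_))
      refine Finset.card_biUnion_le.trans (Finset.sum_le_sum fun ij _ => ?_)
      split_ifs <;> simp
    have h5 : (#((box M).filter (· ∉ 𝓖)) : ℝ) ≤ ∑ j, (#((box M).filter fun m => ¬ Reg (P j) m) : ℝ) +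
        ∑ ij : Fin n × Fin n, (if ij.1 = ij.2 then 0 else (#((box M).filter fun m => ¬ Reg (P ij.1 - P ij.2) m) : ℝ)) := by
      have : ((#((box M).filter (· ∉ 𝓖)) : ℕ) : ℝ) ≤ ((∑ j, #((box M).filter fun m => ¬ Reg (P j) m) +
        ∑ ij : Fin n × Fin n, (if ij.1 = ij.2 then 0 else #((box M).filter fun m => ¬ Reg (P ij.1 - P ij.2) m)) : ℕ) : ℝ) := by
        exact_mod_cast h4
      push_cast at this
      exact this
    have h6 : ∀ ij : Fin n × Fin n, (if ij.1 = ij.2 then 0 else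
          (#((box M).filter fun m => ¬ Reg (P ij.1 - P ij.2) m) : ℝ) / ∏ l, (M l : ℝ)) =
        (if ij.1 = ij.2 then 0 else (#((box M).filter fun m => ¬ Reg (P ij.1 - P ij.2) m) : ℝ)) / ∏ l, (M l : ℝ) := by
      intro ij
      split_ifs
      · rw [zero_div]
      · rfl
    simp only [h6]
    rw [← Finset.sum_div, ← Finset.sum_div, ← add_div]
    have := hnn M
    gcongr

/-- boxes in a sector: all polynomials and all differences are nonconstant -/
theorem boxes_sector (ρ : Measure K) [IsProbabilityMeasure ρ] [ρ.IsMulLeftInvariant] [ρ.IsMulRightInvariant]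
    (μ : Measure Y) [IsProbabilityMeasure μ]
    (S : Equiv.Perm Y) (hS : ∀ p : ℤ, Measurable (S ^ p)) (φ : Y → K) (hφ : Measurable φ)
    (ξ : Y → ℕ) (hξ : Measurable ξ) (hfr : ∀ᵐ y ∂μ, Fresh2 S ξ y)
    {k n : ℕ} (hk : 0 < k) (P : Fin n → MvPolynomial (Fin k) ℤ) (hP : ∀ j v, P j ≠ MvPolynomial.C v)
    (hP' : ∀ i j, i ≠ j → ∀ v, P i - P j ≠ MvPolynomial.C v) (A : ℕ)
    (f : Fin n → (Fin k → ℕ) → Y × K → ℂ) (hf : ∀ j m, Measurable (f j m)) (hfb : ∃ C, ∀ j m z, ‖f j m z‖ ≤ C) :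
    ∀ᵐ θ ∂(Measure.infinitePi (fun _ : ℕ => ρ)), ∀ᵐ z ∂(μ.prod ρ),
      Tendsto (fun M => dq ρ S (cc φ ξ θ) (fun j (m : Fin k → ℕ) => MvPolynomial.eval (fun l => ((m l : ℕ) : ℤ)) (P j)) f
        (∏ l, (M l : ℝ)) (box M) z) (atTop ⊓ 𝓟 {M | ∀ l l', M l ≤ M l' ^ A}) (𝓝 0) := by
  classical
  have hne : (Finset.univ : Finset (Fin k)).Nonempty := ⟨⟨0, hk⟩, Finset.mem_univ _⟩
  obtain ⟨d, hd⟩ : ∃ d : ℕ, ∀ j (s : ℕ) (m : Fin k → ℕ), (∀ l, m l ≤ s) →
      |MvPolynomial.eval (fun l => ((m l : ℕ) : ℤ)) (P j)| ≤ (((s + 2) ^ d : ℕ) : ℤ) := by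
    choose d hd using fun j => growth (P j)
    refine ⟨∑ j, d j, fun j s m hm => (hd j s m hm).trans ?_⟩
    have : (s + 2) ^ d j ≤ (s + 2) ^ ∑ j, d j :=
      Nat.pow_le_pow_right (by omega) (Finset.single_le_sum (fun _ _ => Nat.zero_le _) (Finset.mem_univ j))
    exact_mod_cast this
  set s : (Fin k → ℕ) → ℕ := fun M => Finset.univ.inf' hne M with hs
  have hsl : ∀ M l, s M ≤ M l := fun M l => Finset.inf'_le M (Finset.mem_univ l)
  have hszv : ∀ Q : MvPolynomial (Fin k) ℤ, (∀ v, Q ≠ MvPolynomial.C v) → ∀ M : Fin k → ℕ, ∀ v : ℤ,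
      #((box M).filter fun m => MvPolynomial.eval (fun l => ((m l : ℕ) : ℤ)) Q = v) * s M ≤
        (∑ l, Q.degreeOf l) * ∏ l, M l := by
    intro Q hQ M v
    rcases Nat.eq_zero_or_pos (s M) with h0 | h0
    · rw [h0, mul_zero]; exact Nat.zero_le _
    have hM : ∀ l, (0 : ℝ) < M l := fun l => by exact_mod_cast h0.trans_le (hsl M l)
    have hsR : (0 : ℝ) < s M := by exact_mod_cast h0
    have hprod : (0 : ℝ) < ∏ l, (M l : ℝ) := Finset.prod_pos fun l _ => hM l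
    have h1 := sz (Q + MvPolynomial.C (-v)) (by
      intro h
      rw [map_neg, ← sub_eq_add_neg, sub_eq_zero] at h
      exact hQ v h) M
    have h2 : ∑ l, ((Q + MvPolynomial.C (-v)).degreeOf l : ℝ) / M l ≤ (∑ l, (Q.degreeOf l : ℝ)) / s M := by
      rw [Finset.sum_div]
      refine Finset.sum_le_sum fun l _ => ?_
      have h3 : (Q + MvPolynomial.C (-v)).degreeOf l ≤ Q.degreeOf l := by
        refine (MvPolynomial.degreeOf_add_le l _ _).trans ?_
        rw [MvPolynomial.degreeOf_C]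
        simp
      have h4 : (s M : ℝ) ≤ M l := by exact_mod_cast hsl M l
      gcongr
    have h5 := h1.trans h2
    rw [div_le_div_iff₀ hprod hsR] at h5
    have h6 : ((#((box M).filter fun m => MvPolynomial.eval (fun l => ((m l : ℕ) : ℤ)) Q = v) * s M : ℕ) : ℝ) ≤
        (((∑ l, Q.degreeOf l) * ∏ l, M l : ℕ) : ℝ) := by
      push_cast
      refine le_trans (le_of_eq ?_) h5
      congr 2
      congr 1
      refine Finset.filter_congr fun m _ => ?_
      rw [map_add, MvPolynomial.eval_C]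
      constructor
      · intro h; rw [h]; ring
      · intro h; linarith
    exact_mod_cast h6
  set D : ℕ := (∑ j, ∑ l, (P j).degreeOf l) + ∑ i, ∑ j, ∑ l, (P i - P j).degreeOf l with hD
  have hD1 : ∀ j, ∑ l, (P j).degreeOf l ≤ D := by
    intro j
    have e2 : ∑ l, (P j).degreeOf l ≤ ∑ j, ∑ l, (P j).degreeOf l :=
      Finset.single_le_sum (f := fun j => ∑ l, (P j).degreeOf l) (fun _ _ => Nat.zero_le _) (Finset.mem_univ j)
    omega
  have hD2 : ∀ i j, ∑ l, (P i - P j).degreeOf l ≤ D := by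
    intro i j
    have e2 : ∑ l, (P i - P j).degreeOf l ≤ ∑ j, ∑ l, (P i - P j).degreeOf l :=
      Finset.single_le_sum (f := fun j => ∑ l, (P i - P j).degreeOf l) (fun _ _ => Nat.zero_le _) (Finset.mem_univ j)
    have e3 : ∑ j, ∑ l, (P i - P j).degreeOf l ≤ ∑ i, ∑ j, ∑ l, (P i - P j).degreeOf l :=
      Finset.single_le_sum (f := fun i => ∑ j, ∑ l, (P i - P j).degreeOf l) (fun _ _ => Nat.zero_le _) (Finset.mem_univ i)
    omega
  refine boxes_val ρ μ S hS φ hφ ξ hξ hfr hk _ (A + 1) ((A + 1) * d) (by omega) D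
    {M | ∀ l l', M l ≤ M l' ^ (A + 1)} s ?_ ?_ ?_
    Set.univ ?_ ?_ ?_ _ inf_le_left ?_ f hf hfb
  · refine tendsto_atTop.2 fun b => ?_
    filter_upwards [eventually_ge_atTop (fun _ : Fin k => b)] with M hM
    exact Finset.le_inf' hne M fun l _ => hM l
  · intro M hM l
    obtain ⟨l', _, hl'⟩ := Finset.exists_mem_eq_inf' hne M
    change M l ≤ (Finset.univ.inf' hne M) ^ (A + 1)
    rw [hl']
    exact hM l l'
  · intro M hM m hm j
    obtain ⟨l', _, hl'⟩ := Finset.exists_mem_eq_inf' hne M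
    have hsM : s M = M l' := hl'
    refine (hd j (s M ^ (A + 1)) m fun l => ?_).trans ?_
    · rw [Fintype.mem_piFinset] at hm
      rw [hsM]
      exact (Finset.mem_Icc.1 (hm l)).2.trans (hM l l')
    · have h1 : s M ^ (A + 1) + 2 ≤ (s M + 2) ^ (A + 1) := by
        have e1 : s M ^ (A + 1) = s M ^ A * s M := pow_succ _ _
        have e2 : (s M + 2) ^ (A + 1) = (s M + 2) ^ A * (s M + 2) := pow_succ _ _
        have e3 : s M ^ A ≤ (s M + 2) ^ A := Nat.pow_le_pow_left (by omega) A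
        have e4 : 1 ≤ (s M + 2) ^ A := Nat.one_le_pow _ _ (by omega)
        nlinarith
      have h2 : (s M ^ (A + 1) + 2) ^ d ≤ (s M + 2) ^ ((A + 1) * d) := by
        rw [pow_mul]
        exact Nat.pow_le_pow_left h1 d
      exact_mod_cast h2
  · intro M _ j v
    have h1 := hszv (P j) (hP j) M v
    refine le_trans (Nat.mul_le_mul_right _ (Finset.card_le_card ?_)) (h1.trans (Nat.mul_le_mul_right _ (hD1 j)))
    intro m hm
    rw [Finset.mem_filter, Finset.mem_filter] at hm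
    exact Finset.mem_filter.2 ⟨hm.1.1, hm.2⟩
  · intro M _ i j hij v
    have h1 := hszv (P i - P j) (hP' i j hij) M v
    refine le_trans (Nat.mul_le_mul_right _ (Finset.card_le_card ?_)) (h1.trans (Nat.mul_le_mul_right _ (hD2 i j)))
    intro m hm
    rw [Finset.mem_filter, Finset.mem_filter] at hm
    exact Finset.mem_filter.2 ⟨hm.1.1, by rw [map_sub]; exact hm.2⟩
  · have : ∀ M : Fin k → ℕ, (box M).filter (· ∉ (Set.univ : Set (Fin k → ℕ))) = ∅ := by
      intro M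
      rw [Finset.filter_eq_empty_iff]
      intro m _ h
      exact h (Set.mem_univ m)
    simp only [this, Finset.card_empty, Nat.cast_zero, zero_div]
    exact tendsto_const_nhds
  · set q := 4 * k * (A + 1) with hq
    have hq0 : 0 < q := by positivity
    have hF : (atTop ⊓ 𝓟 {M : Fin k → ℕ | ∀ l l', M l ≤ M l' ^ A}) ≤ atTop := inf_le_left
    have h1 : ∀ᶠ M in (atTop ⊓ 𝓟 {M : Fin k → ℕ | ∀ l l', M l ≤ M l' ^ A}), ∀ l, 2 ^ (q * A) ≤ gp q M l :=
      eventually_all.2 fun l => ((tendsto_pow_atTop hq0.ne').comp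
        ((rt_tendsto hq0).comp (tendsto_coord hF l))).eventually_ge_atTop (2 ^ (q * A))
    have h2 : ∀ᶠ M in (atTop ⊓ 𝓟 {M : Fin k → ℕ | ∀ l l', M l ≤ M l' ^ A}), ∀ l, 1 ≤ rt q (M l) :=
      eventually_all.2 fun l => ((rt_tendsto hq0).comp (tendsto_coord hF l)).eventually_ge_atTop 1
    have h3 : ∀ᶠ M in (atTop ⊓ 𝓟 {M : Fin k → ℕ | ∀ l l', M l ≤ M l' ^ A}), ∀ l l', M l ≤ M l' ^ A :=
      (Filter.mem_inf_of_right (Filter.mem_principal_self _))
    filter_upwards [h1, h2, h3] with M h1 h2 h3 l l'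
    have e1 : M l' ≤ 2 ^ q * gp q M l' := by
      refine (lt_rt hq0 (M l')).le.trans ?_
      unfold gp
      rw [← mul_pow]
      exact Nat.pow_le_pow_left (by have := h2 l'; omega) q
    calc gp q M l ≤ M l := gp_le hq0 M l
      _ ≤ M l' ^ A := h3 l l'
      _ ≤ (2 ^ q * gp q M l') ^ A := Nat.pow_le_pow_left e1 A
      _ = 2 ^ (q * A) * gp q M l' ^ A := by rw [mul_pow, ← pow_mul]
      _ ≤ gp q M l' * gp q M l' ^ A := Nat.mul_le_mul_right _ (h1 l')
      _ = gp q M l' ^ (A + 1) := by rw [pow_succ, mul_comm]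

end Pool.Agent.R205.PC
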