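import Pool.Agent.R205.PC.Z8

/-!
# One parameter, and translations of the fibres
-/

set_option autoImplicit false

open MeasureTheory Filter Topology Set Finset
open scoped ENNReal ComplexConjugate

namespace Pool.Agent.R205.PC

lemma sum_box_one (N : ℕ) (u : ℕ → ℂ) :
    ∑ m ∈ box (fun _ : Fin 1 => N), u (m 0) = ∑ t ∈ Finset.Icc 1 N, u t := by
  refine Finset.sum_nbij' (fun m => m 0) (fun n _ => n) ?_ ?_ ?_ ?_ ?_
  · intro m hm
    rw [Fintype.mem_piFinset] at hm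
    exact hm 0
  · intro n hn
    rw [Fintype.mem_piFinset]
    intro _
    exact hn
  · intro m _
    funext j
    rw [Subsingleton.elim j 0]
  · intro n _
    rfl
  · intro m _
    rfl

lemma sum_sym (N : ℕ) (u : ℤ → ℂ) : ∑ t ∈ Finset.Icc (-(N : ℤ)) N, u t =
    u 0 + ∑ t ∈ Finset.Icc 1 N, u (t : ℤ) + ∑ t ∈ Finset.Icc 1 N, u (-(t : ℤ)) := by
  induction N with
  | zero => simp
  | succ N ih =>
    have e1 : Finset.Icc (-((N + 1 : ℕ) : ℤ)) ((N + 1 : ℕ) : ℤ) =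
        insert (((N + 1 : ℕ) : ℤ)) (insert (-((N + 1 : ℕ) : ℤ)) (Finset.Icc (-(N : ℤ)) N)) := by
      ext t
      simp only [Finset.mem_Icc, Finset.mem_insert]
      push_cast
      omega
    rw [e1, Finset.sum_insert, Finset.sum_insert, ih, Finset.sum_Icc_succ_top (by omega), Finset.sum_Icc_succ_top (by omega)]
    · ring
    · simp only [Finset.mem_Icc]
      push_cast
      omega
    · simp only [Finset.mem_Icc, Finset.mem_insert]
      push_cast
      omega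

lemma eval_emb (p : Polynomial ℤ) (m : Fin 1 → ℤ) :
    MvPolynomial.eval m (Polynomial.aeval (MvPolynomial.X 0 : MvPolynomial (Fin 1) ℤ) p) = p.eval (m 0) := by
  induction p using Polynomial.induction_on' with
  | add p q hp hq => rw [map_add, map_add, hp, hq, Polynomial.eval_add]
  | monomial n a => simp [Polynomial.aeval_monomial]

lemma emb_ne (p : Polynomial ℤ) (hp : 0 < p.natDegree) (v : ℤ) :
    Polynomial.aeval (MvPolynomial.X 0 : MvPolynomial (Fin 1) ℤ) p ≠ MvPolynomial.C v := by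
  intro h
  have h1 : p = Polynomial.C v := by
    apply Polynomial.funext
    intro r
    have h2 := eval_emb p (fun _ => r)
    rw [h, MvPolynomial.eval_C] at h2
    rw [Polynomial.eval_C, h2]
  rw [h1, Polynomial.natDegree_C] at hp
  exact lt_irrefl _ hp

variable {Y K : Type*} [MeasurableSpace Y] [Group K] [MeasurableSpace K] [MeasurableMul₂ K] [MeasurableInv K]

/-- the terms of the averages of the differences -/
noncomputable def tm (ρ : Measure K) (S : Equiv.Perm Y) (c : Y → K) {n : ℕ} {M : Type*} (P : Fin n → M → ℤ)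
    (f : Fin n → M → Y × K → ℂ) (m : M) (z : Y × K) : ℂ :=
  ∏ j, f j m ((skp S c ^ P j m) z) - ∏ j, fm ρ (f j m) ((S ^ P j m) z.1)

theorem one_param (ρ : Measure K) [IsProbabilityMeasure ρ] [ρ.IsMulLeftInvariant] [ρ.IsMulRightInvariant]
    (μ : Measure Y) [IsProbabilityMeasure μ]
    (S : Equiv.Perm Y) (hS : ∀ p : ℤ, Measurable (S ^ p)) (φ : Y → K) (hφ : Measurable φ)
    (ξ : Y → ℕ) (hξ : Measurable ξ) (hfr : ∀ᵐ y ∂μ, Fresh2 S ξ y)
    {n : ℕ} (p : Fin n → Polynomial ℤ) (hp : ∀ j, 0 < (p j).natDegree)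
    (hp' : ∀ i j, i ≠ j → 0 < (p i - p j).natDegree)
    (f : Fin n → ℕ → Y × K → ℂ) (hf : ∀ j m, Measurable (f j m)) (hfb : ∃ C, ∀ j m z, ‖f j m z‖ ≤ C) :
    ∀ᵐ θ ∂(Measure.infinitePi (fun _ : ℕ => ρ)), ∀ᵐ z ∂(μ.prod ρ),
      Tendsto (fun N : ℕ => (N : ℂ)⁻¹ * ∑ t ∈ Finset.Icc 1 N,
        tm ρ S (cc φ ξ θ) (fun j (t : ℕ) => (p j).eval (t : ℤ)) f t z) atTop (𝓝 0) := by
  obtain ⟨C, hC⟩ := hfb
  have key := boxes_sector ρ μ S hS φ hφ ξ hξ hfr one_pos
    (fun j => Polynomial.aeval (MvPolynomial.X 0 : MvPolynomial (Fin 1) ℤ) (p j)) (fun j v => emb_ne _ (hp j) v)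
    (fun i j hij v => by rw [← map_sub]; exact emb_ne _ (hp' i j hij) v) 1
    (fun j m => f j (m 0)) (fun j m => hf j _) ⟨C, fun j m z => hC j _ z⟩
  filter_upwards [key] with θ hθ
  filter_upwards [hθ] with z hz
  have hN : Tendsto (fun (N : ℕ) (_ : Fin 1) => N) atTop (atTop ⊓ 𝓟 {M | ∀ l l', M l ≤ M l' ^ 1}) := by
    refine tendsto_inf.2 ⟨tendsto_of_coord _ fun _ => tendsto_id, tendsto_principal.2 (Eventually.of_forall fun N => ?_)⟩
    intro l l'
    rw [pow_one]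
  refine (hz.comp hN).congr fun N => ?_
  simp only [Function.comp]
  unfold dq
  rw [Fin.prod_univ_one]
  push_cast
  congr 1
  rw [← sum_box_one N (fun t => tm ρ S (cc φ ξ θ) (fun j (t : ℕ) => (p j).eval (t : ℤ)) f t z)]
  refine Finset.sum_congr rfl fun m _ => ?_
  unfold tm
  simp only [eval_emb]

theorem two_sided (ρ : Measure K) [IsProbabilityMeasure ρ] [ρ.IsMulLeftInvariant] [ρ.IsMulRightInvariant]
    (μ : Measure Y) [IsProbabilityMeasure μ]
    (S : Equiv.Perm Y) (hS : ∀ p : ℤ, Measurable (S ^ p)) (φ : Y → K) (hφ : Measurable φ)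
    (ξ : Y → ℕ) (hξ : Measurable ξ) (hfr : ∀ᵐ y ∂μ, Fresh2 S ξ y)
    {n : ℕ} (p : Fin n → Polynomial ℤ) (hp : ∀ j, 0 < (p j).natDegree)
    (hp' : ∀ i j, i ≠ j → 0 < (p i - p j).natDegree)
    (f : Fin n → ℤ → Y × K → ℂ) (hf : ∀ j m, Measurable (f j m)) (hfb : ∃ C, ∀ j m z, ‖f j m z‖ ≤ C) :
    ∀ᵐ θ ∂(Measure.infinitePi (fun _ : ℕ => ρ)), ∀ᵐ z ∂(μ.prod ρ),
      Tendsto (fun N : ℕ => (1 / (2 * (N : ℂ) + 1)) * ∑ t ∈ Finset.Icc (-(N : ℤ)) N,
        tm ρ S (cc φ ξ θ) (fun j (t : ℤ) => (p j).eval t) f t z) atTop (𝓝 0) := by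
  obtain ⟨C, hC⟩ := hfb
  have hcomp : ∀ q : Polynomial ℤ, (q.comp (-Polynomial.X)).natDegree = q.natDegree := by
    intro q
    rw [Polynomial.natDegree_comp, Polynomial.natDegree_neg, Polynomial.natDegree_X, mul_one]
  have h1 := one_param ρ μ S hS φ hφ ξ hξ hfr p hp hp' (fun j t => f j (t : ℤ)) (fun j t => hf j _) ⟨C, fun j t z => hC j _ z⟩
  have h2 := one_param ρ μ S hS φ hφ ξ hξ hfr (fun j => (p j).comp (-Polynomial.X)) (fun j => by rw [hcomp]; exact hp j)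
    (fun i j hij => by rw [← Polynomial.sub_comp, hcomp]; exact hp' i j hij)
    (fun j t => f j (-(t : ℤ))) (fun j t => hf j _) ⟨C, fun j t z => hC j _ z⟩
  filter_upwards [h1, h2] with θ h1 h2
  filter_upwards [h1, h2] with z h1 h2
  set u : ℤ → ℂ := fun t => tm ρ S (cc φ ξ θ) (fun j (t : ℤ) => (p j).eval t) f t z with hu
  have e1 : Tendsto (fun N : ℕ => (N : ℂ)⁻¹ * ∑ t ∈ Finset.Icc 1 N, u (t : ℤ)) atTop (𝓝 0) := h1
  have e2 : Tendsto (fun N : ℕ => (N : ℂ)⁻¹ * ∑ t ∈ Finset.Icc 1 N, u (-(t : ℤ))) atTop (𝓝 0) := by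
    refine h2.congr fun N => ?_
    congr 1
    refine Finset.sum_congr rfl fun t _ => ?_
    simp only [hu]
    unfold tm
    simp [Polynomial.eval_comp]
  have e0 : Tendsto (fun N : ℕ => ‖u 0‖ / (N : ℝ) + ‖(N : ℂ)⁻¹ * ∑ t ∈ Finset.Icc 1 N, u (t : ℤ)‖ +
      ‖(N : ℂ)⁻¹ * ∑ t ∈ Finset.Icc 1 N, u (-(t : ℤ))‖) atTop (𝓝 0) := by
    have a1 : Tendsto (fun N : ℕ => ‖u 0‖ / (N : ℝ)) atTop (𝓝 0) := tendsto_const_div_atTop_nhds_zero_nat _
    have := (a1.add (tendsto_zero_iff_norm_tendsto_zero.1 e1)).add (tendsto_zero_iff_norm_tendsto_zero.1 e2)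
    simpa using this
  refine squeeze_zero_norm' ?_ e0
  filter_upwards [eventually_ge_atTop 1] with N hN
  have hN0 : (0 : ℝ) < N := by exact_mod_cast hN
  rw [sum_sym N u, norm_mul]
  have e3 : ‖1 / (2 * (N : ℂ) + 1)‖ ≤ 1 / (N : ℝ) := by
    have : (2 * (N : ℂ) + 1) = ((2 * N + 1 : ℕ) : ℂ) := by push_cast; ring
    rw [norm_div, norm_one, this, Complex.norm_natCast]
    push_cast
    gcongr
    linarith
  calc ‖1 / (2 * (N : ℂ) + 1)‖ * ‖u 0 + ∑ t ∈ Finset.Icc 1 N, u (t : ℤ) + ∑ t ∈ Finset.Icc 1 N, u (-(t : ℤ))‖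
      ≤ (1 / (N : ℝ)) * (‖u 0‖ + ‖∑ t ∈ Finset.Icc 1 N, u (t : ℤ)‖ + ‖∑ t ∈ Finset.Icc 1 N, u (-(t : ℤ))‖) := by
        gcongr
        exact (norm_add_le _ _).trans (add_le_add (norm_add_le _ _) le_rfl)
    _ = _ := by
        rw [norm_mul, norm_mul, norm_inv, Complex.norm_natCast]
        ring

/-- right translation of the fibres -/
def rgt (κ : K) : Equiv.Perm (Y × K) where
  toFun z := (z.1, z.2 * κ)
  invFun z := (z.1, z.2 * κ⁻¹)
  left_inv z := by simp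
  right_inv z := by simp

/-- a permutation which is a right translation of the fibres -/
def IsR (U : Equiv.Perm (Y × K)) : Prop := ∃ κ : K, ∀ z, U z = (z.1, z.2 * κ)

omit [MeasurableSpace Y] [MeasurableSpace K] [MeasurableMul₂ K] [MeasurableInv K] in
lemma isR_mul {U V : Equiv.Perm (Y × K)} (hU : IsR U) (hV : IsR V) : IsR (U * V) := by
  obtain ⟨κ, h⟩ := hU
  obtain ⟨κ', h'⟩ := hV
  refine ⟨κ' * κ, fun z => ?_⟩
  rw [Equiv.Perm.mul_apply, h', h, mul_assoc]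

omit [MeasurableSpace Y] [MeasurableSpace K] [MeasurableMul₂ K] [MeasurableInv K] in
lemma isR_one : IsR (1 : Equiv.Perm (Y × K)) := ⟨1, fun z => by simp⟩

omit [MeasurableSpace Y] [MeasurableSpace K] [MeasurableMul₂ K] [MeasurableInv K] in
lemma isR_inv {U : Equiv.Perm (Y × K)} (hU : IsR U) : IsR U⁻¹ := by
  obtain ⟨κ, h⟩ := hU
  refine ⟨κ⁻¹, fun z => ?_⟩
  rw [Equiv.Perm.inv_eq_iff_eq, h]
  simp

omit [MeasurableSpace Y] [MeasurableSpace K] [MeasurableMul₂ K] [MeasurableInv K] in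
lemma isR_zpow {U : Equiv.Perm (Y × K)} (hU : IsR U) (p : ℤ) : IsR (U ^ p) := by
  induction p using Int.induction_on with
  | zero => rw [zpow_zero]; exact isR_one
  | succ n ih => rw [zpow_add, zpow_one]; exact isR_mul ih hU
  | pred n ih => rw [sub_eq_add_neg, zpow_add, zpow_neg_one]; exact isR_mul ih (isR_inv hU)

omit [MeasurableSpace Y] [MeasurableSpace K] [MeasurableMul₂ K] [MeasurableInv K] in
lemma isR_list (l : List (Equiv.Perm (Y × K))) (h : ∀ U ∈ l, IsR U) : IsR l.prod := by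
  induction l with
  | nil => rw [List.prod_nil]; exact isR_one
  | cons a l ih =>
    rw [List.prod_cons]
    exact isR_mul (h a (by simp)) (ih fun U hU => h U (by simp [hU]))

omit [MeasurableSpace Y] [MeasurableSpace K] [MeasurableMul₂ K] [MeasurableInv K] in
lemma xz_mul_right (S : Equiv.Perm Y) (c : Y → K) (y : Y) (x κ : K) (p : ℤ) :
    xz S c y (x * κ) p = xz S c y x p * κ := by
  induction p using Int.induction_on with
  | zero => rfl
  | succ n ih => rw [xz_succ, xz_succ, ih, mul_assoc]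
  | pred n ih =>
    rw [xz_pred, xz_pred S c y x, show (-(n : ℤ) - 1 + 1) = -(n : ℤ) by ring, ih, mul_assoc]

omit [MeasurableSpace Y] [MeasurableSpace K] [MeasurableMul₂ K] [MeasurableInv K] in
lemma skp_right (S : Equiv.Perm Y) (c : Y → K) (κ : K) (p : ℤ) (z : Y × K) :
    (skp S c ^ p) (z.1, z.2 * κ) = (((skp S c ^ p) z).1, ((skp S c ^ p) z).2 * κ) := by
  obtain ⟨y, x⟩ := z
  simp only
  rw [skp_eq, skp_eq, xz_mul_right]

/-- the maps: the skew product and right translations -/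
def mps (S : Equiv.Perm Y) (c : Y → K) {d : ℕ} (κ : Fin d → K) : Fin (d + 1) → Equiv.Perm (Y × K) :=
  Fin.cons (skp S c) fun i => rgt (κ i)

omit [MeasurableSpace Y] [MeasurableSpace K] [MeasurableMul₂ K] [MeasurableInv K] in
/-- the right translation part -/
lemma mps_prod (S : Equiv.Perm Y) {d : ℕ} (κ : Fin d → K) (q : Fin (d + 1) → ℤ) :
    ∃ κ' : K, ∀ (c : Y → K) (z : Y × K), (List.ofFn fun i => mps S c κ i ^ q i).prod z =
      (((skp S c ^ q 0) z).1, ((skp S c ^ q 0) z).2 * κ') := by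
  have h1 : IsR (Y := Y) (List.ofFn fun i : Fin d => (rgt (κ i) : Equiv.Perm (Y × K)) ^ q i.succ).prod := by
    refine isR_list _ fun U hU => ?_
    rw [List.mem_ofFn] at hU
    obtain ⟨i, rfl⟩ := hU
    exact isR_zpow ⟨κ i, fun z => rfl⟩ _
  obtain ⟨κ', hκ'⟩ := h1
  refine ⟨κ', fun c z => ?_⟩
  rw [List.ofFn_succ, List.prod_cons, Equiv.Perm.mul_apply]
  have h2 : (List.ofFn fun i : Fin d => mps S c κ i.succ ^ q i.succ).prod z = (z.1, z.2 * κ') := hκ' z
  rw [h2]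
  change (skp S c ^ q 0) (z.1, z.2 * κ') = _
  rw [skp_right]

lemma mp_skp (ρ : Measure K) [IsProbabilityMeasure ρ] [ρ.IsMulLeftInvariant]
    (μ : Measure Y) [IsProbabilityMeasure μ] (S : Equiv.Perm Y) (hS : MeasurePreserving S μ μ) (c : Y → K)
    (hc : Measurable c) : MeasurePreserving (skp S c) (μ.prod ρ) (μ.prod ρ) :=
  mp_sk ρ μ S hS c hc

omit [MeasurableInv K] in
lemma mp_rgt (ρ : Measure K) [IsProbabilityMeasure ρ] [ρ.IsMulRightInvariant]
    (μ : Measure Y) [IsProbabilityMeasure μ] (κ : K) : MeasurePreserving (rgt κ) (μ.prod ρ) (μ.prod ρ) :=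
  (MeasurePreserving.id μ).prod (measurePreserving_mul_right ρ κ)

omit [MeasurableInv K] in
lemma fm_right (ρ : Measure K) [ρ.IsMulRightInvariant] (f : Y × K → ℂ) (κ : K) :
    fm ρ (fun z => f (z.1, z.2 * κ)) = fm ρ f := by
  funext y
  unfold fm
  exact integral_mul_right_eq_self (fun x => f (y, x)) κ

end Pool.Agent.R205.PC
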